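import Pool.Agent.PCZ.Stmts

/-!
# [Ent] the maximal entropy of a doubly stochastic matrix supported on the edges
-/

set_option autoImplicit false

namespace Pool.Agent.PCZ

open Finset Filter Pool.Agent.PC Pool.Agent.PCX Pool.Agent.PrimeCircle

/-- entropies of the doubly stochastic matrices supported on the edges of the prime sum graph -/
def Entropies (m : ℕ) : Set ℝ :=
  {h | ∃ B ∈ doublyStochastic ℝ (Fin m),
    (∀ i j : Fin m, B i j ≠ 0 → (2 * ((i : ℕ) + (j : ℕ)) + 3).Prime) ∧
    h = ∑ i, ∑ j, Real.negMulLog (B i j)}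

theorem Ent_greatest (m : ℕ) (x : ℕ → ℝ) (hx : ∀ i < m, 0 < x i)
    (hw : ∀ i < m, wdeg m x i = 1) :
    IsGreatest (Entropies m) (-2 * ∑ i ∈ range m, Real.log (x i)) := by
  classical
  set Z : Fin m → Fin m → ℝ := fun i j => if PA i j then x i * x j else 0 with hZ
  have hsymm : ∀ i j : Fin m, Z i j = Z j i := by
    intro i j
    have h1 : PA i j ↔ PA j i := by
      unfold PA
      rw [Nat.add_comm (i : ℕ) (j : ℕ)]
    simp only [hZ]
    by_cases h : PA i j
    · rw [if_pos h, if_pos (h1.1 h), mul_comm]
    · rw [if_neg h, if_neg (fun h' => h (h1.2 h'))]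
  have hZ0 : ∀ i j, 0 ≤ Z i j := by
    intro i j
    simp only [hZ]
    split_ifs
    · exact (mul_pos (hx _ i.2) (hx _ j.2)).le
    · exact le_rfl
  have hrow : ∀ i, ∑ j, Z i j = 1 := by
    intro i
    rw [← hw i i.2]
    unfold wdeg
    rw [Fin.sum_univ_eq_sum_range (fun j => if PA i j then x i * x j else 0) m]
  have hcol : ∀ j, ∑ i, Z i j = 1 := by
    intro j
    rw [← hrow j]
    exact sum_congr rfl fun i _ => hsymm i j
  set S := ∑ i ∈ range m, Real.log (x i) with hS
  have hSf : ∑ i : Fin m, Real.log (x i) = S :=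
    Fin.sum_univ_eq_sum_range (fun i => Real.log (x i)) m
  -- cross entropy
  have hcross : ∀ B : Fin m → Fin m → ℝ, (∀ i, ∑ j, B i j = 1) → (∀ j, ∑ i, B i j = 1) →
      ∑ i, ∑ j, -(B i j * (Real.log (x i) + Real.log (x j))) = -2 * S := by
    intro B h1 h2
    have e1 : ∑ i, ∑ j, -(B i j * (Real.log (x i) + Real.log (x j))) =
        -(∑ i, ∑ j, B i j * Real.log (x i) + ∑ i, ∑ j, B i j * Real.log (x j)) := by
      rw [← sum_add_distrib, ← sum_neg_distrib]
      refine sum_congr rfl fun i _ => ?_
      rw [← sum_add_distrib, ← sum_neg_distrib]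
      refine sum_congr rfl fun j _ => ?_
      ring
    have e2 : ∑ i, ∑ j, B i j * Real.log (x i) = S := by
      rw [← hSf]
      refine sum_congr rfl fun i _ => ?_
      rw [← sum_mul, h1, one_mul]
    have e3 : ∑ i, ∑ j, B i j * Real.log (x j) = S := by
      rw [sum_comm, ← hSf]
      refine sum_congr rfl fun j _ => ?_
      rw [← sum_mul, h2, one_mul]
    rw [e1, e2, e3]
    ring
  refine ⟨⟨Matrix.of Z, ?_, ?_, ?_⟩, ?_⟩
  · rw [mem_doublyStochastic_iff_sum]
    exact ⟨hZ0, hrow, hcol⟩
  · intro i j h
    by_contra hcon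
    apply h
    show Z i j = 0
    simp only [hZ]
    exact if_neg hcon
  · rw [← hcross Z hrow hcol]
    refine sum_congr rfl fun i _ => sum_congr rfl fun j _ => ?_
    show -(Z i j * (Real.log (x i) + Real.log (x j))) = Real.negMulLog (Z i j)
    unfold Real.negMulLog
    simp only [hZ]
    split_ifs
    · rw [Real.log_mul (hx _ i.2).ne' (hx _ j.2).ne']
      ring
    · simp
  · rintro h ⟨B, hB, hsupp, rfl⟩
    rw [mem_doublyStochastic_iff_sum] at hB
    obtain ⟨hB0, hB1, hB2⟩ := hB
    have key : ∀ i j, Real.negMulLog (B i j) ≤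
        -(B i j * (Real.log (x i) + Real.log (x j))) + (Z i j - B i j) := by
      intro i j
      rcases (hB0 i j).eq_or_lt with h0 | h0
      · rw [← h0]
        simp only [Real.negMulLog_zero, zero_mul, neg_zero, sub_zero, zero_add]
        exact hZ0 i j
      · have hp : PA i j := hsupp i j h0.ne'
        have hZe : Z i j = x i * x j := by
          simp only [hZ]
          exact if_pos hp
        have hxi := hx _ i.2
        have hxj := hx _ j.2
        have h1 := Real.log_le_sub_one_of_pos (by positivity : 0 < x i * x j / B i j)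
        rw [Real.log_div (by positivity) h0.ne', Real.log_mul hxi.ne' hxj.ne'] at h1
        have h2 := mul_le_mul_of_nonneg_left h1 h0.le
        have h3 : B i j * (x i * x j / B i j - 1) = Z i j - B i j := by
          rw [hZe]
          field_simp
        rw [h3] at h2
        unfold Real.negMulLog
        linarith
    calc ∑ i, ∑ j, Real.negMulLog (B i j)
        ≤ ∑ i, ∑ j, (-(B i j * (Real.log (x i) + Real.log (x j))) + (Z i j - B i j)) :=
          sum_le_sum fun i _ => sum_le_sum fun j _ => key i j
      _ = ∑ i, ∑ j, -(B i j * (Real.log (x i) + Real.log (x j))) +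
          (∑ i, ∑ j, Z i j - ∑ i, ∑ j, B i j) := by
          rw [← sum_sub_distrib, ← sum_add_distrib]
          refine sum_congr rfl fun i _ => ?_
          rw [sum_add_distrib, sum_sub_distrib]
      _ = -2 * S := by
          rw [hcross B hB1 hB2]
          simp only [hrow, hB1]
          ring

end Pool.Agent.PCZ
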