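import Mathlib
import Pool.Agent.PCX.Stmts
import Pool.Agent.PC.PGPrime
import Pool.Agent.PC.Switch

/-!
# Number of prime circles up to a factor exp (polylog): frozen statements
Paper: /team-store/PCZ_paper.md
-/

set_option autoImplicit false

namespace Pool.Agent.PCZ

open Finset Filter Pool.Agent.PC Pool.Agent.PCX Pool.Agent.PrimeCircle

/-- weights of the right size -/
def Bd (C : ℝ) (m : ℕ) (x : ℕ → ℝ) : Prop :=
  ∀ i < m, C⁻¹ * √(Real.log m / m) ≤ x i ∧ x i ≤ C * √(Real.log m / m)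

open scoped Classical in
/-- normalised weighted degree -/
noncomputable def SS (A : ℕ → ℕ → Prop) (m : ℕ) (ξ : ℕ → ℝ) (i : ℕ) : ℝ :=
  (∑ j ∈ range m, if A i j then ξ j else 0) / dd m

/-! ### The scaling -/

/-- [Apr] a priori bounds for approximate scalings -/
def Stmt_Apr : Prop := ∀ A : ℕ → ℕ → Prop, PG A → ∃ Λ ε : ℝ, 1 ≤ Λ ∧ 0 < ε ∧ ε ≤ 1 / 2 ∧
  ∀ᶠ m : ℕ in atTop, ∀ ξ : ℕ → ℝ, (∀ i < m, 0 < ξ i) →
    (∀ i < m, 1 - ε ≤ ξ i * SS A m ξ i ∧ ξ i * SS A m ξ i ≤ 1 + ε) →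
    ∀ i < m, Λ⁻¹ ≤ ξ i ∧ ξ i ≤ Λ

/-- [Exi] existence of the exact symmetric scaling -/
def Stmt_Exi : Prop := ∃ C : ℝ, 0 < C ∧ ∀ᶠ m : ℕ in atTop, ∃ x : ℕ → ℝ,
  Bd C m x ∧ ∀ i < m, wdeg m x i = 1

open scoped Classical in
/-- [Uni] the product of the weights does not depend on the scaling -/
def Stmt_Uni : Prop := ∀ (S : Finset ℕ) (R : ℕ → ℕ → Prop), (∀ a b, R a b → R b a) →
  ∀ w w' : ℕ → ℝ,
    (∀ a ∈ S, 0 < w a ∧ w a * (∑ b ∈ S, if R a b then w b else 0) = 1) →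
    (∀ a ∈ S, 0 < w' a ∧ w' a * (∑ b ∈ S, if R a b then w' b else 0) = 1) →
    ∑ a ∈ S, Real.log (w a) = ∑ a ∈ S, Real.log (w' a)

/-! ### The flow condition -/

/-- [Cnd] the flow condition for the exact scaling -/
def Stmt_Cnd : Prop := ∀ C : ℝ, 0 < C → ∃ C₁ : ℝ, 0 < C₁ ∧ ∀ᶠ m : ℕ in atTop,
  ∀ x : ℕ → ℝ, Bd C m x → (∀ i < m, wdeg m x i = 1) → ∀ U V : Finset ℕ, Small m U V →
  ∀ X ⊆ range m \ U, ∀ Y ⊆ range m \ V, m - U.card < X.card + Y.card →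
    (1 + C₁ * (Real.log m * (U.card + 1) / m) / 2) *
        ((X.card : ℝ) + Y.card - (m - U.card)) ≤
      (1 + C₁ * (Real.log m * (U.card + 1) / m)) * WW PA x X Y

/-! ### Few cycles -/

open BlockH in
open scoped Classical in
/-- [Gro] many closed walks with distinct vertices, sharp form -/
def Stmt_Gro : Prop := ∀ A : ℕ → ℕ → Prop, PG A → ∃ c : ℝ, 0 < c ∧ ∀ᶠ m : ℕ in atTop, ∃ k : ℕ,
  ∀ U V : Finset ℕ, Small m U V →
  ∀ (e : (range m \ U : Finset ℕ) ≃ (range m \ V : Finset ℕ))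
    (W : Finset (range m \ U : Finset ℕ)) (u : (range m \ U : Finset ℕ)),
    (W.card : ℝ) ≤ c * dd m →
    (m : ℝ) / Real.log m ^ 5 * ((⌊2 * dd m⌋₊ : ℕ) : ℝ) ^ k ≤
      ((good (RR A e) W (k + 1) u).card : ℝ)

open scoped Classical in
/-- [Few] for every perfect matching `M1`, at least half of the perfect matchings `M2` form
with `M1` at most `C (log m)^6` cycles -/
def Stmt_Few : Prop := ∀ A : ℕ → ℕ → Prop, PG A → ∃ C : ℝ, 0 < C ∧ ∀ᶠ m : ℕ in atTop,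
  ∀ U V : Finset ℕ, Small m U V → ∀ M1 : Mt A (range m \ U) (range m \ V),
    Nat.card (Mt A (range m \ U) (range m \ V)) ≤
      2 * Nat.card {M2 : Mt A (range m \ U) (range m \ V) //
        (cyc M1.1 M2.1 : ℝ) ≤ C * Real.log m ^ 6}

/-! ### Merging -/

/-- [Res] a reservoir of polylogarithmic size -/
def Stmt_Res : Prop := ∀ A : ℕ → ℕ → Prop, PG A → ∀ C : ℝ, 0 < C → ∃ C' : ℝ, 0 < C' ∧
  ∀ᶠ m : ℕ in atTop, ∃ Gs : List (List (Bool × ℕ)),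
    Gs.length = ⌊C * Real.log m ^ 6⌋₊ ∧ Gs.flatten.Nodup ∧
    (∀ v ∈ Gs.flatten, v.2 < m) ∧ (Gs.flatten.length : ℝ) ≤ C' * Real.log m ^ 9 ∧
    Gs.flatten.IsChain (adjV A) ∧
    (∃ u w, Gs.flatten.head? = some u ∧ Gs.flatten.getLast? = some w ∧ adjV A w u) ∧
    ∀ Γ ∈ Gs, ∀ a < m, ∀ b < m, Absorbs A Γ a b

open scoped Classical in
/-- [Mrg] merging with the help of a reservoir (deterministic) -/
def Stmt_Mrg : Prop := ∀ A : ℕ → ℕ → Prop, (∀ i j, A i j → A j i) →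
  ∀ (m : ℕ) (Gs : List (List (Bool × ℕ))), Gs.flatten.Nodup →
  (∀ v ∈ Gs.flatten, v.2 < m) → Gs.flatten.IsChain (adjV A) →
  (∃ u w, Gs.flatten.head? = some u ∧ Gs.flatten.getLast? = some w ∧ adjV A w u) →
  (∀ Γ ∈ Gs, ∀ a < m, ∀ b < m, Absorbs A Γ a b) →
  ∃ U V : Finset ℕ, U ⊆ range m ∧ V ⊆ range m ∧ U.card = V.card ∧
    U.card ≤ Gs.flatten.length ∧
    ∀ M1 M2 : Mt A (range m \ U) (range m \ V), cyc M1.1 M2.1 ≤ Gs.length →
      ∃ N1 N2 : Mt A (range m) (range m),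
        (∀ x y, Equiv.Perm.SameCycle (N2.1.trans N1.1.symm) x y) ∧
        (∀ (x : ℕ) (hx : x ∈ range m \ U) (hx' : x ∈ range m),
          ((N1.1 ⟨x, hx'⟩ : range m) : ℕ) = ((M1.1 ⟨x, hx⟩ : (range m \ V : Finset ℕ)) : ℕ)) ∧
        Nat.card {x : (range m \ U : Finset ℕ) // ∃ hx' : (x : ℕ) ∈ range m,
          ((N2.1 ⟨x, hx'⟩ : range m) : ℕ) ≠ ((M2.1 x : (range m \ V : Finset ℕ)) : ℕ)} ≤
          Gs.length

/-- [Cmp] comparison of the number of prime circles with the number of pairs of perfect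
matchings of a slightly smaller graph -/
def Stmt_Cmp : Prop := ∃ C : ℝ, 0 < C ∧ ∀ᶠ m : ℕ in atTop, ∃ U V : Finset ℕ,
  U ⊆ range m ∧ V ⊆ range m ∧ U.card = V.card ∧ (U.card : ℝ) ≤ C * Real.log m ^ 9 ∧
  (Nat.card (Mt PA (range m \ U) (range m \ V)) : ℝ) ^ 2 ≤
    numPrimeCircles m * Real.exp (C * Real.log m ^ 7)

/-! ### The two bounds -/

/-- [Lo] lower bound -/
def Stmt_Lo : Prop := ∀ C : ℝ, 0 < C → ∃ C' : ℝ, ∀ᶠ m : ℕ in atTop,
  ∀ x : ℕ → ℝ, Bd C m x → (∀ i < m, wdeg m x i = 1) → 0 < numPrimeCircles m ∧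
    -2 * (m : ℝ) - 4 * ∑ i ∈ range m, Real.log (x i) - C' * Real.log m ^ 10 ≤
      Real.log (numPrimeCircles m)

/-- [Upm] upper bound for the number of perfect matchings -/
def Stmt_Upm : Prop := ∀ C : ℝ, 0 < C → ∃ C' : ℝ, ∀ᶠ m : ℕ in atTop,
  ∀ x : ℕ → ℝ, Bd C m x → (∀ i < m, wdeg m x i = 1) →
    (Nat.card (Mt PA (range m) (range m)) : ℝ) ≤
      Real.exp (-(m : ℝ) - 2 * ∑ i ∈ range m, Real.log (x i) + C' * Real.log m ^ 2)

/-- [Prs] prime circles are pairs of perfect matchings -/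
def Stmt_Prs : Prop := ∀ m : ℕ, 2 ≤ m →
  numPrimeCircles m ≤ Nat.card (Mt PA (range m) (range m)) ^ 2

/-- [Sc] from the symmetric weights to the numbers `1, …, 2m` -/
def Stmt_Sc : Prop := ∀ (m : ℕ) (x : ℕ → ℝ), (∀ i < m, 0 < x i) → (∀ i < m, wdeg m x i = 1) →
  (∀ a ∈ Icc 1 (2 * m), 0 < x ((a - 1) / 2) ∧
    x ((a - 1) / 2) * ∑ b ∈ (Icc 1 (2 * m)).filter (fun b => b ≠ a ∧ (a + b).Prime),
      x ((b - 1) / 2) = 1) ∧
  ∑ a ∈ Icc 1 (2 * m), Real.log (x ((a - 1) / 2)) = 2 * ∑ i ∈ range m, Real.log (x i)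

/-- [Nm] the number of perfect matchings as a number of permutations -/
def Stmt_Nm : Prop := ∀ m : ℕ, Nat.card (Mt PA (range m) (range m)) =
  Nat.card {σ : Equiv.Perm (Fin m) // ∀ i : Fin m, (2 * ((i : ℕ) + (σ i : ℕ)) + 3).Prime}

end Pool.Agent.PCZ
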