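import Mathlib
import Pool.Agent.PCZ.Stmts
import Pool.Agent.PCZ.Ent

/-!
# Final assembly
-/

set_option autoImplicit false

namespace Pool.Agent.PCZ
open Finset Filter Pool.Agent.PC Pool.Agent.PCX Pool.Agent.PrimeCircle

/-- `w` is a scaling of the prime sum graph on `{1, …, 2m}` -/
def IsScaling (m : ℕ) (w : ℕ → ℝ) : Prop :=
  ∀ a ∈ Icc 1 (2 * m), 0 < w a ∧
    w a * ∑ b ∈ (Icc 1 (2 * m)).filter (fun b => b ≠ a ∧ (a + b).Prime), w b = 1

def Stmt_Fin : Prop := ∃ C : ℝ, ∀ᶠ m : ℕ in atTop, ∃ H : ℝ, IsGreatest (Entropies m) H ∧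
  (∃ w, IsScaling m w) ∧
  (∀ w, IsScaling m w → ∑ a ∈ Icc 1 (2 * m), Real.log (w a) = -H) ∧
  0 < numPrimeCircles m ∧
  |Real.log (numPrimeCircles m) - (2 * H - 2 * m)| ≤ C * Real.log m ^ 10

theorem main_Fin (hE : Stmt_Exi) (hU : Stmt_Uni) (hL : Stmt_Lo) (hM : Stmt_Upm) (hP : Stmt_Prs)
    (hS : Stmt_Sc) : Stmt_Fin := by
  classical
  obtain ⟨C, hC, hE⟩ := hE
  obtain ⟨C1, hL⟩ := hL C hC
  obtain ⟨C2, hM⟩ := hM C hC
  refine ⟨|C1| + 2 * |C2|, ?_⟩
  have hlog : Tendsto (fun m : ℕ => Real.log m) atTop atTop :=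
    Real.tendsto_log_atTop.comp tendsto_natCast_atTop_atTop
  filter_upwards [hE, hL, hM, eventually_ge_atTop 2, hlog.eventually_ge_atTop 1]
    with m hE hL hM hm hL1
  obtain ⟨x, hx, hx1⟩ := hE
  obtain ⟨hNpos, hlow⟩ := hL x hx hx1
  have hup := hM x hx hx1
  have hm0 : (0 : ℝ) < m := by positivity
  have hρ : 0 < √(Real.log m / m) := Real.sqrt_pos.2 (by positivity)
  have hxpos : ∀ i < m, 0 < x i := fun i hi => lt_of_lt_of_le (by positivity) (hx i hi).1
  obtain ⟨hs1, hs2⟩ := hS m x hxpos hx1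
  have hw0 : IsScaling m (fun a => x ((a - 1) / 2)) := hs1
  have hPN := hP m hm
  set P : ℝ := (Nat.card (Mt PA (range m) (range m)) : ℝ) with hPdef
  have hNR : (0 : ℝ) < numPrimeCircles m := by exact_mod_cast hNpos
  have hNP : (numPrimeCircles m : ℝ) ≤ P ^ 2 := by rw [hPdef]; exact_mod_cast hPN
  have hP0 : 0 < P := by
    rcases (show (0 : ℝ) ≤ P from Nat.cast_nonneg _).eq_or_lt with h | h
    · rw [← h] at hNP
      norm_num at hNP
      linarith
    · exact h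
  have hlogP : Real.log (numPrimeCircles m) ≤ 2 * Real.log P := by
    have := Real.log_le_log hNR hNP
    rwa [Real.log_pow, Nat.cast_ofNat] at this
  have hPup : Real.log P ≤ -(m : ℝ) - 2 * ∑ i ∈ range m, Real.log (x i) + C2 * Real.log m ^ 2 := by
    have := Real.log_le_log hP0 hup
    rwa [Real.log_exp] at this
  have hpp : Real.log m ^ 2 ≤ Real.log m ^ 10 := pow_le_pow_right₀ hL1 (by norm_num)
  have h10 : 0 ≤ Real.log m ^ 10 := by positivity
  have e2 : C2 * Real.log m ^ 2 ≤ |C2| * Real.log m ^ 10 := by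
    calc C2 * Real.log m ^ 2 ≤ |C2| * Real.log m ^ 2 := by gcongr; exact le_abs_self _
      _ ≤ _ := by gcongr
  have e1 : C1 * Real.log m ^ 10 ≤ |C1| * Real.log m ^ 10 := by
    gcongr; exact le_abs_self _
  have e1' : 0 ≤ |C1| * Real.log m ^ 10 := by positivity
  have e2' : 0 ≤ |C2| * Real.log m ^ 10 := by positivity
  refine ⟨-2 * ∑ i ∈ range m, Real.log (x i), Ent_greatest m x hxpos hx1, ⟨_, hw0⟩, ?_, hNpos, ?_⟩
  · intro w hw
    have key : ∀ w : ℕ → ℝ, IsScaling m w → ∀ a ∈ Icc 1 (2 * m), 0 < w a ∧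
        w a * (∑ b ∈ Icc 1 (2 * m), @ite ℝ (b ≠ a ∧ (a + b).Prime)
          (Classical.propDecidable _) (w b) 0) = 1 := by
      intro w hw a ha
      refine ⟨(hw a ha).1, ?_⟩
      refine Eq.trans ?_ (hw a ha).2
      congr 1
      rw [Finset.sum_filter]
      refine Finset.sum_congr rfl fun b _ => ?_
      by_cases h : b ≠ a ∧ (a + b).Prime
      · rw [if_pos h, if_pos h]
      · rw [if_neg h, if_neg h]
    rw [hU (Icc 1 (2 * m)) (fun a b => b ≠ a ∧ (a + b).Prime)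
      (fun a b h => ⟨h.1.symm, by rw [add_comm]; exact h.2⟩) w _ (key w hw) (key _ hw0), hs2]
    ring
  · rw [abs_le]
    constructor <;> linarith

end Pool.Agent.PCZ
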