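import Pool.Agent.PCZ.Stmts
import Pool.Agent.PC.Basic

/-!
# [Apr] a priori bounds for approximate scalings
-/

set_option autoImplicit false

namespace Pool.Agent.PCZ

open Finset Filter Pool.Agent.PC Pool.Agent.PCX Pool.Agent.PrimeCircle

open scoped Classical in
/-- unnormalised weighted degree -/
private noncomputable def aprS (A : ℕ → ℕ → Prop) (m : ℕ) (ξ : ℕ → ℝ) (i : ℕ) : ℝ :=
  ∑ j ∈ range m, if A i j then ξ j else 0

open scoped Classical in
/-- Step 1: the second moment is large. -/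
private theorem apr_one {A : ℕ → ℕ → Prop} (h : PG A) {m : ℕ} {ξ : ℕ → ℝ} {e Cg : ℝ}
    (hm : 0 < m) (hCg : 0 < Cg) (he5 : e ≤ 1 / 5) (hd : 40 ≤ dd m)
    (hdeg : ∀ i < m, (1 - e) * dd m ≤ (dX A (range m) i : ℝ) ∧
      (dX A (range m) i : ℝ) ≤ (1 + e) * dd m)
    (hcod : ∀ i < m, ∑ k ∈ (range m).erase i, (codeg A m i k : ℝ) ^ 2 ≤ Cg * dd m ^ 4 / m)
    (hpos : ∀ i < m, 0 < ξ i)
    (hlo : ∀ i < m, (1 - e) * dd m ≤ ξ i * aprS A m ξ i)
    (hup : ∀ i < m, ξ i * aprS A m ξ i ≤ (1 + e) * dd m)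
    {a : ℕ} (ha : a < m) :
    m * ξ a ^ 2 / (400 * Cg) ≤ ∑ k ∈ range m, ξ k ^ 2 := by
  have hm0 : (0 : ℝ) < m := by exact_mod_cast hm
  set d := dd m with hdd
  have hd0 : 0 < d := by linarith
  set M := ξ a with hM
  have hM0 : 0 < M := hpos a ha
  set N := (range m).filter (fun j => A a j) with hN
  set J := N.filter (fun j => ξ j ≤ 4 / M) with hJ
  have hNr : ∀ j ∈ N, j < m := fun j hj => mem_range.1 (mem_filter.1 hj).1
  have hNc : (N.card : ℝ) = (dX A (range m) a : ℝ) := by rw [dX_eq h]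
  have hsa : aprS A m ξ a = ∑ j ∈ N, ξ j := by
    unfold aprS
    rw [hN, sum_filter]
  -- few neighbours with large weight
  have hbig : ((N.filter (fun j => ¬ ξ j ≤ 4 / M)).card : ℝ) * (4 / M) ≤ aprS A m ξ a := by
    rw [hsa, ← nsmul_eq_mul]
    calc (N.filter (fun j => ¬ ξ j ≤ 4 / M)).card • (4 / M)
        ≤ ∑ j ∈ N.filter (fun j => ¬ ξ j ≤ 4 / M), ξ j :=
          card_nsmul_le_sum _ _ _ fun j hj => (not_le.1 (mem_filter.1 hj).2).le
      _ ≤ ∑ j ∈ N, ξ j := sum_le_sum_of_subset_of_nonneg (filter_subset _ _)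
          fun j hj _ => (hpos j (hNr j hj)).le
  have hbig2 : ((N.filter (fun j => ¬ ξ j ≤ 4 / M)).card : ℝ) ≤ (1 + e) * d / 4 := by
    have h1 := hup a ha
    have h2 : M * (((N.filter (fun j => ¬ ξ j ≤ 4 / M)).card : ℝ) * (4 / M)) ≤
        M * aprS A m ξ a := mul_le_mul_of_nonneg_left hbig hM0.le
    have h3 : M * (((N.filter (fun j => ¬ ξ j ≤ 4 / M)).card : ℝ) * (4 / M)) =
        4 * ((N.filter (fun j => ¬ ξ j ≤ 4 / M)).card : ℝ) := by
      field_simp
    linarith
  have hJc : d / 2 ≤ (J.card : ℝ) := by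
    have h1 := card_filter_add_card_filter_not (s := N) (fun j => ξ j ≤ 4 / M)
    have h2 : (J.card : ℝ) + ((N.filter (fun j => ¬ ξ j ≤ 4 / M)).card : ℝ) = N.card := by
      exact_mod_cast h1
    have h3 := (hdeg a ha).1
    have h4 : e * d ≤ 1 / 5 * d := mul_le_mul_of_nonneg_right he5 hd0.le
    rw [← hNc] at h3
    linarith
  -- the neighbours have large weighted degrees
  have hSJ : ∀ j ∈ J, d * M / 5 ≤ aprS A m ξ j := by
    intro j hj
    have hjN := (mem_filter.1 hj).1
    have hjm := hNr j hjN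
    have h1 : ξ j ≤ 4 / M := (mem_filter.1 hj).2
    have h2 := hlo j hjm
    have hS0 : 0 ≤ aprS A m ξ j := by
      unfold aprS
      refine sum_nonneg fun k hk => ?_
      split_ifs
      · exact (hpos k (mem_range.1 hk)).le
      · exact le_rfl
    have h3 : (1 - e) * d ≤ 4 / M * aprS A m ξ j :=
      h2.trans (mul_le_mul_of_nonneg_right h1 hS0)
    have h4 : 4 / 5 * d ≤ (1 - e) * d := mul_le_mul_of_nonneg_right (by linarith) hd0.le
    have h5 : 4 / 5 * d ≤ 4 / M * aprS A m ξ j := h4.trans h3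
    have h6 : 4 / M * aprS A m ξ j = 4 * aprS A m ξ j / M := by ring
    rw [h6, le_div_iff₀ hM0] at h5
    linarith
  have hlow : d ^ 2 * M / 10 ≤ ∑ j ∈ J, aprS A m ξ j := by
    have h1 : (J.card : ℝ) * (d * M / 5) ≤ ∑ j ∈ J, aprS A m ξ j := by
      rw [← nsmul_eq_mul]
      exact card_nsmul_le_sum _ _ _ hSJ
    have h2 : d / 2 * (d * M / 5) ≤ (J.card : ℝ) * (d * M / 5) :=
      mul_le_mul_of_nonneg_right hJc (by positivity)
    have h3 : d / 2 * (d * M / 5) = d ^ 2 * M / 10 := by ring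
    linarith
  -- upper bound
  have hhigh : ∑ j ∈ J, aprS A m ξ j ≤ ∑ k ∈ range m, ξ k * (codeg A m a k : ℝ) := by
    unfold aprS
    rw [sum_comm]
    refine sum_le_sum fun k hk => ?_
    rw [← sum_filter, sum_const, nsmul_eq_mul, mul_comm]
    refine mul_le_mul_of_nonneg_left ?_ (hpos k (mem_range.1 hk)).le
    have : (J.filter (fun j => A j k)).card ≤ codeg A m a k := by
      unfold codeg
      refine card_le_card ?_
      intro j hj
      rw [mem_filter, hJ, mem_filter, hN, mem_filter] at hj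
      rw [mem_filter]
      exact ⟨hj.1.1.1, hj.1.1.2, h.symm _ _ hj.2⟩
    exact_mod_cast this
  have hsplit : ∑ k ∈ range m, ξ k * (codeg A m a k : ℝ) =
      ξ a * (codeg A m a a : ℝ) + ∑ k ∈ (range m).erase a, ξ k * (codeg A m a k : ℝ) :=
    (add_sum_erase _ _ (mem_range.2 ha)).symm
  have hdiag : ξ a * (codeg A m a a : ℝ) ≤ 2 * d * M := by
    rw [codeg_self h]
    have h1 := (hdeg a ha).2
    have h2 : e * d ≤ 1 / 5 * d := mul_le_mul_of_nonneg_right he5 hd0.le
    have h3 : (dX A (range m) a : ℝ) ≤ 2 * d := by linarith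
    calc ξ a * (dX A (range m) a : ℝ) ≤ M * (2 * d) := mul_le_mul_of_nonneg_left h3 hM0.le
      _ = 2 * d * M := by ring
  set Q := ∑ k ∈ range m, ξ k ^ 2 with hQ
  have hQ0 : 0 ≤ Q := sum_nonneg fun _ _ => sq_nonneg _
  have hoff : ∑ k ∈ (range m).erase a, ξ k * (codeg A m a k : ℝ) ≤
      Real.sqrt (Q * (Cg * d ^ 4 / m)) := by
    apply Real.le_sqrt_of_sq_le
    have h1 := sum_mul_sq_le_sq_mul_sq ((range m).erase a) (fun k => ξ k)
      (fun k => (codeg A m a k : ℝ))
    refine h1.trans ?_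
    refine mul_le_mul ?_ (hcod a ha) (sum_nonneg fun _ _ => sq_nonneg _) hQ0
    exact sum_le_sum_of_subset_of_nonneg (erase_subset _ _) fun _ _ _ => sq_nonneg _
  have hmain : d ^ 2 * M / 20 ≤ Real.sqrt (Q * (Cg * d ^ 4 / m)) := by
    have h1 : d ^ 2 * M / 10 ≤ 2 * d * M + Real.sqrt (Q * (Cg * d ^ 4 / m)) := by
      rw [hsplit] at hhigh
      linarith
    have h2 : 40 * (d * M) ≤ d * (d * M) := mul_le_mul_of_nonneg_right hd (by positivity)
    have h3 : d * (d * M) = d ^ 2 * M := by ring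
    linarith
  have hsq : (d ^ 2 * M / 20) ^ 2 ≤ Q * (Cg * d ^ 4 / m) := by
    have h1 := pow_le_pow_left₀ (by positivity) hmain 2
    rwa [Real.sq_sqrt (by positivity)] at h1
  rw [div_le_iff₀ (by positivity)]
  have h4 : (0 : ℝ) < d ^ 4 / (400 * m) := by positivity
  have h5 : (m * M ^ 2) * (d ^ 4 / (400 * m)) ≤ (Q * (400 * Cg)) * (d ^ 4 / (400 * m)) := by
    have e1 : (m * M ^ 2) * (d ^ 4 / (400 * m)) = (d ^ 2 * M / 20) ^ 2 := by
      field_simp
      ring
    have e2 : (Q * (400 * Cg)) * (d ^ 4 / (400 * m)) = Q * (Cg * d ^ 4 / m) := by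
      field_simp
    rw [e1, e2]
    exact hsq
  exact le_of_mul_le_mul_right h5 h4

open scoped Classical in
/-- Step 2: growth of the set of large weights. -/
private theorem apr_next {A : ℕ → ℕ → Prop} (h : PG A) {m : ℕ} {ξ : ℕ → ℝ} {e c η M θ : ℝ}
    (hm : 4 ≤ m) (he0 : 0 < e) (he5 : e ≤ 1 / 5) (hd : 0 < dd m) (hc : 0 < c) (hec : e ≤ c / 16)
    (_hη0 : 0 < η) (hη : η ≤ 1 / 4) (hM : 0 < M) (hθ : 0 < θ)
    (hdeg : ∀ i < m, (dX A (range m) i : ℝ) ≤ (1 + e) * dd m)
    (hexp : ∀ X ⊆ range m, η * m ≤ (X.card : ℝ) → (X.card : ℝ) ≤ (1 - η) * m →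
      (X.card : ℝ) + c * m ≤
        (((range m).filter (fun j => c * dd m ≤ (dX A X j : ℝ))).card : ℝ))
    (hpos : ∀ i < m, 0 < ξ i)
    (hlo : ∀ i < m, (1 - e) * dd m ≤ ξ i * aprS A m ξ i)
    (hup : ∀ i < m, ξ i * aprS A m ξ i ≤ (1 + e) * dd m)
    (hbig : (1 + e) / (c * θ * M) < θ * M)
    (hX : η * m ≤ (((range m).filter (fun k => θ * M ≤ ξ k)).card : ℝ)) :
    (((range m).filter (fun k => θ * M ≤ ξ k)).card : ℝ) + c / 2 * m ≤
      (((range m).filter (fun k => θ * (c ^ 2 / 8) * M ≤ ξ k)).card : ℝ) := by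
  have hm0 : (0 : ℝ) < m := by exact_mod_cast (by omega : 0 < m)
  have hm4 : (4 : ℝ) ≤ m := by exact_mod_cast hm
  set d := dd m with hdd
  set X := (range m).filter (fun k => θ * M ≤ ξ k) with hXdef
  have hXs : X ⊆ range m := filter_subset _ _
  -- weights of the popular neighbours
  have hpop : ∀ X' ⊆ X, ∀ j ∈ (range m).filter (fun j => c * d ≤ (dX A X' j : ℝ)),
      ξ j ≤ (1 + e) / (c * θ * M) := by
    intro X' hX' j hj
    rw [mem_filter, mem_range] at hj
    obtain ⟨hjm, hj⟩ := hj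
    have h1 : c * d * (θ * M) ≤ aprS A m ξ j := by
      calc c * d * (θ * M) ≤ (dX A X' j : ℝ) * (θ * M) :=
            mul_le_mul_of_nonneg_right hj (by positivity)
        _ = ((X'.filter (fun i => A i j)).card : ℝ) * (θ * M) := by rfl
        _ ≤ ∑ i ∈ X'.filter (fun i => A i j), ξ i := by
            rw [← nsmul_eq_mul]
            exact card_nsmul_le_sum _ _ _ fun i hi =>
              (mem_filter.1 (hX' (mem_filter.1 hi).1)).2
        _ ≤ ∑ i ∈ (range m).filter (fun i => A j i), ξ i := by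
            refine sum_le_sum_of_subset_of_nonneg ?_ ?_
            · intro i hi
              rw [mem_filter] at hi ⊢
              exact ⟨hXs (hX' hi.1), h.symm _ _ hi.2⟩
            · intro i hi _
              exact (hpos i (mem_range.1 (mem_filter.1 hi).1)).le
        _ = aprS A m ξ j := by
            unfold aprS
            rw [sum_filter]
    have h2 := hup j hjm
    have h3 : ξ j * (c * d * (θ * M)) ≤ (1 + e) * d :=
      (mul_le_mul_of_nonneg_left h1 (hpos j hjm).le).trans h2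
    rw [le_div_iff₀ (by positivity)]
    have h4 : ξ j * (c * θ * M) * d ≤ (1 + e) * d := by
      calc ξ j * (c * θ * M) * d = ξ j * (c * d * (θ * M)) := by ring
        _ ≤ _ := h3
    exact le_of_mul_le_mul_right h4 hd
  have hpop2 : ∀ X' ⊆ X, ∀ j ∈ (range m).filter (fun j => c * d ≤ (dX A X' j : ℝ)), j ∉ X := by
    intro X' hX' j hj hjX
    have h1 := hpop X' hX' j hj
    have h2 := (mem_filter.1 hjX).2
    linarith
  -- the set is not too large
  have hXup : (X.card : ℝ) ≤ (1 - η) * m := by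
    by_contra hcon
    push Not at hcon
    have hη' : η * m ≤ 1 / 4 * m := mul_le_mul_of_nonneg_right hη hm0.le
    have h1 : 3 / 4 * (m : ℝ) ≤ X.card := by linarith
    have h2 : (m + 1) / 2 ≤ X.card := by
      have h3 : (((m + 1) / 2 : ℕ) : ℝ) ≤ ((m + 1 : ℕ) : ℝ) / 2 := Nat.cast_div_le
      have h4 : (((m + 1) / 2 : ℕ) : ℝ) ≤ (X.card : ℝ) := by
        push_cast at h3
        linarith
      exact_mod_cast h4
    obtain ⟨X', hX', hc'⟩ := exists_subset_card_eq h2
    have h3 : (((m + 1) / 2 : ℕ) : ℝ) ≤ ((m + 1 : ℕ) : ℝ) / 2 := Nat.cast_div_le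
    push_cast at h3
    have h4 : (m : ℝ) / 2 ≤ (((m + 1) / 2 : ℕ) : ℝ) := by
      have h5 : m ≤ 2 * ((m + 1) / 2) := by omega
      have h6 : (m : ℝ) ≤ 2 * (((m + 1) / 2 : ℕ) : ℝ) := by exact_mod_cast h5
      linarith
    rw [← hc'] at h3 h4
    have h5 := hexp X' (hX'.trans hXs) (by linarith) (by linarith)
    have hdis : Disjoint X' ((range m).filter (fun j => c * d ≤ (dX A X' j : ℝ))) := by
      rw [disjoint_left]
      intro j hj hj'
      exact hpop2 X' hX' j hj' (hX' hj)
    have h6 : X'.card + ((range m).filter (fun j => c * d ≤ (dX A X' j : ℝ))).card ≤ m := by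
      rw [← card_union_of_disjoint hdis]
      calc _ ≤ (range m).card := card_le_card (union_subset (hX'.trans hXs) (filter_subset _ _))
        _ = m := card_range m
    have h7 : (X'.card : ℝ) + (((range m).filter (fun j => c * d ≤ (dX A X' j : ℝ))).card : ℝ) ≤
        m := by exact_mod_cast h6
    have h8 : 0 < c * m := by positivity
    linarith
  set Y := (range m).filter (fun j => c * d ≤ (dX A X j : ℝ)) with hY
  have hYs : Y ⊆ range m := filter_subset _ _
  have hYc := hexp X hXs hX hXup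
  set X2 := (range m).filter (fun k => θ * (c ^ 2 / 8) * M ≤ ξ k) with hX2
  have hX2s : X2 ⊆ range m := filter_subset _ _
  have hYm : (Y.card : ℝ) ≤ m := by
    have := card_le_card hYs
    rw [card_range] at this
    exact_mod_cast this
  -- double counting
  have hA : (1 - e) * d * Y.card ≤ ∑ j ∈ Y, ξ j * aprS A m ξ j := by
    rw [mul_comm, ← nsmul_eq_mul]
    exact card_nsmul_le_sum _ _ _ fun j hj => hlo j (mem_range.1 (hYs hj))
  have hB : ∑ j ∈ Y, ξ j * aprS A m ξ j =
      ∑ k ∈ range m, ξ k * ∑ j ∈ Y, if A j k then ξ j else 0 := by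
    unfold aprS
    simp only [mul_sum]
    rw [sum_comm]
    refine sum_congr rfl fun k _ => sum_congr rfl fun j _ => ?_
    split_ifs
    · ring
    · simp
  have hC1 : ∑ k ∈ X2, ξ k * (∑ j ∈ Y, if A j k then ξ j else 0) ≤ (1 + e) * d * X2.card := by
    rw [mul_comm ((1 + e) * d), ← nsmul_eq_mul]
    refine sum_le_card_nsmul _ _ _ fun k hk => ?_
    have hkm := mem_range.1 (hX2s hk)
    refine le_trans ?_ (hup k hkm)
    refine mul_le_mul_of_nonneg_left ?_ (hpos k hkm).le
    unfold aprS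
    rw [← sum_filter, ← sum_filter]
    refine sum_le_sum_of_subset_of_nonneg ?_ ?_
    · intro j hj
      rw [mem_filter] at hj ⊢
      exact ⟨hYs hj.1, h.symm _ _ hj.2⟩
    · intro j hj _
      exact (hpos j (mem_range.1 (mem_filter.1 hj).1)).le
  have hC2 : ∑ k ∈ range m \ X2, ξ k * (∑ j ∈ Y, if A j k then ξ j else 0) ≤
      c / 4 * ((1 + e) * d * Y.card) := by
    have h1 : ∀ k ∈ range m \ X2, ξ k * (∑ j ∈ Y, if A j k then ξ j else 0) ≤
        c / 4 * ∑ j ∈ Y, (if A j k then (1 : ℝ) else 0) := by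
      intro k hk
      rw [Finset.mem_sdiff, mem_range] at hk
      obtain ⟨hkm, hk2⟩ := hk
      have h2 : ξ k ≤ θ * (c ^ 2 / 8) * M := by
        by_contra hcon
        exact hk2 (mem_filter.2 ⟨mem_range.2 hkm, (not_le.1 hcon).le⟩)
      have h3 : (∑ j ∈ Y, if A j k then ξ j else 0) ≤
          (1 + e) / (c * θ * M) * ∑ j ∈ Y, (if A j k then (1 : ℝ) else 0) := by
        rw [mul_sum]
        refine sum_le_sum fun j hj => ?_
        split_ifs
        · rw [mul_one]
          exact hpop X Subset.rfl j hj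
        · simp
      have h4 : 0 ≤ ∑ j ∈ Y, (if A j k then (1 : ℝ) else 0) :=
        sum_nonneg fun j _ => by split_ifs <;> norm_num
      calc ξ k * (∑ j ∈ Y, if A j k then ξ j else 0)
          ≤ (θ * (c ^ 2 / 8) * M) *
            ((1 + e) / (c * θ * M) * ∑ j ∈ Y, (if A j k then (1 : ℝ) else 0)) := by
            refine mul_le_mul h2 h3 ?_ (by positivity)
            refine sum_nonneg fun j hj => ?_
            split_ifs
            · exact (hpos j (mem_range.1 (hYs hj))).le
            · exact le_rfl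
        _ = (c * (1 + e) / 8) * ∑ j ∈ Y, (if A j k then (1 : ℝ) else 0) := by
            field_simp
        _ ≤ c / 4 * ∑ j ∈ Y, (if A j k then (1 : ℝ) else 0) := by
            refine mul_le_mul_of_nonneg_right ?_ h4
            nlinarith
    refine (sum_le_sum h1).trans ?_
    rw [← mul_sum]
    refine mul_le_mul_of_nonneg_left ?_ (by positivity)
    calc ∑ k ∈ range m \ X2, ∑ j ∈ Y, (if A j k then (1 : ℝ) else 0)
        ≤ ∑ k ∈ range m, ∑ j ∈ Y, (if A j k then (1 : ℝ) else 0) :=
          sum_le_sum_of_subset_of_nonneg sdiff_subset fun k _ _ =>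
            sum_nonneg fun j _ => by split_ifs <;> norm_num
      _ = ∑ j ∈ Y, ∑ k ∈ range m, (if A j k then (1 : ℝ) else 0) := sum_comm
      _ ≤ ∑ j ∈ Y, (1 + e) * d := by
          refine sum_le_sum fun j hj => ?_
          have h5 := hdeg j (mem_range.1 (hYs hj))
          rw [dX_eq h] at h5
          rw [← sum_filter, sum_const, nsmul_eq_mul, mul_one]
          exact h5
      _ = (1 + e) * d * Y.card := by
          rw [sum_const, nsmul_eq_mul, mul_comm]
  have hD : (1 - e) * d * Y.card ≤ (1 + e) * d * X2.card + c / 4 * ((1 + e) * d * Y.card) := by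
    refine hA.trans ?_
    rw [hB, ← sum_sdiff hX2s]
    linarith
  have hE : (1 - e) * (Y.card : ℝ) ≤ (1 + e) * X2.card + c / 4 * ((1 + e) * Y.card) := by
    have h1 : ((1 - e) * (Y.card : ℝ)) * d ≤
        ((1 + e) * X2.card + c / 4 * ((1 + e) * Y.card)) * d := by
      calc ((1 - e) * (Y.card : ℝ)) * d = (1 - e) * d * Y.card := by ring
        _ ≤ _ := hD
        _ = _ := by ring
    exact le_of_mul_le_mul_right h1 hd
  have hY0 : (0 : ℝ) ≤ Y.card := Nat.cast_nonneg _
  have hF : (1 + e) * ((Y.card : ℝ) - 2 * e * m - c / 4 * m) ≤ (1 + e) * X2.card := by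
    have h1 : e * (Y.card : ℝ) ≤ e * m := mul_le_mul_of_nonneg_left hYm he0.le
    have h2 : c * (1 + e) * (Y.card : ℝ) ≤ c * (1 + e) * m :=
      mul_le_mul_of_nonneg_left hYm (by positivity)
    have h3 : 0 ≤ e * (e * m) := by positivity
    nlinarith
  have hG : (Y.card : ℝ) - 2 * e * m - c / 4 * m ≤ X2.card :=
    le_of_mul_le_mul_left hF (by linarith)
  have hH : e * m ≤ c / 16 * m := mul_le_mul_of_nonneg_right hec hm0.le
  have hcm : 0 < c * m := by positivity
  linarith

open scoped Classical in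
theorem main_Apr : Stmt_Apr := by
  intro A h
  obtain ⟨Cg, hCg, hcod⟩ := h.codeg
  obtain ⟨η, hηdef⟩ : ∃ η : ℝ, η = min (1 / (800 * Cg)) (1 / 4) := ⟨_, rfl⟩
  have hη0 : 0 < η := by rw [hηdef]; positivity
  have hη4 : η ≤ 1 / 4 := by rw [hηdef]; exact min_le_right _ _
  have hηC : η ≤ 1 / (800 * Cg) := by rw [hηdef]; exact min_le_left _ _
  obtain ⟨c0, hc0, hexp0⟩ := h.exp η hη0
  obtain ⟨c, hc, hc1, hcc0⟩ : ∃ c : ℝ, 0 < c ∧ c ≤ 1 ∧ c ≤ c0 :=
    ⟨min c0 1, by positivity, min_le_right _ _, min_le_left _ _⟩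
  obtain ⟨e, he0, he5, hec⟩ : ∃ e : ℝ, 0 < e ∧ e ≤ 1 / 5 ∧ e ≤ c / 16 :=
    ⟨min (1 / 5) (c / 16), by positivity, min_le_left _ _, min_le_right _ _⟩
  obtain ⟨n, hn⟩ : ∃ n : ℕ, 2 / c ≤ (n : ℝ) := exists_nat_ge _
  obtain ⟨t0, ht0def⟩ : ∃ t0 : ℝ, t0 = Real.sqrt (1 / (800 * Cg)) := ⟨_, rfl⟩
  have ht0 : 0 < t0 := by rw [ht0def]; exact Real.sqrt_pos.2 (by positivity)
  have ht02 : t0 ^ 2 = 1 / (800 * Cg) := by rw [ht0def]; exact Real.sq_sqrt (by positivity)
  obtain ⟨th, hthdef⟩ : ∃ th : ℕ → ℝ, th = fun i => t0 * (c ^ 2 / 8) ^ i := ⟨_, rfl⟩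
  have hth0 : ∀ i, 0 < th i := fun i => by rw [hthdef]; positivity
  have hq1 : c ^ 2 / 8 ≤ 1 := by nlinarith
  have hthn : ∀ i ≤ n, th n ≤ th i := by
    intro i hi
    rw [hthdef]
    refine mul_le_mul_of_nonneg_left ?_ ht0.le
    exact pow_le_pow_of_le_one (by positivity) hq1 hi
  obtain ⟨Λ0, hΛ0def⟩ : ∃ Λ0 : ℝ, Λ0 = 2 / (c * th n) := ⟨_, rfl⟩
  have hthn0 := hth0 n
  have hΛ0 : 0 < Λ0 := by rw [hΛ0def]; positivity
  refine ⟨max 1 (2 * Λ0), e, le_max_left _ _, he0, by linarith, ?_⟩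
  have hdd : ∀ᶠ m : ℕ in atTop, 40 ≤ dd m := by
    filter_upwards [sqrt_le_dd, eventually_ge_atTop 1600] with m h1 h2
    refine le_trans ?_ h1
    apply Real.le_sqrt_of_sq_le
    have : (1600 : ℝ) ≤ m := by exact_mod_cast h2
    linarith
  filter_upwards [hcod, hexp0, h.deg e he0, hdd, eventually_ge_atTop 4] with m hcod hexp0 hdeg hd40
    hm4 ξ hpos hS
  have hd : 0 < dd m := by linarith
  have hm0 : (0 : ℝ) < m := by exact_mod_cast (by omega : 0 < m)
  have hSS : ∀ i, SS A m ξ i = aprS A m ξ i / dd m := fun i => rfl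
  have hlo : ∀ i < m, (1 - e) * dd m ≤ ξ i * aprS A m ξ i := by
    intro i hi
    have h1 := (hS i hi).1
    rw [hSS, ← mul_div_assoc, le_div_iff₀ hd] at h1
    exact h1
  have hup : ∀ i < m, ξ i * aprS A m ξ i ≤ (1 + e) * dd m := by
    intro i hi
    have h1 := (hS i hi).2
    rw [hSS, ← mul_div_assoc, div_le_iff₀ hd] at h1
    exact h1
  have hexp : ∀ X ⊆ range m, η * m ≤ (X.card : ℝ) → (X.card : ℝ) ≤ (1 - η) * m →
      (X.card : ℝ) + c * m ≤
        (((range m).filter (fun j => c * dd m ≤ (dX A X j : ℝ))).card : ℝ) := by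
    intro X hX h1 h2
    have h3 := hexp0 X hX h1 h2
    have h4 : (((range m).filter (fun j => c0 * dd m ≤ (dX A X j : ℝ))).card : ℝ) ≤
        (((range m).filter (fun j => c * dd m ≤ (dX A X j : ℝ))).card : ℝ) := by
      have : ((range m).filter (fun j => c0 * dd m ≤ (dX A X j : ℝ))).card ≤
          ((range m).filter (fun j => c * dd m ≤ (dX A X j : ℝ))).card := by
        refine card_le_card ?_
        intro j hj
        rw [mem_filter] at hj ⊢
        exact ⟨hj.1, (mul_le_mul_of_nonneg_right hcc0 hd.le).trans hj.2⟩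
      exact_mod_cast this
    have h5 : c * m ≤ c0 * m := mul_le_mul_of_nonneg_right hcc0 hm0.le
    linarith
  -- the maximum
  obtain ⟨a, ha, hmax⟩ := exists_max_image (range m) ξ ⟨0, mem_range.2 (by omega)⟩
  have ham := mem_range.1 ha
  have hmax' : ∀ i < m, ξ i ≤ ξ a := fun i hi => hmax i (mem_range.2 hi)
  have hM0 : 0 < ξ a := hpos a ham
  have hML : ξ a ≤ Λ0 := by
    by_contra hcon
    push Not at hcon
    have hQ := apr_one h (by omega) hCg he5 hd40 hdeg hcod hpos hlo hup ham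
    have hX0 : η * m ≤ (((range m).filter (fun k => th 0 * ξ a ≤ ξ k)).card : ℝ) := by
      have hth00 : th 0 = t0 := by rw [hthdef]; simp
      rw [hth00]
      have h1 : ∑ k ∈ range m, ξ k ^ 2 ≤
          (((range m).filter (fun k => t0 * ξ a ≤ ξ k)).card : ℝ) * ξ a ^ 2 +
            m * (t0 * ξ a) ^ 2 := by
        rw [← sum_filter_add_sum_filter_not (range m) (fun k => t0 * ξ a ≤ ξ k)]
        refine add_le_add ?_ ?_
        · rw [← nsmul_eq_mul]
          refine sum_le_card_nsmul _ _ _ fun k hk => ?_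
          have hkm := mem_range.1 (mem_filter.1 hk).1
          exact pow_le_pow_left₀ (hpos k hkm).le (hmax' k hkm) 2
        · calc ∑ k ∈ (range m).filter (fun k => ¬ t0 * ξ a ≤ ξ k), ξ k ^ 2
              ≤ ((range m).filter (fun k => ¬ t0 * ξ a ≤ ξ k)).card • (t0 * ξ a) ^ 2 := by
                refine sum_le_card_nsmul _ _ _ fun k hk => ?_
                have hkm := mem_range.1 (mem_filter.1 hk).1
                exact pow_le_pow_left₀ (hpos k hkm).le (not_le.1 (mem_filter.1 hk).2).le 2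
            _ ≤ m * (t0 * ξ a) ^ 2 := by
                rw [nsmul_eq_mul]
                refine mul_le_mul_of_nonneg_right ?_ (by positivity)
                have := card_filter_le (range m) (fun k => ¬ t0 * ξ a ≤ ξ k)
                rw [card_range] at this
                exact_mod_cast this
      have h2 : (t0 * ξ a) ^ 2 = 1 / (800 * Cg) * ξ a ^ 2 := by rw [mul_pow, ht02]
      rw [h2] at h1
      have h3 : (m : ℝ) * ξ a ^ 2 / (400 * Cg) = 2 * (m * (1 / (800 * Cg) * ξ a ^ 2)) := by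
        field_simp
        ring
      rw [h3] at hQ
      have h4 : (m * (1 / (800 * Cg))) * ξ a ^ 2 ≤
          (((range m).filter (fun k => t0 * ξ a ≤ ξ k)).card : ℝ) * ξ a ^ 2 := by
        have : (m * (1 / (800 * Cg))) * ξ a ^ 2 = m * (1 / (800 * Cg) * ξ a ^ 2) := by ring
        linarith
      have h5 := le_of_mul_le_mul_right h4 (by positivity)
      calc η * m ≤ 1 / (800 * Cg) * m := mul_le_mul_of_nonneg_right hηC hm0.le
        _ = m * (1 / (800 * Cg)) := by ring
        _ ≤ _ := h5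
    have hind : ∀ i ≤ n, (η + i * (c / 2)) * m ≤
        (((range m).filter (fun k => th i * ξ a ≤ ξ k)).card : ℝ) := by
      intro i
      induction i with
      | zero =>
        intro _
        simpa using hX0
      | succ i ih =>
        intro hi
        have h1 := ih (by omega)
        have hti := hth0 i
        have hle := hthn i (by omega)
        have hcM : 2 < c * th n * ξ a := by
          rw [hΛ0def, div_lt_iff₀ (by positivity)] at hcon
          linarith
        have hbig : (1 + e) / (c * th i * ξ a) < th i * ξ a := by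
          rw [div_lt_iff₀ (by positivity)]
          have h2 : c * th n * ξ a ≤ c * th i * ξ a := by gcongr
          have h3 : 2 < th i * ξ a := by
            have : c * th i * ξ a ≤ 1 * (th i * ξ a) := by
              rw [mul_assoc]
              exact mul_le_mul_of_nonneg_right hc1 (by positivity)
            linarith
          nlinarith
        have h2 := apr_next h hm4 he0 he5 hd hc hec hη0 hη4 hM0 hti (fun i hi => (hdeg i hi).2)
          hexp hpos hlo hup hbig (by
            refine le_trans ?_ h1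
            have : 0 ≤ (i : ℝ) * (c / 2) * m := by positivity
            linarith)
        have h3 : th (i + 1) = th i * (c ^ 2 / 8) := by
          rw [hthdef]
          simp only [pow_succ]
          ring
        rw [h3]
        push_cast
        linarith
    have hfin := hind n le_rfl
    have h1 : (((range m).filter (fun k => th n * ξ a ≤ ξ k)).card : ℝ) ≤ m := by
      have := card_filter_le (range m) (fun k => th n * ξ a ≤ ξ k)
      rw [card_range] at this
      exact_mod_cast this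
    have h2 : 1 ≤ (n : ℝ) * (c / 2) := by
      rw [div_le_iff₀ hc] at hn
      linarith
    have h3 : 1 * (m : ℝ) < (η + n * (c / 2)) * m :=
      mul_lt_mul_of_pos_right (by linarith) hm0
    linarith
  intro i hi
  have hxi := hpos i hi
  refine ⟨?_, ((hmax' i hi).trans hML).trans ?_⟩
  · have h1 : aprS A m ξ i ≤ Λ0 * ((1 + e) * dd m) := by
      unfold aprS
      rw [← sum_filter]
      have h2 := (hdeg i hi).2
      rw [dX_eq h] at h2
      calc ∑ j ∈ (range m).filter (fun j => A i j), ξ j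
          ≤ ((range m).filter (fun j => A i j)).card • Λ0 := by
            refine sum_le_card_nsmul _ _ _ fun j hj => ?_
            exact (hmax' j (mem_range.1 (mem_filter.1 hj).1)).trans hML
        _ = (((range m).filter (fun j => A i j)).card : ℝ) * Λ0 := by rw [nsmul_eq_mul]
        _ ≤ (1 + e) * dd m * Λ0 := mul_le_mul_of_nonneg_right h2 hΛ0.le
        _ = _ := by ring
    have h2 := (hlo i hi).trans (mul_le_mul_of_nonneg_left h1 hxi.le)
    have h3 : (1 - e) ≤ ξ i * Λ0 * (1 + e) := by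
      have h4 : (1 - e) * dd m ≤ (ξ i * Λ0 * (1 + e)) * dd m := by
        refine h2.trans (le_of_eq ?_)
        ring
      exact le_of_mul_le_mul_right h4 hd
    have h5 : 1 ≤ 2 * Λ0 * ξ i := by
      have h6 : 0 < ξ i * Λ0 := by positivity
      nlinarith
    have h6 : (2 * Λ0)⁻¹ ≤ ξ i := by
      rw [inv_le_iff_one_le_mul₀ (by positivity)]
      linarith
    refine le_trans ?_ h6
    exact inv_anti₀ (by positivity) (le_max_right _ _)
  · refine le_trans ?_ (le_max_right _ _)
    linarith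

end Pool.Agent.PCZ
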