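import Pool.Agent.PCZ.Stmts

/-!
PCZ [Exi]: existence of the exact symmetric scaling.
-/

set_option autoImplicit false

namespace Pool.Agent.PCZ

open Finset Filter Pool.Agent.PC Pool.Agent.PCX Pool.Agent.PrimeCircle

/-- the function that is minimised -/
noncomputable def Exi_f {n : ℕ} (a : Fin n → Fin n → ℝ) (d : ℝ) (u : Fin n → ℝ) : ℝ :=
  (∑ j, ∑ k, a j k * Real.exp (u j + u k)) / (2 * d) - ∑ j, u j

theorem Exi_deriv {n : ℕ} (a : Fin n → Fin n → ℝ) (hs : ∀ i j, a i j = a j i) (d : ℝ) (hd : 0 < d)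
    (u : Fin n → ℝ) (i : Fin n) :
    HasDerivAt (fun t : ℝ => Exi_f a d fun j => u j + if j = i then t else 0)
      (Real.exp (u i) * (∑ j, a i j * Real.exp (u j)) / d - 1) 0 := by
  have h1 : ∀ j : Fin n, HasDerivAt (fun t : ℝ => u j + if j = i then t else 0)
      (if j = i then 1 else 0) 0 := by
    intro j
    by_cases hj : j = i
    · simp only [hj, if_true]
      exact (hasDerivAt_id' (0 : ℝ)).const_add (u i)
    · simp only [hj, if_false]
      exact hasDerivAt_const _ _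
  have h2 : ∀ j k : Fin n, HasDerivAt
      (fun t : ℝ => a j k * Real.exp ((u j + if j = i then t else 0) +
        (u k + if k = i then t else 0)))
      (a j k * (Real.exp (u j + u k) * ((if j = i then 1 else 0) + (if k = i then 1 else 0)))) 0 := by
    intro j k
    have h3 := ((h1 j).add (h1 k)).exp.const_mul (a j k)
    have e1 : ∀ j : Fin n, (u j + if j = i then (0 : ℝ) else 0) = u j := by
      intro j
      split_ifs <;> ring
    simp only [Pi.add_apply, e1] at h3
    exact h3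
  have h4 : HasDerivAt (fun t : ℝ => ∑ j, ∑ k, a j k * Real.exp ((u j + if j = i then t else 0) +
        (u k + if k = i then t else 0)))
      (∑ j, ∑ k, a j k * (Real.exp (u j + u k) *
        ((if j = i then 1 else 0) + (if k = i then 1 else 0)))) 0 :=
    HasDerivAt.fun_sum fun j _ => HasDerivAt.fun_sum fun k _ => h2 j k
  have h5 : HasDerivAt (fun t : ℝ => ∑ j, (u j + if j = i then t else 0))
      (∑ j, if j = i then (1 : ℝ) else 0) 0 := HasDerivAt.fun_sum fun j _ => h1 j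
  have h6 := (h4.div_const (2 * d)).sub h5
  have e2 : (∑ j, ∑ k, a j k * (Real.exp (u j + u k) *
        ((if j = i then (1 : ℝ) else 0) + (if k = i then 1 else 0)))) =
      2 * (Real.exp (u i) * ∑ j, a i j * Real.exp (u j)) := by
    have e3 : ∀ j k : Fin n, a j k * (Real.exp (u j + u k) *
        ((if j = i then (1 : ℝ) else 0) + (if k = i then 1 else 0))) =
        (if j = i then a i k * (Real.exp (u i) * Real.exp (u k)) else 0) +
        (if k = i then a i j * (Real.exp (u i) * Real.exp (u j)) else 0) := by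
      intro j k
      rw [Real.exp_add]
      by_cases hj : j = i
      · subst hj
        by_cases hk : k = j
        · subst hk
          simp
          ring
        · simp [hk]
      · by_cases hk : k = i
        · subst hk
          simp only [hj, if_false, if_true, hs j k]
          ring
        · simp [hj, hk]
    simp only [e3, Finset.sum_add_distrib]
    rw [Finset.sum_comm (f := fun j k => if j = i then a i k * (Real.exp (u i) * Real.exp (u k)) else 0)]
    simp only [Finset.sum_ite_eq', Finset.mem_univ, if_true]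
    rw [two_mul, Finset.mul_sum]
    congr 1 <;> exact Finset.sum_congr rfl fun k _ => by ring
  have e4 : (∑ j : Fin n, if j = i then (1 : ℝ) else 0) = 1 := by simp
  rw [e2, e4] at h6
  have e5 : 2 * (Real.exp (u i) * ∑ j, a i j * Real.exp (u j)) / (2 * d) - 1 =
      Real.exp (u i) * (∑ j, a i j * Real.exp (u j)) / d - 1 := by
    rw [mul_div_mul_left _ _ two_ne_zero]
  rw [e5] at h6
  exact h6

theorem Exi_kkt {n : ℕ} (a : Fin n → Fin n → ℝ) (hs : ∀ i j, a i j = a j i) (d B : ℝ) (hd : 0 < d)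
    (hB : 0 ≤ B) : ∃ u : Fin n → ℝ, (∀ i, |u i| ≤ B) ∧
      (∀ i, u i < B → 1 ≤ Real.exp (u i) * (∑ j, a i j * Real.exp (u j)) / d) ∧
      (∀ i, -B < u i → Real.exp (u i) * (∑ j, a i j * Real.exp (u j)) / d ≤ 1) := by
  classical
  have hK : IsCompact (Set.pi Set.univ (fun _ : Fin n => Set.Icc (-B) B)) :=
    isCompact_univ_pi fun _ => isCompact_Icc
  have hne : (Set.pi Set.univ (fun _ : Fin n => Set.Icc (-B) B)).Nonempty :=
    ⟨fun _ => 0, fun i _ => ⟨by linarith, hB⟩⟩
  have hc : Continuous (Exi_f a d) := by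
    unfold Exi_f
    fun_prop
  obtain ⟨u, huK, hmin⟩ := hK.exists_isMinOn hne hc.continuousOn
  have hu : ∀ i, -B ≤ u i ∧ u i ≤ B := fun i => huK i (Set.mem_univ i)
  have hmin' : ∀ i (t : ℝ), -B ≤ u i + t → u i + t ≤ B →
      Exi_f a d u ≤ Exi_f a d fun j => u j + if j = i then t else 0 := by
    intro i t h1 h2
    refine hmin ?_
    intro j _
    by_cases hj : j = i
    · subst hj
      simp only [if_true]
      exact ⟨h1, h2⟩
    · simp only [hj, if_false, add_zero]
      exact hu j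
  have h0 : ∀ i, (Exi_f a d fun j => u j + if j = i then (0 : ℝ) else 0) = Exi_f a d u := by
    intro i
    congr 1
    ext j
    split_ifs <;> ring
  refine ⟨u, fun i => abs_le.2 (hu i), fun i hi => ?_, fun i hi => ?_⟩
  · have hD := (Exi_deriv a hs d hd u i).tendsto_slope_zero_right
    have : 0 ≤ Real.exp (u i) * (∑ j, a i j * Real.exp (u j)) / d - 1 := by
      refine ge_of_tendsto hD ?_
      have hmem : Set.Ioo (0 : ℝ) (B - u i) ∈ nhdsWithin (0 : ℝ) (Set.Ioi 0) :=
        Ioo_mem_nhdsGT (by linarith)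
      filter_upwards [hmem] with t ht
      simp only [zero_add, smul_eq_mul]
      refine mul_nonneg (inv_nonneg.2 ht.1.le) ?_
      rw [h0 i]
      have := hmin' i t (by linarith [ht.1, (hu i).1]) (by linarith [ht.2])
      linarith
    linarith
  · have hD := (Exi_deriv a hs d hd u i).tendsto_slope_zero_left
    have : Real.exp (u i) * (∑ j, a i j * Real.exp (u j)) / d - 1 ≤ 0 := by
      refine le_of_tendsto hD ?_
      have hmem : Set.Ioo (-B - u i) (0 : ℝ) ∈ nhdsWithin (0 : ℝ) (Set.Iio 0) :=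
        Ioo_mem_nhdsLT (by linarith)
      filter_upwards [hmem] with t ht
      simp only [zero_add, smul_eq_mul]
      refine mul_nonpos_of_nonpos_of_nonneg (inv_nonpos.2 ht.2.le) ?_
      rw [h0 i]
      have := hmin' i t (by linarith [ht.1]) (by linarith [ht.2, (hu i).2])
      linarith
    linarith

open scoped Classical in
theorem Exi_exists (A : ℕ → ℕ → Prop) (hA : PG A) (hApr : Stmt_Apr) :
    ∃ Λ : ℝ, 1 ≤ Λ ∧ ∀ᶠ m : ℕ in atTop, ∃ ξ : ℕ → ℝ,
      (∀ i < m, Λ⁻¹ ≤ ξ i ∧ ξ i ≤ Λ) ∧ ∀ i < m, ξ i * SS A m ξ i = 1 := by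
  obtain ⟨Λ, ε, hΛ, hε, hε2, hev⟩ := hApr A hA
  refine ⟨Λ, hΛ, ?_⟩
  filter_upwards [hev, hA.deg ε hε, eventually_ge_atTop 3] with m hm hdeg hm3
  have hΛ0 : 0 < Λ := by linarith
  have hΛ' : 1 < 2 * Λ := by linarith
  have hB : 0 < Real.log (2 * Λ) := Real.log_pos hΛ'
  have hm3' : (3 : ℝ) ≤ m := by exact_mod_cast hm3
  have hlog : 0 < Real.log m := Real.log_pos (by linarith)
  have hd : 0 < dd m := by
    unfold dd
    positivity
  obtain ⟨u, hu1, hu2, hu3⟩ := Exi_kkt (n := m) (fun i j => if A i j then (1 : ℝ) else 0)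
    (fun i j => by
      have : A i j ↔ A j i := ⟨hA.symm _ _, hA.symm _ _⟩
      simp only [this]) (dd m) (Real.log (2 * Λ)) hd hB.le
  set ξ : ℕ → ℝ := fun j => if h : j < m then Real.exp (u ⟨j, h⟩) else 1 with hξ
  have hξe : ∀ i (h : i < m), ξ i = Real.exp (u ⟨i, h⟩) := by
    intro i h
    simp only [hξ, dif_pos h]
  have hSS : ∀ i (h : i < m), ξ i * SS A m ξ i =
      Real.exp (u ⟨i, h⟩) * (∑ j : Fin m, (if A ((⟨i, h⟩ : Fin m) : ℕ) j then (1 : ℝ) else 0) *
        Real.exp (u j)) / dd m := by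
    intro i h
    rw [hξe i h, SS, mul_div_assoc]
    congr 2
    rw [Finset.sum_range]
    refine Finset.sum_congr rfl fun j _ => ?_
    rw [hξe j j.2]
    split_ifs <;> simp
  have hlo : ∀ i (h : i < m), (2 * Λ)⁻¹ ≤ ξ i := by
    intro i h
    rw [hξe i h, ← Real.exp_log (show 0 < (2 * Λ)⁻¹ by positivity), Real.exp_le_exp, Real.log_inv]
    exact (abs_le.1 (hu1 ⟨i, h⟩)).1
  have hhi : ∀ i (h : i < m), ξ i ≤ 2 * Λ := by
    intro i h
    rw [hξe i h, ← Real.exp_log (show 0 < 2 * Λ by positivity), Real.exp_le_exp]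
    exact (abs_le.1 (hu1 ⟨i, h⟩)).2
  have hcard : ∀ i < m, (∑ j ∈ range m, if A i j then (1 : ℝ) else 0) = (dX A (range m) i : ℝ) := by
    intro i _
    rw [dX, Finset.card_filter]
    push_cast
    refine Finset.sum_congr rfl fun j _ => ?_
    have : A i j ↔ A j i := ⟨hA.symm _ _, hA.symm _ _⟩
    simp only [this]
  have hSlo : ∀ i (h : i < m), (1 - ε) * (2 * Λ)⁻¹ ≤ SS A m ξ i := by
    intro i h
    rw [SS, le_div_iff₀ hd]
    calc (1 - ε) * (2 * Λ)⁻¹ * dd m = (1 - ε) * dd m * (2 * Λ)⁻¹ := by ring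
      _ ≤ (dX A (range m) i : ℝ) * (2 * Λ)⁻¹ :=
          mul_le_mul_of_nonneg_right (hdeg i h).1 (by positivity)
      _ = ∑ j ∈ range m, if A i j then (2 * Λ)⁻¹ else 0 := by
          rw [← hcard i h, Finset.sum_mul]
          refine Finset.sum_congr rfl fun j _ => ?_
          split_ifs <;> simp
      _ ≤ ∑ j ∈ range m, if A i j then ξ j else 0 := by
          refine Finset.sum_le_sum fun j hj => ?_
          split_ifs
          · exact hlo j (Finset.mem_range.1 hj)
          · exact le_rfl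
  have hShi : ∀ i (h : i < m), SS A m ξ i ≤ (1 + ε) * (2 * Λ) := by
    intro i h
    rw [SS, div_le_iff₀ hd]
    calc (∑ j ∈ range m, if A i j then ξ j else 0) ≤ ∑ j ∈ range m, if A i j then 2 * Λ else 0 := by
          refine Finset.sum_le_sum fun j hj => ?_
          split_ifs
          · exact hhi j (Finset.mem_range.1 hj)
          · exact le_rfl
      _ = (dX A (range m) i : ℝ) * (2 * Λ) := by
          rw [← hcard i h, Finset.sum_mul]
          refine Finset.sum_congr rfl fun j _ => ?_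
          split_ifs <;> simp
      _ ≤ (1 + ε) * dd m * (2 * Λ) := mul_le_mul_of_nonneg_right (hdeg i h).2 (by positivity)
      _ = (1 + ε) * (2 * Λ) * dd m := by ring
  have happ : ∀ i < m, 1 - ε ≤ ξ i * SS A m ξ i ∧ ξ i * SS A m ξ i ≤ 1 + ε := by
    intro i h
    by_cases h1 : u ⟨i, h⟩ < Real.log (2 * Λ)
    · have g1 : 1 ≤ ξ i * SS A m ξ i := by
        rw [hSS i h]
        exact hu2 ⟨i, h⟩ h1
      by_cases h2 : -Real.log (2 * Λ) < u ⟨i, h⟩
      · have g2 : ξ i * SS A m ξ i ≤ 1 := by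
          rw [hSS i h]
          exact hu3 ⟨i, h⟩ h2
        exact ⟨by linarith, by linarith⟩
      · have h3 : u ⟨i, h⟩ = -Real.log (2 * Λ) :=
          le_antisymm (not_lt.1 h2) (abs_le.1 (hu1 ⟨i, h⟩)).1
        have h4 : ξ i = (2 * Λ)⁻¹ := by
          rw [hξe i h, h3, Real.exp_neg, Real.exp_log (by positivity)]
        refine ⟨by linarith, ?_⟩
        rw [h4]
        calc (2 * Λ)⁻¹ * SS A m ξ i ≤ (2 * Λ)⁻¹ * ((1 + ε) * (2 * Λ)) :=
              mul_le_mul_of_nonneg_left (hShi i h) (by positivity)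
          _ = 1 + ε := by field_simp
    · have h3 : u ⟨i, h⟩ = Real.log (2 * Λ) :=
        le_antisymm (abs_le.1 (hu1 ⟨i, h⟩)).2 (not_lt.1 h1)
      have h4 : ξ i = 2 * Λ := by
        rw [hξe i h, h3, Real.exp_log (by positivity)]
      have g2 : ξ i * SS A m ξ i ≤ 1 := by
        rw [hSS i h]
        exact hu3 ⟨i, h⟩ (by rw [h3]; linarith)
      refine ⟨?_, by linarith⟩
      rw [h4]
      calc 1 - ε = 2 * Λ * ((1 - ε) * (2 * Λ)⁻¹) := by field_simp
        _ ≤ 2 * Λ * SS A m ξ i := mul_le_mul_of_nonneg_left (hSlo i h) (by positivity)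
  have hpos : ∀ i < m, 0 < ξ i := fun i h => lt_of_lt_of_le (by positivity) (hlo i h)
  have hres := hm ξ hpos happ
  refine ⟨ξ, hres, fun i h => ?_⟩
  rw [hSS i h]
  refine le_antisymm (hu3 ⟨i, h⟩ ?_) (hu2 ⟨i, h⟩ ?_)
  · have h1 := (hres i h).1
    rw [hξe i h] at h1
    rw [neg_lt, ← Real.exp_lt_exp, Real.exp_log (by positivity), Real.exp_neg]
    have h2 : (Real.exp (u ⟨i, h⟩))⁻¹ ≤ Λ := by
      rw [inv_le_comm₀ (Real.exp_pos _) hΛ0]
      exact h1
    linarith
  · have h1 := (hres i h).2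
    rw [hξe i h] at h1
    rw [← Real.exp_lt_exp, Real.exp_log (by positivity)]
    linarith

/-- [Exi] -/
theorem main_Exi : Stmt_Apr → Stmt_Exi := by
  classical
  intro hApr
  obtain ⟨Λ, hΛ, hev⟩ := Exi_exists PA pg_PA hApr
  refine ⟨2 * Λ, by linarith, ?_⟩
  filter_upwards [hev, eventually_ge_atTop 3] with m hm hm3
  obtain ⟨ξ, h1, h2⟩ := hm
  have hΛ0 : 0 < Λ := by linarith
  have hm3' : (3 : ℝ) ≤ m := by exact_mod_cast hm3
  have hm0 : (0 : ℝ) < m := by linarith
  have hlog : 0 < Real.log m := Real.log_pos (by linarith)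
  have hd : 0 < dd m := by
    unfold dd
    positivity
  have hr0 : 0 < √(Real.log m / m) := Real.sqrt_pos.2 (by positivity)
  have hs : √(Real.log m / m) = √2 * (√(dd m))⁻¹ := by
    rw [← Real.sqrt_inv, ← Real.sqrt_mul (by norm_num)]
    congr 1
    unfold dd
    field_simp
  have hsq2 : 1 ≤ √2 := by
    rw [Real.one_le_sqrt]
    norm_num
  have hsq2' : √2 ≤ 2 := by
    rw [Real.sqrt_le_left (by norm_num)]
    norm_num
  have hsd : 0 < (√(dd m))⁻¹ := inv_pos.2 (Real.sqrt_pos.2 hd)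
  refine ⟨fun i => ξ i * (√(dd m))⁻¹, ?_, ?_⟩
  · intro i hi
    rw [hs]
    constructor
    · have e1 : (2 * Λ)⁻¹ * (√2 * (√(dd m))⁻¹) = Λ⁻¹ * (√(dd m))⁻¹ * (√2 / 2) := by
        rw [mul_inv]
        ring
      rw [e1]
      calc Λ⁻¹ * (√(dd m))⁻¹ * (√2 / 2) ≤ Λ⁻¹ * (√(dd m))⁻¹ * 1 := by
            refine mul_le_mul_of_nonneg_left ?_ (by positivity)
            linarith
        _ = Λ⁻¹ * (√(dd m))⁻¹ := mul_one _
        _ ≤ ξ i * (√(dd m))⁻¹ := mul_le_mul_of_nonneg_right (h1 i hi).1 hsd.le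
    · calc ξ i * (√(dd m))⁻¹ ≤ Λ * (√(dd m))⁻¹ := mul_le_mul_of_nonneg_right (h1 i hi).2 hsd.le
        _ = Λ * (√(dd m))⁻¹ * 1 := (mul_one _).symm
        _ ≤ Λ * (√(dd m))⁻¹ * (2 * √2) := by
            refine mul_le_mul_of_nonneg_left ?_ (by positivity)
            linarith
        _ = 2 * Λ * (√2 * (√(dd m))⁻¹) := by ring
  · intro i hi
    have e1 : (√(dd m))⁻¹ * (√(dd m))⁻¹ = (dd m)⁻¹ := by
      rw [← mul_inv, Real.mul_self_sqrt hd.le]
    have e2 : wdeg m (fun i => ξ i * (√(dd m))⁻¹) i = ξ i * SS PA m ξ i := by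
      rw [wdeg, SS, div_eq_mul_inv, Finset.sum_mul, Finset.mul_sum]
      refine Finset.sum_congr rfl fun j _ => ?_
      split_ifs
      · rw [← e1]
        ring
      · ring
    rw [e2]
    exact h2 i hi

end Pool.Agent.PCZ
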