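import Pool.Agent.PCZ.Stmts

/-!
# [Uni], [Sc], [Nm]
-/

set_option autoImplicit false

namespace Pool.Agent.PCZ

open Finset Filter Pool.Agent.PC Pool.Agent.PCX Pool.Agent.PrimeCircle

open scoped Classical in
private theorem usn_half (S : Finset ℕ) (R : ℕ → ℕ → Prop) (hR : ∀ a b, R a b → R b a)
    (w w' : ℕ → ℝ)
    (hw : ∀ a ∈ S, 0 < w a ∧ w a * (∑ b ∈ S, if R a b then w b else 0) = 1)
    (hw' : ∀ a ∈ S, 0 < w' a ∧ w' a * (∑ b ∈ S, if R a b then w' b else 0) = 1) :
    ∑ a ∈ S, Real.log (w a) ≤ ∑ a ∈ S, Real.log (w' a) := by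
  set B : ℕ → ℕ → ℝ := fun a b => if R a b then w' a * w' b else 0 with hB
  have hBs : ∀ a b, B a b = B b a := by
    intro a b
    simp only [hB]
    by_cases h : R a b
    · rw [if_pos h, if_pos (hR _ _ h), mul_comm]
    · rw [if_neg h, if_neg (fun h' => h (hR _ _ h'))]
  have hB0 : ∀ a ∈ S, ∀ b ∈ S, 0 ≤ B a b := by
    intro a ha b hb
    simp only [hB]
    split_ifs
    · exact (mul_pos (hw' a ha).1 (hw' b hb).1).le
    · exact le_rfl
  have hB1 : ∀ a ∈ S, ∑ b ∈ S, B a b = 1 := by
    intro a ha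
    rw [← (hw' a ha).2, mul_sum]
    refine sum_congr rfl fun b _ => ?_
    simp only [hB]
    split_ifs
    · rfl
    · simp
  set l : ℕ → ℝ := fun a => Real.log (w a) - Real.log (w' a) with hl
  have key : ∀ a ∈ S, ∑ b ∈ S, B a b * l b ≤ -l a := by
    intro a ha
    have h1 : ∀ b ∈ S, B a b * (l b + l a) ≤ B a b * (w b / w' b * (w a / w' a)) - B a b := by
      intro b hb
      have hb0 := (hw b hb).1
      have hb0' := (hw' b hb).1
      have ha0 := (hw a ha).1
      have ha0' := (hw' a ha).1
      have h2 : l b + l a ≤ w b / w' b * (w a / w' a) - 1 := by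
        have h3 := Real.log_le_sub_one_of_pos (by positivity : 0 < w b / w' b * (w a / w' a))
        rw [Real.log_mul (by positivity) (by positivity), Real.log_div hb0.ne' hb0'.ne',
          Real.log_div ha0.ne' ha0'.ne'] at h3
        simp only [hl]
        linarith
      have h3 := mul_le_mul_of_nonneg_left h2 (hB0 a ha b hb)
      linarith
    have h2 := sum_le_sum h1
    rw [sum_sub_distrib, hB1 a ha] at h2
    have h3 : ∑ b ∈ S, B a b * (w b / w' b * (w a / w' a)) = 1 := by
      rw [← (hw a ha).2, mul_sum]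
      refine sum_congr rfl fun b hb => ?_
      have hb0' := (hw' b hb).1
      have ha0' := (hw' a ha).1
      simp only [hB]
      split_ifs
      · field_simp
      · simp
    rw [h3] at h2
    have h4 : ∑ b ∈ S, B a b * (l b + l a) = ∑ b ∈ S, B a b * l b + l a := by
      simp only [mul_add]
      rw [sum_add_distrib, ← sum_mul, hB1 a ha, one_mul]
    rw [h4] at h2
    linarith
  have htot : ∑ a ∈ S, ∑ b ∈ S, B a b * l b = ∑ b ∈ S, l b := by
    rw [sum_comm]
    refine sum_congr rfl fun b hb => ?_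
    rw [← sum_mul]
    have : ∑ a ∈ S, B a b = 1 := by
      rw [← hB1 b hb]
      exact sum_congr rfl fun a _ => hBs a b
    rw [this, one_mul]
  have hfin := sum_le_sum key
  rw [htot, sum_neg_distrib] at hfin
  have h5 : ∑ a ∈ S, l a ≤ 0 := by linarith
  simp only [hl] at h5
  rw [sum_sub_distrib] at h5
  linarith

open scoped Classical in
theorem main_Uni : Stmt_Uni := by
  intro S R hR w w' hw hw'
  exact le_antisymm (usn_half S R hR w w' hw hw') (usn_half S R hR w' w hw' hw)

/-- sums over `1, …, 2m` -/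
private theorem usn_sum (m : ℕ) (f : ℕ → ℝ) :
    ∑ a ∈ Icc 1 (2 * m), f a = ∑ i ∈ range m, (f (2 * i + 1) + f (2 * i + 2)) := by
  induction m with
  | zero => simp
  | succ m ih =>
    rw [sum_range_succ, ← ih, show 2 * (m + 1) = 2 * m + 1 + 1 by ring,
      sum_Icc_succ_top (by omega), sum_Icc_succ_top (by omega)]
    ring

theorem main_Sc : Stmt_Sc := by
  classical
  intro m x hpos hw
  have hodd : ∀ i, (2 * i + 1 - 1) / 2 = i := fun i => by omega
  have heven : ∀ i, (2 * i + 2 - 1) / 2 = i := fun i => by omega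
  refine ⟨?_, ?_⟩
  · intro a ha
    rw [mem_Icc] at ha
    have ham : (a - 1) / 2 < m := by omega
    refine ⟨hpos _ ham, ?_⟩
    rw [← hw _ ham]
    unfold wdeg
    rw [sum_filter, usn_sum, mul_sum]
    refine sum_congr rfl fun j hj => ?_
    simp only [hodd, heven]
    rcases Nat.even_or_odd' (a - 1) with ⟨i, hi | hi⟩
    · -- a = 2 i + 1
      have ha1 : a = 2 * i + 1 := by omega
      have hi2 : (a - 1) / 2 = i := by omega
      rw [hi2]
      have hno : ¬ (2 * j + 1 ≠ a ∧ (a + (2 * j + 1)).Prime) := by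
        rintro ⟨h1, h2⟩
        have h3 : 2 ∣ a + (2 * j + 1) := ⟨i + j + 1, by omega⟩
        have h4 := (Nat.prime_dvd_prime_iff_eq Nat.prime_two h2).1 h3
        omega
      rw [if_neg hno, zero_add]
      have hiff : (2 * j + 2 ≠ a ∧ (a + (2 * j + 2)).Prime) ↔ PA i j := by
        unfold PA
        rw [ha1, show 2 * i + 1 + (2 * j + 2) = 2 * (i + j) + 3 by ring]
        constructor
        · exact fun h => h.2
        · exact fun h => ⟨by omega, h⟩
      by_cases h : PA i j
      · rw [if_pos (hiff.2 h), if_pos h]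
      · rw [if_neg (fun h' => h (hiff.1 h')), if_neg h, mul_zero]
    · -- a = 2 i + 2
      have ha1 : a = 2 * i + 2 := by omega
      have hi2 : (a - 1) / 2 = i := by omega
      rw [hi2]
      have hno : ¬ (2 * j + 2 ≠ a ∧ (a + (2 * j + 2)).Prime) := by
        rintro ⟨h1, h2⟩
        have h3 : 2 ∣ a + (2 * j + 2) := ⟨i + j + 2, by omega⟩
        have h4 := (Nat.prime_dvd_prime_iff_eq Nat.prime_two h2).1 h3
        omega
      rw [if_neg hno, add_zero]
      have hiff : (2 * j + 1 ≠ a ∧ (a + (2 * j + 1)).Prime) ↔ PA i j := by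
        unfold PA
        rw [ha1, show 2 * i + 2 + (2 * j + 1) = 2 * (i + j) + 3 by ring]
        constructor
        · exact fun h => h.2
        · exact fun h => ⟨by omega, h⟩
      by_cases h : PA i j
      · rw [if_pos (hiff.2 h), if_pos h]
      · rw [if_neg (fun h' => h (hiff.1 h')), if_neg h, mul_zero]
  · rw [usn_sum, mul_sum]
    refine sum_congr rfl fun i _ => ?_
    rw [hodd, heven]
    ring

theorem main_Nm : Stmt_Nm := by
  intro m
  let fe : (range m : Finset ℕ) ≃ Fin m :=
    { toFun := fun x => ⟨x, mem_range.1 x.2⟩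
      invFun := fun i => ⟨i, mem_range.2 i.2⟩
      left_inv := fun x => rfl
      right_inv := fun i => rfl }
  unfold Mt
  refine Nat.card_congr (Equiv.subtypeEquiv (Equiv.permCongr fe) ?_)
  intro e
  constructor
  · intro h i
    exact h (fe.symm i)
  · intro h i
    exact h (fe i)

end Pool.Agent.PCZ
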