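import Pool.Agent.PCZ.Stmts
import Pool.Agent.PC.Count

/-!
# [Cmp] comparison with pairs of perfect matchings
-/

set_option autoImplicit false

namespace Pool.Agent.PCZ

open Finset Filter Pool.Agent.PC Pool.Agent.PCX Pool.Agent.PrimeCircle

open scoped Classical in
theorem main_Cmp (hfew : Stmt_Few) (hres : Stmt_Res) (hmrg : Stmt_Mrg) : Stmt_Cmp := by
  obtain ⟨C, hC, hF⟩ := hfew PA pg_PA
  obtain ⟨C', hC', hR⟩ := hres PA pg_PA C hC
  refine ⟨C' + (2 + 2 * C), by positivity, ?_⟩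
  have hlogtend : Tendsto (fun N : ℕ => Real.log (N : ℝ)) atTop atTop :=
    Real.tendsto_log_atTop.comp tendsto_natCast_atTop_atTop
  have hgrow : ∀ᶠ m : ℕ in atTop, C' * Real.log m ^ 9 ≤ (m : ℝ) ^ (0.9 : ℝ) := by
    have h1 : (fun x : ℝ => Real.log x ^ 9) =o[atTop] fun x => x ^ (0.9 : ℝ) := by
      have h0 := isLittleO_log_rpow_rpow_atTop (s := 0.9) ((9 : ℕ) : ℝ) (by norm_num)
      simpa only [Real.rpow_natCast] using h0
    have h2 := h1.def (c := 1 / C') (by positivity)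
    have h3 := tendsto_natCast_atTop_atTop (R := ℝ) |>.eventually h2
    filter_upwards [h3, eventually_ge_atTop 1] with m hm hm1
    have hl : 0 ≤ Real.log (m : ℝ) := Real.log_natCast_nonneg m
    rw [Real.norm_eq_abs, Real.norm_eq_abs, abs_of_nonneg (by positivity),
      abs_of_nonneg (by positivity)] at hm
    calc C' * Real.log m ^ 9 ≤ C' * (1 / C' * (m : ℝ) ^ (0.9 : ℝ)) := by gcongr
      _ = (m : ℝ) ^ (0.9 : ℝ) := by field_simp
  filter_upwards [hF, hR, hgrow, hlogtend.eventually_ge_atTop 1, eventually_ge_atTop 2]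
    with m hF hR hgrow hL1 hm2
  obtain ⟨Gs, hlen, hnd, hlt, hle, hch, hends, habs⟩ := hR
  obtain ⟨U, V, hU, hV, hUV, hUle, hmg⟩ := hmrg PA pg_PA.symm m Gs hnd hlt hch hends habs
  obtain ⟨L, hL⟩ : ∃ L : ℝ, L = Real.log m := ⟨_, rfl⟩
  rw [← hL] at hF hlen hle hgrow hL1 ⊢
  have hL0 : 0 < L := by linarith
  have hm0 : (0 : ℝ) < m := by positivity
  have hUc : (U.card : ℝ) ≤ C' * L ^ 9 := by
    have : (U.card : ℝ) ≤ (Gs.flatten.length : ℝ) := by exact_mod_cast hUle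
    exact this.trans hle
  have hsm : Small m U V := ⟨hU, hV, hUV, hUc.trans hgrow⟩
  refine ⟨U, V, hU, hV, hUV, hUc.trans ?_, ?_⟩
  · refine mul_le_mul_of_nonneg_right ?_ (by positivity)
    linarith
  have hne : (range m \ U).Nonempty := by
    rw [Finset.sdiff_nonempty]
    intro h1
    have h2 : m ≤ U.card := by
      have := Finset.card_le_card h1
      rwa [Finset.card_range] at this
    have h3 : (m : ℝ) ≤ (m : ℝ) ^ (0.9 : ℝ) := by
      have : (m : ℝ) ≤ U.card := by exact_mod_cast h2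
      exact this.trans hsm.2.2.2
    have h4 : (m : ℝ) ^ (0.9 : ℝ) < (m : ℝ) ^ (1 : ℝ) :=
      Real.rpow_lt_rpow_of_exponent_lt (by exact_mod_cast hm2) (by norm_num)
    rw [Real.rpow_one] at h4
    linarith
  have hz : (0 : ℝ) ≤ C * L ^ 6 := by positivity
  have hcnt := count_pairs (m := m) (c := ⌊C * L ^ 6⌋₊) (U := U) (V := V) (z := C * L ^ 6)
    (fun n hn => Nat.le_floor hn) hne (hF U V hsm) (by
      intro M1 M2 hcyc
      obtain ⟨N1, N2, h1, h2, h3⟩ := hmg M1 M2 (by rw [hlen]; exact Nat.le_floor hcyc)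
      refine ⟨N1, N2, h1, h2, ?_⟩
      rw [hlen] at h3
      exact le_trans (by exact_mod_cast h3) (Nat.floor_le hz))
  have hHP := card_HP_le (m := m) (by omega)
  have h5 : Nat.card (Mt PA (range m \ U) (range m \ V)) ^ 2 ≤
      numPrimeCircles m * (4 * (m * m) ^ ⌊C * L ^ 6⌋₊) := by
    refine hcnt.trans ?_
    calc 2 * (Nat.card (HP m) * (m * m) ^ ⌊C * L ^ 6⌋₊) ≤
        2 * ((2 * numPrimeCircles m) * (m * m) ^ ⌊C * L ^ 6⌋₊) := by gcongr
      _ = _ := by ring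
  have h6 : (Nat.card (Mt PA (range m \ U) (range m \ V)) : ℝ) ^ 2 ≤
      numPrimeCircles m * (4 * ((m : ℝ) * m) ^ ⌊C * L ^ 6⌋₊) := by exact_mod_cast h5
  refine h6.trans ?_
  refine mul_le_mul_of_nonneg_left ?_ (Nat.cast_nonneg _)
  have h7 : (0 : ℝ) < 4 * ((m : ℝ) * m) ^ ⌊C * L ^ 6⌋₊ := by positivity
  rw [← Real.exp_log h7]
  apply Real.exp_le_exp.2
  rw [Real.log_mul (by norm_num) (by positivity), Real.log_pow, Real.log_mul hm0.ne' hm0.ne', ← hL]
  have h8 : Real.log 4 ≤ 2 := by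
    have : (4 : ℝ) = 2 ^ 2 := by norm_num
    rw [this, Real.log_pow]
    have := Real.log_two_lt_d9
    push_cast; linarith
  have h9 : (⌊C * L ^ 6⌋₊ : ℝ) * (L + L) ≤ 2 * C * L ^ 7 := by
    calc (⌊C * L ^ 6⌋₊ : ℝ) * (L + L) ≤ (C * L ^ 6) * (L + L) := by
          gcongr
          exact Nat.floor_le hz
      _ = _ := by ring
  have h10 : (1 : ℝ) ≤ L ^ 7 := one_le_pow₀ hL1
  have h11 : 0 ≤ C' * L ^ 7 := by positivity
  calc Real.log 4 + (⌊C * L ^ 6⌋₊ : ℝ) * (L + L) ≤ 2 * L ^ 7 + 2 * C * L ^ 7 := by linarith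
    _ ≤ (C' + (2 + 2 * C)) * L ^ 7 := by
        have : (C' + (2 + 2 * C)) * L ^ 7 = C' * L ^ 7 + (2 * L ^ 7 + 2 * C * L ^ 7) := by ring
        linarith

end Pool.Agent.PCZ
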