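import Pool.Agent.PCZ.Stmts
import Pool.Agent.PC.Factor
import Pool.Agent.PC.PGPrime

/-!
# [Cnd] the flow condition for the exact scaling
-/

set_option autoImplicit false

namespace Pool.Agent.PCZ

open Finset Filter Pool.Agent.PC Pool.Agent.PCX Pool.Agent.PrimeCircle

private lemma cnd_PA_symm (i j : ℕ) : PA i j ↔ PA j i := by
  unfold PA
  rw [Nat.add_comm i j]

private lemma cnd_WW_comm (x : ℕ → ℝ) (X Y : Finset ℕ) : WW PA x X Y = WW PA x Y X := by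
  classical
  unfold WW
  rw [Finset.sum_comm]
  refine Finset.sum_congr rfl fun i _ => Finset.sum_congr rfl fun j _ => ?_
  by_cases h : PA i j
  · rw [if_pos h, if_pos ((cnd_PA_symm i j).1 h), mul_comm]
  · rw [if_neg h, if_neg (fun h' => h ((cnd_PA_symm i j).2 h'))]

private lemma cnd_WW_row (m : ℕ) (x : ℕ → ℝ) (X : Finset ℕ) :
    WW PA x X (range m) = ∑ i ∈ X, wdeg m x i := by
  unfold WW wdeg
  rfl

private lemma cnd_WW_split (x : ℕ → ℝ) (X : Finset ℕ) {Y T : Finset ℕ} (h : Y ⊆ T) :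
    WW PA x X Y + WW PA x X (T \ Y) = WW PA x X T := by
  classical
  unfold WW
  rw [← Finset.sum_add_distrib]
  refine Finset.sum_congr rfl fun i _ => ?_
  rw [add_comm]
  exact Finset.sum_sdiff h

private lemma cnd_WW_nonneg {m : ℕ} {x : ℕ → ℝ} (hx : ∀ i < m, 0 ≤ x i) {X Y : Finset ℕ}
    (hX : X ⊆ range m) (hY : Y ⊆ range m) : 0 ≤ WW PA x X Y := by
  classical
  unfold WW
  refine Finset.sum_nonneg fun i hi => Finset.sum_nonneg fun j hj => ?_
  split_ifs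
  · exact mul_nonneg (hx i (Finset.mem_range.1 (hX hi))) (hx j (Finset.mem_range.1 (hY hj)))
  · exact le_rfl

private lemma cnd_WW_le {m : ℕ} {x : ℕ → ℝ} {a : ℝ} (hx : ∀ i < m, 0 ≤ x i) (ha : ∀ i < m, x i ≤ a)
    {X Z : Finset ℕ} (hX : X ⊆ range m) (hZ : Z ⊆ range m) :
    WW PA x X Z ≤ a ^ 2 * ∑ j ∈ Z, (dX PA X j : ℝ) := by
  classical
  unfold WW
  rw [Finset.sum_comm, Finset.mul_sum]
  refine Finset.sum_le_sum fun j hj => ?_
  have h1 : ∑ i ∈ X, (if PA i j then x i * x j else 0) ≤ ∑ i ∈ X, (if PA i j then a ^ 2 else 0) := by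
    refine Finset.sum_le_sum fun i hi => ?_
    have hi' := Finset.mem_range.1 (hX hi)
    have hj' := Finset.mem_range.1 (hZ hj)
    split_ifs
    · rw [pow_two]
      exact mul_le_mul (ha i hi') (ha j hj') (hx j hj') ((hx i hi').trans (ha i hi'))
    · exact le_rfl
  refine h1.trans (le_of_eq ?_)
  rw [← Finset.sum_filter, Finset.sum_const, nsmul_eq_mul, mul_comm]
  unfold dX
  rfl

private lemma cnd_WW_ge {m : ℕ} {x : ℕ → ℝ} {b : ℝ} (hb0 : 0 ≤ b) (hb : ∀ i < m, b ≤ x i)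
    {X Z : Finset ℕ} (hX : X ⊆ range m) (hZ : Z ⊆ range m) :
    b ^ 2 * ∑ j ∈ Z, (dX PA X j : ℝ) ≤ WW PA x X Z := by
  classical
  unfold WW
  rw [Finset.sum_comm, Finset.mul_sum]
  refine Finset.sum_le_sum fun j hj => ?_
  have h1 : ∑ i ∈ X, (if PA i j then b ^ 2 else 0) ≤ ∑ i ∈ X, (if PA i j then x i * x j else 0) := by
    refine Finset.sum_le_sum fun i hi => ?_
    have hi' := Finset.mem_range.1 (hX hi)
    have hj' := Finset.mem_range.1 (hZ hj)
    split_ifs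
    · rw [pow_two]
      exact mul_le_mul (hb i hi') (hb j hj') hb0 (hb0.trans (hb i hi'))
    · exact le_rfl
  refine (le_of_eq ?_).trans h1
  rw [← Finset.sum_filter, Finset.sum_const, nsmul_eq_mul, mul_comm]
  unfold dX
  rfl

private lemma cnd_WW_card_le {m : ℕ} {x : ℕ → ℝ} {a : ℝ} (hx : ∀ i < m, 0 ≤ x i)
    (ha : ∀ i < m, x i ≤ a) {X Z : Finset ℕ} (hX : X ⊆ range m) (hZ : Z ⊆ range m) :
    WW PA x X Z ≤ X.card * (Z.card * a ^ 2) := by
  classical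
  unfold WW
  rw [← nsmul_eq_mul]
  refine Finset.sum_le_card_nsmul _ _ _ fun i hi => ?_
  rw [← nsmul_eq_mul]
  refine Finset.sum_le_card_nsmul _ _ _ fun j hj => ?_
  have hi' := Finset.mem_range.1 (hX hi)
  have hj' := Finset.mem_range.1 (hZ hj)
  split_ifs
  · rw [pow_two]
    exact mul_le_mul (ha i hi') (ha j hj') (hx j hj') ((hx i hi').trans (ha i hi'))
  · exact sq_nonneg a

/-- row sums after the removal of a small set -/
private lemma cnd_low {m : ℕ} {x : ℕ → ℝ} {a ε : ℝ} (hx : ∀ i < m, 0 ≤ x i)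
    (ha : ∀ i < m, x i ≤ a) (hrow : ∀ i < m, |wdeg m x i - 1| ≤ ε) {X V : Finset ℕ}
    (hX : X ⊆ range m) (hV : V ⊆ range m) (hVa : V.card * a ^ 2 ≤ ε) :
    (1 - 2 * ε) * X.card ≤ WW PA x X (range m \ V) := by
  have h1 := cnd_WW_split x X hV
  have h2 := cnd_WW_card_le hx ha hX hV
  rw [cnd_WW_row] at h1
  have h3 : (X.card : ℝ) * (1 - ε) ≤ ∑ i ∈ X, wdeg m x i := by
    rw [← nsmul_eq_mul]
    refine Finset.card_nsmul_le_sum _ _ _ fun i hi => ?_
    have := (abs_le.1 (hrow i (Finset.mem_range.1 (hX hi)))).1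
    linarith
  have h4 : (X.card : ℝ) * (V.card * a ^ 2) ≤ X.card * ε := by gcongr
  linarith

private lemma cnd_up {m : ℕ} {x : ℕ → ℝ} {ε : ℝ} (hx : ∀ i < m, 0 ≤ x i)
    (hrow : ∀ i < m, |wdeg m x i - 1| ≤ ε) {X Z : Finset ℕ}
    (hX : X ⊆ range m) (hZ : Z ⊆ range m) : WW PA x X Z ≤ (1 + ε) * Z.card := by
  classical
  rw [cnd_WW_comm]
  have h1 := cnd_WW_split x Z hX
  have h2 := cnd_WW_nonneg hx hZ (Finset.sdiff_subset : range m \ X ⊆ range m)
  rw [cnd_WW_row] at h1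
  have h3 : ∑ i ∈ Z, wdeg m x i ≤ (Z.card : ℝ) * (1 + ε) := by
    rw [← nsmul_eq_mul]
    refine Finset.sum_le_card_nsmul _ _ _ fun i hi => ?_
    have := (abs_le.1 (hrow i (Finset.mem_range.1 (hZ hi)))).2
    linarith
  linarith

/-- the general bound -/
private lemma cnd_gen {m : ℕ} {x : ℕ → ℝ} {a ε : ℝ} (hx : ∀ i < m, 0 ≤ x i)
    (ha : ∀ i < m, x i ≤ a) (hrow : ∀ i < m, |wdeg m x i - 1| ≤ ε) {X Y V : Finset ℕ}
    (hX : X ⊆ range m) (hV : V ⊆ range m) (hY : Y ⊆ range m \ V) (hVa : V.card * a ^ 2 ≤ ε) :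
    (1 + ε) * ((X.card : ℝ) + Y.card - (m - V.card)) - 3 * ε * X.card ≤ WW PA x X Y := by
  classical
  have h1 := cnd_WW_split x X hY
  have h2 := cnd_low hx ha hrow hX hV hVa
  have hZ : (range m \ V) \ Y ⊆ range m := Finset.sdiff_subset.trans Finset.sdiff_subset
  have h3 := cnd_up hx hrow hX hZ
  have hVm : V.card ≤ m := by simpa using Finset.card_le_card hV
  have hZc : (((range m \ V) \ Y).card : ℝ) = m - V.card - Y.card := by
    rw [Finset.card_sdiff_of_subset hY, Nat.cast_sub (Finset.card_le_card hY),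
      Finset.card_sdiff_of_subset hV, Finset.card_range, Nat.cast_sub hVm]
  rw [hZc] at h3
  nlinarith

/-- few vertices on the left side -/
private lemma cnd_few {m : ℕ} (hm : 0 < m) {x : ℕ → ℝ} {a ε ε' C₂ η : ℝ} (hx : ∀ i < m, 0 ≤ x i)
    (ha : ∀ i < m, x i ≤ a) (hrow : ∀ i < m, |wdeg m x i - 1| ≤ ε) {X Y V : Finset ℕ}
    (hX : X ⊆ range m) (hV : V ⊆ range m) (hY : Y ⊆ range m \ V) (hVa : V.card * a ^ 2 ≤ ε)
    (hε8 : ε ≤ 1 / 8) (hε' : 0 < ε') (hd : 0 < dd m) (hC₂ : 0 < C₂)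
    (hE2 : ∑ j ∈ range m, (dX PA X j : ℝ) ^ 2 ≤ C₂ * X.card * Real.sqrt (X.card / m) * dd m ^ 2)
    (hXη : (X.card : ℝ) ≤ η * m) (hη : C₂ * Real.sqrt η ≤ ε' ^ 2 / 4)
    (had : a ^ 2 * (ε' / 2 * dd m) ≤ 1 / 4)
    (hk : 0 < (X.card : ℝ) + Y.card - (m - V.card)) :
    (X.card : ℝ) / 2 ≤ WW PA x X Y := by
  classical
  have h1 := cnd_WW_split x X hY
  have h2 := cnd_low hx ha hrow hX hV hVa
  have hZ : (range m \ V) \ Y ⊆ range m := Finset.sdiff_subset.trans Finset.sdiff_subset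
  have hVm : V.card ≤ m := by simpa using Finset.card_le_card hV
  have hZc : (((range m \ V) \ Y).card : ℝ) = m - V.card - Y.card := by
    rw [Finset.card_sdiff_of_subset hY, Nat.cast_sub (Finset.card_le_card hY),
      Finset.card_sdiff_of_subset hV, Finset.card_range, Nat.cast_sub hVm]
  have hZX : ((range m \ V) \ Y).card ≤ X.card := by
    have : (((range m \ V) \ Y).card : ℝ) ≤ X.card := by rw [hZc]; linarith
    exact_mod_cast this
  have h3 := cnd_WW_le hx ha hX hZ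
  have h4 := BlockE.sparse (A := PA) (Z := (range m \ V) \ Y) hε' hd hm hC₂ hE2 hXη hη hZ hZX
  have h5 : a ^ 2 * ∑ j ∈ (range m \ V) \ Y, (dX PA X j : ℝ) ≤ a ^ 2 * (ε' / 2 * X.card * dd m) := by
    gcongr
  have h6 : a ^ 2 * (ε' / 2 * X.card * dd m) = a ^ 2 * (ε' / 2 * dd m) * X.card := by ring
  have h7 : a ^ 2 * (ε' / 2 * dd m) * X.card ≤ 1 / 4 * X.card := by gcongr
  have h8 : ε * X.card ≤ 1 / 8 * (X.card : ℝ) := by gcongr
  nlinarith

/-- expansion -/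
private lemma cnd_exp {m : ℕ} {x : ℕ → ℝ} {b c : ℝ} (hb0 : 0 ≤ b) (hb : ∀ i < m, b ≤ x i)
    {X Y V : Finset ℕ} (hX : X ⊆ range m) (hY : Y ⊆ range m) (hc : 0 < c) (hd : 0 < dd m)
    (hVc : (V.card : ℝ) ≤ c / 2 * m)
    (hexp : (X.card : ℝ) + c * m ≤
      (((range m).filter (fun j => c * dd m ≤ (dX PA X j : ℝ))).card : ℝ))
    (hk : 0 < (X.card : ℝ) + Y.card - (m - V.card)) :
    b ^ 2 * (c / 2 * m * (c * dd m)) ≤ WW PA x X Y := by
  classical
  refine le_trans ?_ (cnd_WW_ge hb0 hb hX hY)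
  refine mul_le_mul_of_nonneg_left ?_ (sq_nonneg b)
  set P := (range m).filter (fun j => c * dd m ≤ (dX PA X j : ℝ)) with hP
  have h2 : (P.card : ℝ) ≤ (P ∩ Y).card + (m - Y.card) := by
    have h3 : P.card ≤ (P ∩ Y).card + (range m \ Y).card := by
      rw [← Finset.card_union_of_disjoint]
      · apply Finset.card_le_card
        intro j hj
        rw [Finset.mem_union, Finset.mem_inter, Finset.mem_sdiff]
        by_cases hjY : j ∈ Y
        · exact Or.inl ⟨hj, hjY⟩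
        · exact Or.inr ⟨(Finset.mem_filter.1 hj).1, hjY⟩
      · rw [Finset.disjoint_left]
        intro j hj hj'
        exact (Finset.mem_sdiff.1 hj').2 (Finset.mem_inter.1 hj).2
    have h4 : ((range m \ Y).card : ℝ) = m - Y.card := by
      rw [Finset.card_sdiff_of_subset hY, Finset.card_range, Nat.cast_sub]
      simpa using Finset.card_le_card hY
    rw [← h4]
    exact_mod_cast h3
  have h3 : c / 2 * m ≤ ((P ∩ Y).card : ℝ) := by linarith
  have h4 : ((P ∩ Y).card : ℝ) * (c * dd m) ≤ ∑ j ∈ Y, (dX PA X j : ℝ) := by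
    calc ((P ∩ Y).card : ℝ) * (c * dd m) ≤ ∑ j ∈ P ∩ Y, (dX PA X j : ℝ) := by
          rw [← nsmul_eq_mul]
          exact Finset.card_nsmul_le_sum _ _ _ fun j hj =>
            (Finset.mem_filter.1 (Finset.mem_inter.1 hj).1).2
      _ ≤ _ := Finset.sum_le_sum_of_subset_of_nonneg Finset.inter_subset_right
          (fun _ _ _ => by positivity)
  exact (by gcongr : c / 2 * m * (c * dd m) ≤ ((P ∩ Y).card : ℝ) * (c * dd m)).trans h4

private lemma cnd_arith {ε δ t k N W : ℝ} (hε : 0 ≤ ε) (hδ : 0 ≤ δ) (hδ1 : δ ≤ 1)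
    (hδε : δ * t = 12 * ε) (hk : 0 ≤ k) (htN : t * N ≤ k)
    (h1 : (1 + ε) * k - 3 * ε * N ≤ W) : (1 + δ / 2) * k ≤ (1 + δ) * W := by
  have h2 : δ * (t * N) ≤ δ * k := mul_le_mul_of_nonneg_left htN hδ
  have h3 : 12 * (ε * N) ≤ δ * k := by
    calc 12 * (ε * N) = δ * t * N := by rw [hδε]; ring
      _ = δ * (t * N) := by ring
      _ ≤ δ * k := h2
  have h4 : (1 + δ) * ((1 + ε) * k - 3 * ε * N) ≤ (1 + δ) * W :=
    mul_le_mul_of_nonneg_left h1 (by linarith)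
  have h0 : 0 ≤ ε * k := mul_nonneg hε hk
  have h5 : k - δ * k / 4 ≤ (1 + ε) * k - 3 * ε * N := by
    have e : (1 + ε) * k - 3 * ε * N = k + ε * k - 3 * (ε * N) := by ring
    rw [e]; linarith
  have h6 : (1 + δ) * (k - δ * k / 4) ≤ (1 + δ) * ((1 + ε) * k - 3 * ε * N) :=
    mul_le_mul_of_nonneg_left h5 (by linarith)
  have h7 : (1 + δ / 2) * k ≤ (1 + δ) * (k - δ * k / 4) := by
    have h8 : δ * (δ * k) ≤ 1 * (δ * k) :=
      mul_le_mul_of_nonneg_right hδ1 (mul_nonneg hδ hk)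
    have e : (1 + δ) * (k - δ * k / 4) = k + 3 / 4 * (δ * k) - δ * (δ * k) / 4 := by ring
    have e' : (1 + δ / 2) * k = k + δ * k / 2 := by ring
    rw [e, e']; linarith
  linarith

private lemma cnd_enough {δ k W : ℝ} (hδ : 0 ≤ δ) (hδ1 : δ ≤ 1) (hk : 0 ≤ k) (h : 2 * k ≤ W) :
    (1 + δ / 2) * k ≤ (1 + δ) * W := by
  have h1 : δ * k ≤ 1 * k := mul_le_mul_of_nonneg_right hδ1 hk
  have h2 : 0 ≤ δ * W := mul_nonneg hδ (by linarith)
  have e : (1 + δ / 2) * k = k + δ * k / 2 := by ring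
  have e' : (1 + δ) * W = W + δ * W := by ring
  rw [e, e']; linarith

theorem main_Cnd : Stmt_Cnd := by
  intro C hC
  obtain ⟨C₂, hC₂, hE2⟩ := sum_dX_sq pg_PA
  obtain ⟨ε', hε', hε'C⟩ : ∃ ε' : ℝ, 0 < ε' ∧ C ^ 2 * ε' = 1 / 4 :=
    ⟨1 / (4 * C ^ 2), by positivity, by field_simp⟩
  obtain ⟨η, hη0, hη⟩ : ∃ η : ℝ, 0 < η ∧ C₂ * Real.sqrt η ≤ ε' ^ 2 / 4 := by
    refine ⟨(ε' ^ 2 / (4 * C₂)) ^ 2, by positivity, ?_⟩
    rw [Real.sqrt_sq (by positivity)]
    apply le_of_eq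
    field_simp
  obtain ⟨c, hc, hexp⟩ := pg_PA.exp (η / 2) (by positivity)
  obtain ⟨t, ht, ht1, ht2, ht3⟩ : ∃ t : ℝ, 0 < t ∧ t ≤ 1 / 4 ∧ t ≤ η / 2 ∧ 2 * t ≤ c ^ 2 / C ^ 2 :=
    ⟨min (1 / 4) (min (η / 2) (c ^ 2 / C ^ 2 / 2)), by positivity, min_le_left _ _,
      (min_le_right _ _).trans (min_le_left _ _), by
        have := (min_le_right (1 / 4 : ℝ) (min (η / 2) (c ^ 2 / C ^ 2 / 2))).trans
          (min_le_right _ _)
        linarith⟩
  refine ⟨12 * C ^ 2 / t, by positivity, ?_⟩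
  -- the small quantity
  have hsml : ∀ B : ℝ, 0 < B → ∀ᶠ m : ℕ in atTop,
      B * Real.log m * ((m : ℝ) ^ (0.9 : ℝ) + 1) ≤ m := by
    intro B hB
    filter_upwards [log_le_rpow (δ := 0.1) (by norm_num) (K := 2 * B) (by positivity),
      eventually_ge_atTop 1] with m h1 h2
    have hm1 : (1 : ℝ) ≤ m := by exact_mod_cast h2
    have hm0 : (0 : ℝ) < m := by linarith
    have h3 : (1 : ℝ) ≤ (m : ℝ) ^ (0.9 : ℝ) := Real.one_le_rpow hm1 (by norm_num)
    have h4 : (m : ℝ) ^ (0.1 : ℝ) * (m : ℝ) ^ (0.9 : ℝ) = m := by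
      rw [← Real.rpow_add hm0]; norm_num
    have hl : 0 ≤ Real.log m := Real.log_nonneg hm1
    calc B * Real.log m * ((m : ℝ) ^ (0.9 : ℝ) + 1)
        ≤ B * Real.log m * ((m : ℝ) ^ (0.9 : ℝ) + (m : ℝ) ^ (0.9 : ℝ)) := by gcongr
      _ = (2 * B * Real.log m) * (m : ℝ) ^ (0.9 : ℝ) := by ring
      _ ≤ (m : ℝ) ^ (0.1 : ℝ) * (m : ℝ) ^ (0.9 : ℝ) := by gcongr
      _ = m := h4
  filter_upwards [hE2, hexp, eventually_ge_atTop 3, hsml (8 * C ^ 2) (by positivity),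
    hsml (12 * C ^ 2 / t) (by positivity),
    dd_lower (δ := 0.1) (by norm_num) (K := 2 / c) (by positivity), dd_le] with
    m hE2 hexp hm3 hs8 hs12 hdl hdle x hWt hRow1 U V hsm X hX Y hY hn
  classical
  obtain ⟨hU, hV, hUV, husm⟩ := hsm
  have hm0 : (0 : ℝ) < m := by positivity
  have hm1 : (1 : ℝ) < m := by exact_mod_cast (by omega : 1 < m)
  have hL1 : 1 ≤ Real.log m := by
    rw [Real.le_log_iff_exp_le hm0]
    have h3 : (3 : ℝ) ≤ m := by exact_mod_cast hm3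
    have := Real.exp_one_lt_d9
    linarith
  have hL0 : 0 < Real.log m := by linarith
  have hd := dd_pos (m := m) (by omega)
  have hXm : X ⊆ range m := hX.trans Finset.sdiff_subset
  have hYm : Y ⊆ range m := hY.trans Finset.sdiff_subset
  have hUm : U.card ≤ m := by simpa using Finset.card_le_card hU
  -- the weights
  set L : ℝ := Real.log m with hL
  set ρ : ℝ := √(L / m) with hρ
  have hρ2 : ρ ^ 2 = L / m := Real.sq_sqrt (by positivity)
  have hρ0 : 0 < ρ := Real.sqrt_pos.2 (by positivity)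
  have hdd : ρ ^ 2 * dd m = 2 := by
    rw [hρ2, dd, ← hL]
    field_simp
  have hlo : ∀ i < m, C⁻¹ * ρ ≤ x i := fun i hi => (hWt i hi).1
  have hup : ∀ i < m, x i ≤ C * ρ := fun i hi => (hWt i hi).2
  have hx0 : ∀ i < m, 0 ≤ x i := fun i hi => (by positivity : 0 ≤ C⁻¹ * ρ).trans (hlo i hi)
  -- `ε` and `δ`
  obtain ⟨ε, hε⟩ : ∃ ε : ℝ, ε = C ^ 2 * (L * (U.card + 1) / m) := ⟨_, rfl⟩
  have hε0 : 0 < ε := by rw [hε]; positivity
  have hRow : ∀ i < m, |wdeg m x i - 1| ≤ ε := by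
    intro i hi
    rw [hRow1 i hi, sub_self, abs_zero]
    exact hε0.le
  set δ : ℝ := 12 * C ^ 2 / t * (L * (U.card + 1) / m) with hδ
  have hδ0 : 0 < δ := by positivity
  have hU1 : (U.card : ℝ) + 1 ≤ (m : ℝ) ^ (0.9 : ℝ) + 1 := by linarith
  have hε8 : ε ≤ 1 / 8 := by
    have h1 : 8 * C ^ 2 * L * (U.card + 1) ≤ m := le_trans (by gcongr) hs8
    have h2 : ε * 8 = 8 * C ^ 2 * L * (U.card + 1) / m := by rw [hε]; ring
    have h3 : 8 * C ^ 2 * L * (U.card + 1) / m ≤ 1 := by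
      rw [div_le_one hm0]; exact h1
    linarith
  have hδ1 : δ ≤ 1 := by
    have h1 : 12 * C ^ 2 / t * L * (U.card + 1) ≤ m := le_trans (by gcongr) hs12
    have h2 : δ = 12 * C ^ 2 / t * L * (U.card + 1) / m := by rw [hδ]; ring
    rw [h2, div_le_one hm0]
    exact h1
  have hδε : δ * t = 12 * ε := by
    rw [hδ, hε]
    field_simp
  -- removed sets
  have hUa : (U.card : ℝ) * (C * ρ) ^ 2 ≤ ε := by
    rw [mul_pow, hρ2, hε]
    have h1 : (U.card : ℝ) * (C ^ 2 * (L / m)) = C ^ 2 * (L * U.card / m) := by ring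
    rw [h1]
    gcongr
    linarith
  have hVa : (V.card : ℝ) * (C * ρ) ^ 2 ≤ ε := by rw [← hUV]; exact hUa
  have hpow : (m : ℝ) ^ (1 - 0.1 : ℝ) = (m : ℝ) ^ (0.9 : ℝ) := by norm_num
  rw [hpow] at hdl
  have hUc : (U.card : ℝ) ≤ c / 2 * m := by
    have h2 : (m : ℝ) ^ (0.9 : ℝ) ≤ c / 2 * m := by
      calc (m : ℝ) ^ (0.9 : ℝ) = c / 2 * (2 / c * (m : ℝ) ^ (0.9 : ℝ)) := by field_simp
        _ ≤ c / 2 * m := by
          gcongr
          exact hdl.trans hdle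
    exact husm.trans h2
  -- `k`
  have hk : 0 < (X.card : ℝ) + Y.card - (m - U.card) := by
    have h1 : ((m - U.card : ℕ) : ℝ) < X.card + Y.card := by exact_mod_cast hn
    rw [Nat.cast_sub hUm] at h1
    linarith
  have hkV : (X.card : ℝ) + Y.card - (m - U.card) = X.card + Y.card - (m - V.card) := by
    rw [hUV]
  have hkU : (X.card : ℝ) + Y.card - (m - U.card) = Y.card + X.card - (m - U.card) := by ring
  set k : ℝ := (X.card : ℝ) + Y.card - (m - U.card) with hkdef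
  have hcg : WW PA x X Y = WW PA x Y X := cnd_WW_comm x X Y
  have hA1 := cnd_gen hx0 hup hRow hXm hV hY hVa
  rw [← hkV] at hA1
  have hA2 := cnd_gen hx0 hup hRow hYm hU hX hUa
  rw [← hkU, ← hcg] at hA2
  set W : ℝ := WW PA x X Y with hW
  -- the general case
  have hgen : ∀ N : ℝ, 0 ≤ N → t * N ≤ k → (1 + ε) * k - 3 * ε * N ≤ W →
      (1 + δ / 2) * k ≤ (1 + δ) * W :=
    fun N hN htN h1 => cnd_arith hε0.le hδ0.le hδ1 hδε hk.le htN h1
  show (1 + δ / 2) * k ≤ (1 + δ) * W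
  by_cases hc1 : t * X.card ≤ k
  · exact hgen _ (Nat.cast_nonneg _) hc1 hA1
  by_cases hc2 : t * Y.card ≤ k
  · exact hgen _ (Nat.cast_nonneg _) hc2 hA2
  push Not at hc1 hc2
  -- enough: `2 k ≤ W`
  refine cnd_enough hδ0.le hδ1 hk.le ?_
  have had : (C * ρ) ^ 2 * (ε' / 2 * dd m) ≤ 1 / 4 := by
    have : (C * ρ) ^ 2 * (ε' / 2 * dd m) = C ^ 2 * ε' * (ρ ^ 2 * dd m) / 2 := by ring
    rw [this, hdd, hε'C]
    norm_num
  by_cases hx1 : (X.card : ℝ) ≤ η * m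
  · have h := cnd_few (by omega) hx0 hup hRow hXm hV hY hVa hε8 hε' hd hC₂ (hE2 X hXm) hx1 hη had
      (by rw [← hkV]; exact hk)
    have h2 : t * X.card ≤ 1 / 4 * X.card := by gcongr
    linarith
  by_cases hy1 : (Y.card : ℝ) ≤ η * m
  · have h := cnd_few (by omega) hx0 hup hRow hYm hU hX hUa hε8 hε' hd hC₂ (hE2 Y hYm) hy1 hη had
      (by rw [← hkU]; exact hk)
    rw [← hcg] at h
    have h2 : t * Y.card ≤ 1 / 4 * Y.card := by gcongr
    linarith
  push Not at hx1 hy1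
  have hXc : (X.card : ℝ) ≤ m := by
    have : X.card ≤ m := by simpa using Finset.card_le_card hXm
    exact_mod_cast this
  have htm : t * X.card ≤ t * m := by gcongr
  have htm2 : t * m ≤ η / 2 * m := by gcongr
  have hU0 : (0 : ℝ) ≤ U.card := Nat.cast_nonneg _
  have eη : η * m = 2 * (η / 2 * m) := by ring
  have hηm : 0 < η / 2 * m := by positivity
  have hx2 : (X.card : ℝ) ≤ (1 - η / 2) * m := by
    have e1 : (X.card : ℝ) = k + (m - U.card) - Y.card := by rw [hkdef]; ring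
    have e2 : (1 - η / 2) * m = m - η / 2 * m := by ring
    rw [e2]
    linarith
  have hx3 : η / 2 * m ≤ (X.card : ℝ) := by linarith
  have hexp' := cnd_exp (b := C⁻¹ * ρ) (V := U) (by positivity) hlo hXm hYm hc hd hUc
    (hexp X hXm hx3 hx2) hk
  have h1 : (C⁻¹ * ρ) ^ 2 * (c / 2 * m * (c * dd m)) = c ^ 2 / C ^ 2 * m := by
    have : (C⁻¹ * ρ) ^ 2 * (c / 2 * m * (c * dd m)) =
        c ^ 2 / C ^ 2 * m * (ρ ^ 2 * dd m) / 2 := by
      field_simp
    rw [this, hdd]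
    ring
  rw [h1] at hexp'
  have h2 : 2 * t * m ≤ c ^ 2 / C ^ 2 * m := by gcongr
  linarith

end Pool.Agent.PCZ
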