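import Pool.Agent.PCZ.Stmts
import Pool.Agent.PC.Switch

/-!
# PCZ, module Few: few cycles
-/

set_option autoImplicit false

namespace Pool.Agent.PCZ

open Finset Filter Pool.Agent.PC Pool.Agent.PCX Pool.Agent.PrimeCircle

open scoped Classical in
/-- the number of cycles is the sum of the reciprocals of the periods -/
theorem Few_cycles {α : Type*} [Fintype α] (τ : Equiv.Perm α) :
    (Nat.card (Quotient (Equiv.Perm.SameCycle.setoid τ)) : ℝ) ≤
      ∑ x, 1 / (Function.minimalPeriod τ x : ℝ) := by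
  have : Fintype (Quotient (Equiv.Perm.SameCycle.setoid τ)) := Fintype.ofFinite _
  set Q := Quotient (Equiv.Perm.SameCycle.setoid τ) with hQ
  let π : α → Q := fun x => Quotient.mk (Equiv.Perm.SameCycle.setoid τ) x
  let fib : Q → Finset α := fun q => univ.filter (fun x => π x = q)
  have hper : ∀ x : α, Function.minimalPeriod τ x ≤ (fib (π x)).card := by
    intro x
    have h1 : ((Finset.range (Function.minimalPeriod τ x)).image (fun i => τ^[i] x)) ⊆ fib (π x) := by
      intro y hy
      rw [Finset.mem_image] at hy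
      obtain ⟨i, _, rfl⟩ := hy
      rw [Finset.mem_filter]
      refine ⟨Finset.mem_univ _, ?_⟩
      apply Quotient.sound
      change Equiv.Perm.SameCycle τ _ _
      refine Equiv.Perm.SameCycle.symm ⟨(i : ℤ), ?_⟩
      rw [zpow_natCast, Equiv.Perm.iterate_eq_pow]
    have h2 := Finset.card_le_card h1
    rw [Finset.card_image_of_injOn, Finset.card_range] at h2
    · exact h2
    · intro i hi j hj hij
      rw [Finset.mem_coe, Finset.mem_range] at hi hj
      exact Function.iterate_injOn_Iio_minimalPeriod (Set.mem_Iio.2 hi) (Set.mem_Iio.2 hj) hij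
  have hpos : ∀ x : α, 0 < Function.minimalPeriod τ x := fun x =>
    Function.minimalPeriod_pos_of_mem_periodicPts (τ.injective.mem_periodicPts x)
  have h1 : ∑ q : Q, (∑ x ∈ fib q, 1 / ((fib q).card : ℝ)) = (Nat.card Q : ℝ) := by
    rw [Nat.card_eq_fintype_card, ← Finset.card_univ, Finset.card_eq_sum_ones]
    push_cast
    refine Finset.sum_congr rfl fun q _ => ?_
    rw [Finset.sum_const, nsmul_eq_mul]
    have h2 : 0 < (fib q).card := by
      apply Finset.card_pos.mpr
      refine ⟨q.out, ?_⟩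
      rw [Finset.mem_filter]
      exact ⟨Finset.mem_univ _, Quotient.out_eq q⟩
    have h3 : ((fib q).card : ℝ) ≠ 0 := by
      exact_mod_cast h2.ne'
    field_simp
  rw [← h1]
  have h2 : ∑ x, 1 / (Function.minimalPeriod τ x : ℝ) =
      ∑ q : Q, ∑ x ∈ fib q, 1 / (Function.minimalPeriod τ x : ℝ) :=
    (Finset.sum_fiberwise_of_maps_to (g := π) (fun x _ => Finset.mem_univ _) _).symm
  rw [h2]
  refine Finset.sum_le_sum fun q _ => Finset.sum_le_sum fun x hx => ?_
  rw [Finset.mem_filter] at hx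
  have h3 := hper x
  rw [hx.2] at h3
  have h4 : (0 : ℝ) < (Function.minimalPeriod τ x : ℝ) := by exact_mod_cast hpos x
  exact one_div_le_one_div_of_le h4 (by exact_mod_cast h3)

open BlockH in
open scoped Classical in
/-- deterministic core -/
theorem Few_core (A : ℕ → ℕ → Prop) (S T : Finset ℕ) (D k m N : ℕ) (P B : ℝ) (hP : 0 < P)
    (hS : S.card ≤ m) (hDpos : 0 < D)
    (hD : ∀ (f : S ≃ T) (x : S), (univ.filter (fun y : S => A y (f x))).card ≤ D)
    (hgood : ∀ e ∈ pm A S T, ∀ W : Finset S, W.card ≤ N → ∀ u,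
      P * (D : ℝ) ^ k ≤ ((good (RR A e) W (k + 1) u).card : ℝ))
    (hB0 : 0 < B) (hB : (m : ℝ) * ((1 + Real.log ((N + 1 : ℕ) : ℝ)) / P + 1 / ((N + 1 : ℕ) : ℝ)) ≤ B / 2)
    (e1 : S ≃ T) :
    (pm A S T).card ≤ 2 * ((pm A S T).filter (fun e => (cyc e1 e : ℝ) ≤ B)).card := by
  have hDk : (0 : ℝ) < (D : ℝ) ^ k := by
    have : (0 : ℝ) < D := by exact_mod_cast hDpos
    positivity
  set MM := pm A S T with hMM
  have hper : ∀ (x : S) (l : ℕ), l ≤ N →
      ((MM.filter (fun e => Function.minimalPeriod (e.trans e1.symm) x = l + 1)).card : ℝ) ≤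
        MM.card / P := by
    intro x l hl
    have h1 := period_le A S T D k (P * (D : ℝ) ^ k) N hD hgood e1 x l hl
    rw [← mul_assoc] at h1
    rw [le_div_iff₀ hP]
    exact le_of_mul_le_mul_right h1 hDk
  -- one point
  have hx : ∀ x : S, ∑ e ∈ MM, 1 / (Function.minimalPeriod (e.trans e1.symm) x : ℝ) ≤
      MM.card * ((1 + Real.log ((N + 1 : ℕ) : ℝ)) / P + 1 / ((N + 1 : ℕ) : ℝ)) := by
    intro x
    have h1 : ∀ e ∈ MM, 1 / (Function.minimalPeriod (e.trans e1.symm) x : ℝ) ≤
        ∑ l ∈ range (N + 1), (if Function.minimalPeriod (e.trans e1.symm) x = l + 1 then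
          1 / ((l + 1 : ℕ) : ℝ) else 0) + 1 / ((N + 1 : ℕ) : ℝ) := by
      intro e _
      have hpos : 0 < Function.minimalPeriod (e.trans e1.symm) x :=
        Function.minimalPeriod_pos_of_mem_periodicPts
          ((e.trans e1.symm).injective.mem_periodicPts x)
      by_cases h2 : Function.minimalPeriod (e.trans e1.symm) x ≤ N + 1
      · have h3 : 1 / (Function.minimalPeriod (e.trans e1.symm) x : ℝ) ≤
            ∑ l ∈ range (N + 1), (if Function.minimalPeriod (e.trans e1.symm) x = l + 1 then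
              1 / ((l + 1 : ℕ) : ℝ) else 0) := by
          have h4 : Function.minimalPeriod (e.trans e1.symm) x - 1 ∈ range (N + 1) := by
            rw [mem_range]
            omega
          have h5 := Finset.single_le_sum (f := fun l : ℕ =>
            (if Function.minimalPeriod (e.trans e1.symm) x = l + 1 then
              1 / ((l + 1 : ℕ) : ℝ) else 0)) (fun l _ => by
                split_ifs
                · positivity
                · exact le_rfl) h4
          have h6 : Function.minimalPeriod (e.trans e1.symm) x =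
              Function.minimalPeriod (e.trans e1.symm) x - 1 + 1 := by omega
          rw [if_pos h6, ← h6] at h5
          exact h5
        have h7 : (0 : ℝ) ≤ 1 / ((N + 1 : ℕ) : ℝ) := by positivity
        linarith
      · push Not at h2
        have h3 : (0 : ℝ) ≤ ∑ l ∈ range (N + 1),
            (if Function.minimalPeriod (e.trans e1.symm) x = l + 1 then
              1 / ((l + 1 : ℕ) : ℝ) else 0) := by
          refine Finset.sum_nonneg fun l _ => ?_
          split_ifs
          · positivity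
          · exact le_rfl
        have h4 : 1 / (Function.minimalPeriod (e.trans e1.symm) x : ℝ) ≤ 1 / ((N + 1 : ℕ) : ℝ) :=
          one_div_le_one_div_of_le (by positivity) (by exact_mod_cast h2.le)
        linarith
    refine (Finset.sum_le_sum h1).trans ?_
    rw [Finset.sum_add_distrib, Finset.sum_comm, Finset.sum_const, nsmul_eq_mul, mul_add]
    gcongr
    have h2 : ∀ l ∈ range (N + 1), ∑ e ∈ MM,
        (if Function.minimalPeriod (e.trans e1.symm) x = l + 1 then 1 / ((l + 1 : ℕ) : ℝ) else 0) ≤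
        MM.card / P * (1 / ((l + 1 : ℕ) : ℝ)) := by
      intro l hl
      rw [mem_range] at hl
      rw [← Finset.sum_filter, Finset.sum_const, nsmul_eq_mul]
      gcongr
      exact hper x l (by omega)
    refine (Finset.sum_le_sum h2).trans ?_
    rw [← Finset.mul_sum]
    have h3 : ∑ l ∈ range (N + 1), 1 / ((l + 1 : ℕ) : ℝ) ≤ 1 + Real.log ((N + 1 : ℕ) : ℝ) := by
      have h4 := harmonic_le_one_add_log (N + 1)
      unfold harmonic at h4
      push_cast at h4 ⊢
      simp only [one_div]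
      exact h4
    calc (MM.card : ℝ) / P * ∑ l ∈ range (N + 1), 1 / ((l + 1 : ℕ) : ℝ)
        ≤ MM.card / P * (1 + Real.log ((N + 1 : ℕ) : ℝ)) := by gcongr
      _ = MM.card * ((1 + Real.log ((N + 1 : ℕ) : ℝ)) / P) := by ring
  have htot : ∑ e ∈ MM, (cyc e1 e : ℝ) ≤ MM.card * (B / 2) := by
    calc ∑ e ∈ MM, (cyc e1 e : ℝ) ≤ ∑ e ∈ MM, ∑ x : S,
          1 / (Function.minimalPeriod (e.trans e1.symm) x : ℝ) :=
          Finset.sum_le_sum fun e _ => Few_cycles (e.trans e1.symm)
      _ = ∑ x : S, ∑ e ∈ MM, 1 / (Function.minimalPeriod (e.trans e1.symm) x : ℝ) :=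
          Finset.sum_comm
      _ ≤ ∑ _x : S, (MM.card * ((1 + Real.log ((N + 1 : ℕ) : ℝ)) / P + 1 / ((N + 1 : ℕ) : ℝ)) : ℝ) :=
          Finset.sum_le_sum fun x _ => hx x
      _ = S.card * (MM.card * ((1 + Real.log ((N + 1 : ℕ) : ℝ)) / P + 1 / ((N + 1 : ℕ) : ℝ))) := by
          rw [Finset.sum_const, nsmul_eq_mul, Finset.card_univ, Fintype.card_coe]
      _ ≤ m * (MM.card * ((1 + Real.log ((N + 1 : ℕ) : ℝ)) / P + 1 / ((N + 1 : ℕ) : ℝ))) := by
          have : (S.card : ℝ) ≤ m := by exact_mod_cast hS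
          have h0 : 0 ≤ Real.log ((N + 1 : ℕ) : ℝ) := Real.log_natCast_nonneg _
          gcongr
      _ = MM.card * (m * ((1 + Real.log ((N + 1 : ℕ) : ℝ)) / P + 1 / ((N + 1 : ℕ) : ℝ))) := by ring
      _ ≤ MM.card * (B / 2) := by gcongr
  set bad := MM.filter (fun e => ¬ (cyc e1 e : ℝ) ≤ B) with hbad
  have hbadsum : (bad.card : ℝ) * B ≤ ∑ e ∈ MM, (cyc e1 e : ℝ) := by
    calc (bad.card : ℝ) * B = ∑ e ∈ bad, B := by rw [Finset.sum_const, nsmul_eq_mul]
      _ ≤ ∑ e ∈ bad, (cyc e1 e : ℝ) := by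
          refine Finset.sum_le_sum fun e he => ?_
          rw [hbad, Finset.mem_filter, not_le] at he
          exact he.2.le
      _ ≤ _ := Finset.sum_le_sum_of_subset_of_nonneg (Finset.filter_subset _ _)
          (fun _ _ _ => Nat.cast_nonneg _)
  have hfin : 2 * (bad.card : ℝ) ≤ MM.card := by
    have h1 : (2 * (bad.card : ℝ)) * B ≤ MM.card * B := by linarith
    exact le_of_mul_le_mul_right h1 hB0
  have hsplit := Finset.card_filter_add_card_filter_not (s := MM) (fun e => (cyc e1 e : ℝ) ≤ B)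
  rw [← hbad] at hsplit
  have hfin' : 2 * bad.card ≤ MM.card := by exact_mod_cast hfin
  omega

open BlockH in
open scoped Classical in
theorem main_Few : Stmt_Gro → Stmt_Few := by
  intro hGro A h
  obtain ⟨c, hc, hG⟩ := hGro A h
  refine ⟨2 * (2 + 1 / (2 * c)), by positivity, ?_⟩
  have hlog : Tendsto (fun m : ℕ => Real.log m) atTop atTop :=
    Real.tendsto_log_atTop.comp tendsto_natCast_atTop_atTop
  filter_upwards [hG, h.deg (1 / 4) (by norm_num), sqrt_le_dd, eventually_ge_atTop 2,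
    hlog.eventually_ge_atTop 1, hlog.eventually_ge_atTop (4 * c)] with m hw hdeg hsq hm hL1 hL4
  obtain ⟨k, hw⟩ := hw
  intro U V hS M1
  rw [card_Mt, card_Mt_filter A _ _ (fun e => (cyc M1.1 e : ℝ) ≤
    2 * (2 + 1 / (2 * c)) * Real.log m ^ 6)]
  have hdd := dd_pos hm
  have hDpos : 0 < ⌊2 * dd m⌋₊ := by
    apply Nat.floor_pos.2
    have h1 : (1 : ℝ) ≤ Real.sqrt m := by
      rw [Real.one_le_sqrt]
      exact_mod_cast (by omega : 1 ≤ m)
    linarith
  have hm2 : (2 : ℝ) ≤ m := by exact_mod_cast hm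
  have hm0 : (0 : ℝ) < m := by linarith
  have hL0 : 0 < Real.log m := by linarith
  have hddm : dd m = 2 * m / Real.log m := rfl
  have hNl : c * dd m < ((⌊c * dd m⌋₊ + 1 : ℕ) : ℝ) := by
    push_cast
    exact Nat.lt_floor_add_one _
  have hNu : ((⌊c * dd m⌋₊ + 1 : ℕ) : ℝ) ≤ m := by
    push_cast
    have h1 : (⌊c * dd m⌋₊ : ℝ) ≤ c * dd m := Nat.floor_le (by positivity)
    have h2 : c * dd m ≤ m / 2 := by
      rw [hddm, mul_div_assoc', div_le_iff₀ hL0]
      nlinarith
    linarith
  refine Few_core A _ _ ⌊2 * dd m⌋₊ k m ⌊c * dd m⌋₊ ((m : ℝ) / Real.log m ^ 5) _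
    (by positivity) ?_ hDpos ?_ ?_ (by positivity) ?_ M1.1
  · refine (Finset.card_le_card Finset.sdiff_subset).trans ?_
    rw [Finset.card_range]
  · intro f x
    apply Nat.le_floor
    have hfx : (f x : ℕ) < m := Finset.mem_range.1 (Finset.mem_sdiff.1 (f x).2).1
    have h1 : (univ.filter (fun y : (range m \ U : Finset ℕ) => A y (f x))).card ≤
        dX A (range m) (f x) := by
      rw [card_filter_map A (fun y : (range m \ U : Finset ℕ) => (y : ℕ)) Subtype.val_injective]
      exact dX_mono A (map_sub1 _) _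
    have h2 : ((univ.filter (fun y : (range m \ U : Finset ℕ) => A y (f x))).card : ℝ) ≤
        dX A (range m) (f x) := by exact_mod_cast h1
    have h4 := (hdeg _ hfx).2
    linarith
  · intro e _ W hW u
    have hW' : (W.card : ℝ) ≤ c * dd m := by
      have h1 : (W.card : ℝ) ≤ (⌊c * dd m⌋₊ : ℝ) := by exact_mod_cast hW
      exact h1.trans (Nat.floor_le (by positivity))
    exact hw U V hS e W u hW'
  · set L := Real.log m with hL
    have hN0 : (0 : ℝ) < ((⌊c * dd m⌋₊ + 1 : ℕ) : ℝ) := by positivity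
    have h1 : Real.log ((⌊c * dd m⌋₊ + 1 : ℕ) : ℝ) ≤ L := Real.log_le_log hN0 hNu
    have h2 : 1 / ((⌊c * dd m⌋₊ + 1 : ℕ) : ℝ) ≤ 1 / (c * dd m) :=
      one_div_le_one_div_of_le (by positivity) hNl.le
    calc (m : ℝ) * ((1 + Real.log ((⌊c * dd m⌋₊ + 1 : ℕ) : ℝ)) / (m / L ^ 5) +
          1 / ((⌊c * dd m⌋₊ + 1 : ℕ) : ℝ))
        ≤ m * ((1 + L) / (m / L ^ 5) + 1 / (c * dd m)) := by gcongr
      _ = L ^ 5 * (1 + L) + L / (2 * c) := by
          rw [hddm]
          field_simp
      _ ≤ L ^ 6 * 2 + L ^ 6 * (1 / (2 * c)) := by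
          have h3 : L ^ 5 ≤ L ^ 6 := pow_le_pow_right₀ hL1 (by norm_num)
          have h4 : L ≤ L ^ 6 := le_self_pow₀ hL1 (by norm_num)
          have h5 : L / (2 * c) = L * (1 / (2 * c)) := by ring
          rw [h5]
          have h6 : L * (1 / (2 * c)) ≤ L ^ 6 * (1 / (2 * c)) := by gcongr
          have h7 : L ^ 5 * (1 + L) = L ^ 5 + L ^ 6 := by ring
          linarith
      _ = 2 * (2 + 1 / (2 * c)) * L ^ 6 / 2 := by ring

end Pool.Agent.PCZ
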