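import Pool.Agent.PCZ.Stmts
import Pool.Agent.PC.CoreLower

/-!
# [Gro] many closed walks with distinct vertices, sharp form
-/

set_option autoImplicit false

namespace Pool.Agent.PCZ

open Finset Filter Pool.Agent.PC Pool.Agent.PCX Pool.Agent.PrimeCircle Pool.Agent.PC.BlockH
open scoped Classical

section abstract_part

variable {α : Type*} [Fintype α] [DecidableEq α]

private lemma gro_phase1 (R : α → α → Prop) (W : Finset α) (u : α) (m κ cp L d E : ℝ) (hm : 0 < m)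
    (hL : 1 ≤ L) (hd : 0 < d) (hκ : κ = (cp / 2) ^ 2) (hcp : 0 < cp) (hκ1 : κ ≤ 1)
    (h0 : m / L ≤ ((univ.filter (fun x => x ∉ W ∧ R u x)).card : ℝ))
    (hpop : ∀ X : Finset α, X.Nonempty → cp * Real.sqrt (X.card * m) - E ≤
      ((univ.filter (fun x' => x' ∉ W ∧ X.card * d / (8 * m) ≤
        ((X.filter (fun x => R x x')).card : ℝ))).card : ℝ))
    (hE : E ≤ cp / 2 * Real.sqrt (κ / L * m * m)) (i : ℕ) :
    ∃ X : Finset α, (∀ x ∈ X, x ∉ W) ∧ κ * (1 / L) ^ ((1 / 2 : ℝ) ^ i) * m ≤ (X.card : ℝ) ∧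
      ∀ x ∈ X, (κ * d / 8) ^ i * (1 / L) ^ (2 - 2 * (1 / 2 : ℝ) ^ i) ≤ (cnt R W i u x : ℝ) := by
  have hκ0 : 0 < κ := by rw [hκ]; positivity
  have hL0 : 0 < L := by linarith
  induction i with
  | zero =>
    refine ⟨univ.filter (fun x => x ∉ W ∧ R u x), fun x hx => (Finset.mem_filter.1 hx).2.1, ?_, ?_⟩
    · rw [pow_zero, Real.rpow_one]
      refine le_trans ?_ h0
      calc κ * (1 / L) * m ≤ 1 * (1 / L) * m := by gcongr
        _ = m / L := by ring
    · intro x hx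
      rw [Finset.mem_filter] at hx
      rw [pow_zero, cnt, if_pos hx.2.2]
      norm_num
  | succ i ih =>
    obtain ⟨X, hX1, hX2, hX3⟩ := ih
    have hpow : 1 / L ≤ (1 / L) ^ ((1 / 2 : ℝ) ^ i) := by
      have h1 : (1 / L) ^ (1 : ℝ) ≤ (1 / L) ^ ((1 / 2 : ℝ) ^ i) := by
        apply Real.rpow_le_rpow_of_exponent_ge (by positivity)
        · rw [div_le_one hL0]; exact hL
        · exact pow_le_one₀ (by norm_num) (by norm_num)
      rwa [Real.rpow_one] at h1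
    have hXL : κ / L * m ≤ (X.card : ℝ) := by
      refine le_trans ?_ hX2
      calc κ / L * m = κ * (1 / L) * m := by ring
        _ ≤ _ := by gcongr
    have hXpos : (0 : ℝ) < X.card := lt_of_lt_of_le (by positivity) hXL
    have hne : X.Nonempty := by
      rw [← Finset.card_pos]
      exact_mod_cast hXpos
    refine ⟨univ.filter (fun x' => x' ∉ W ∧ X.card * d / (8 * m) ≤
        ((X.filter (fun x => R x x')).card : ℝ)), fun x hx => (Finset.mem_filter.1 hx).2.1, ?_, ?_⟩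
    · refine le_trans ?_ (hpop X hne)
      have h1 : Real.sqrt (κ / L * m * m) ≤ Real.sqrt (X.card * m) := by
        apply Real.sqrt_le_sqrt
        gcongr
      have h2 : κ * (1 / L) ^ ((1 / 2 : ℝ) ^ (i + 1)) * m ≤ cp / 2 * Real.sqrt (X.card * m) := by
        have h3 : Real.sqrt (κ * (1 / L) ^ ((1 / 2 : ℝ) ^ i) * m * m) ≤ Real.sqrt (X.card * m) := by
          apply Real.sqrt_le_sqrt
          gcongr
        have h4 : Real.sqrt (κ * (1 / L) ^ ((1 / 2 : ℝ) ^ i) * m * m) =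
            cp / 2 * (1 / L) ^ ((1 / 2 : ℝ) ^ (i + 1)) * m := by
          have h5 : (1 / L) ^ ((1 / 2 : ℝ) ^ i) = ((1 / L) ^ ((1 / 2 : ℝ) ^ (i + 1))) ^ 2 := by
            rw [← Real.rpow_mul_natCast (by positivity)]
            congr 1
            rw [pow_succ]
            push_cast
            ring
          rw [h5, hκ]
          rw [show (cp / 2) ^ 2 * ((1 / L) ^ ((1 / 2 : ℝ) ^ (i + 1))) ^ 2 * m * m =
            (cp / 2 * (1 / L) ^ ((1 / 2 : ℝ) ^ (i + 1)) * m) ^ 2 by ring]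
          exact Real.sqrt_sq (by positivity)
        calc κ * (1 / L) ^ ((1 / 2 : ℝ) ^ (i + 1)) * m
            = cp / 2 * (cp / 2 * (1 / L) ^ ((1 / 2 : ℝ) ^ (i + 1)) * m) := by rw [hκ]; ring
          _ ≤ cp / 2 * Real.sqrt (X.card * m) := by
              rw [← h4]
              gcongr
      have h5 : cp / 2 * Real.sqrt (κ / L * m * m) ≤ cp / 2 * Real.sqrt (X.card * m) := by gcongr
      linarith
    · intro x hx
      rw [Finset.mem_filter] at hx
      have h1 := BlockH.step R W i u X ((κ * d / 8) ^ i * (1 / L) ^ (2 - 2 * (1 / 2 : ℝ) ^ i))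
        (by positivity) hX1 hX3 _ x hx.2.2
      refine le_trans ?_ h1
      have e1 : (2 : ℝ) - 2 * (1 / 2 : ℝ) ^ (i + 1) =
          (2 - 2 * (1 / 2 : ℝ) ^ i) + (1 / 2 : ℝ) ^ i := by
        rw [pow_succ]; ring
      rw [e1, Real.rpow_add (by positivity), pow_succ]
      calc (κ * d / 8) ^ i * (κ * d / 8) *
            ((1 / L) ^ (2 - 2 * (1 / 2 : ℝ) ^ i) * (1 / L) ^ ((1 / 2 : ℝ) ^ i))
          = (κ * d / 8) ^ i * (1 / L) ^ (2 - 2 * (1 / 2 : ℝ) ^ i) *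
            ((κ * (1 / L) ^ ((1 / 2 : ℝ) ^ i) * m) * d / (8 * m)) := by
            field_simp
        _ ≤ (κ * d / 8) ^ i * (1 / L) ^ (2 - 2 * (1 / 2 : ℝ) ^ i) * (X.card * d / (8 * m)) := by
            gcongr

end abstract_part

section core

variable {A : ℕ → ℕ → Prop} (h : PG A) {m : ℕ} {U V : Finset ℕ}
  (e : (range m \ U : Finset ℕ) ≃ (range m \ V : Finset ℕ)) (W : Finset (range m \ U : Finset ℕ))
  (u : (range m \ U : Finset ℕ))

include h in
private lemma gro_cnt (κ cp L d E c1 : ℝ) (j1 j2 : ℕ) (hm0 : (0 : ℝ) < m) (hd : 0 < d)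
    (hκdef : κ = (cp / 2) ^ 2) (hcp : 0 < cp) (hκ1 : κ ≤ 1) (hc1 : 0 < c1)
    (hj2 : 2 / c1 ≤ (j2 : ℝ)) (hL2 : 2 ≤ L) (hdL : d / 2 = m / L)
    (hpop : ∀ X ⊆ range m, X.Nonempty → cp * Real.sqrt (X.card * m) ≤
      (((range m).filter (fun j => X.card * d / (8 * m) ≤ (dX A X j : ℝ))).card : ℝ))
    (hdeg : ∀ i < m, 3 / 4 * d ≤ (dX A (range m) i : ℝ) ∧ (dX A (range m) i : ℝ) ≤ 5 / 4 * d)
    (hexp : ∀ X ⊆ range m, κ / 64 * m ≤ (X.card : ℝ) → (X.card : ℝ) ≤ (1 - κ / 64) * m →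
      (X.card : ℝ) + c1 * m ≤
        (((range m).filter (fun j => c1 * d ≤ (dX A X j : ℝ))).card : ℝ))
    (hE2 : E ≤ d / 4) (hE3 : E ≤ c1 / 2 * m) (hEsq : E ≤ cp / 2 * Real.sqrt (κ / L * m * m))
    (hbig : 1 ≤ κ / 64 * m) (hhalf : 1 / 2 ≤ (1 / L) ^ ((1 / 2 : ℝ) ^ j1))
    (hsU : (U.card : ℝ) + W.card ≤ E) (hsV : (V.card : ℝ) + W.card ≤ E) :
    ((κ * d / 8) ^ j1 * (1 / L) ^ 2) * (c1 * d) ^ j2 * ((κ * d / 8) ^ j1 * (1 / L) ^ 2) *
      (κ / 8 * m * d) ≤ (cnt (RR A e) W (2 * j1 + j2 + 1 + 1) u u : ℝ) := by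
  have hκ : 0 < κ := by rw [hκdef]; positivity
  have hL0 : 0 < L := by linarith
  have hu : (u : ℕ) < m := Finset.mem_range.1 (Finset.mem_sdiff.1 u.2).1
  have heu : (e u : ℕ) < m := Finset.mem_range.1 (Finset.mem_sdiff.1 (e u).2).1
  have hf0 := fwd0 h e W E d hsV hE2 u (hdeg u hu).1
  have hb0 := bwd0 e W E d hsU hE2 u (hdeg (e u) heu).1
  rw [hdL] at hf0 hb0
  have hfpop : ∀ X : Finset (range m \ U : Finset ℕ), X.Nonempty →
      cp * Real.sqrt (X.card * m) - E ≤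
      ((univ.filter (fun x' => x' ∉ W ∧ X.card * d / (8 * m) ≤
        ((X.filter (fun x => RR A e x x')).card : ℝ))).card : ℝ) := by
    intro X hX
    have h1 := hpop (X.map ⟨_, Subtype.val_injective⟩) (map_sub1 X) (hX.map)
    rw [Finset.card_map] at h1
    have h2 := ftrans e W (A := A) E (X.card * d / (8 * m)) hsV X
    linarith
  have hbpop : ∀ X : Finset (range m \ U : Finset ℕ), X.Nonempty →
      cp * Real.sqrt (X.card * m) - E ≤
      ((univ.filter (fun x' => x' ∉ W ∧ X.card * d / (8 * m) ≤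
        ((X.filter (fun x => (fun a b => RR A e b a) x x')).card : ℝ))).card : ℝ) := by
    intro X hX
    have h1 := hpop (X.map ⟨_, inj2 e⟩) (map_sub2 e X) (hX.map)
    rw [Finset.card_map] at h1
    have h2 := btrans h e W E (X.card * d / (8 * m)) hsU X
    linarith
  have hexp' : ∀ X : Finset (range m \ U : Finset ℕ), κ / 64 * m ≤ (X.card : ℝ) →
      (X.card : ℝ) ≤ (1 - κ / 64) * m →
      (X.card : ℝ) + c1 / 2 * m ≤ ((univ.filter (fun x' => x' ∉ W ∧ c1 * d ≤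
        ((X.filter (fun x => RR A e x x')).card : ℝ))).card : ℝ) := by
    intro X hX1 hX2
    have h1 := hexp (X.map ⟨_, Subtype.val_injective⟩) (map_sub1 X)
      (by rw [Finset.card_map]; exact hX1) (by rw [Finset.card_map]; exact hX2)
    rw [Finset.card_map] at h1
    have h2 := ftrans e W (A := A) E (c1 * d) hsV X
    linarith
  -- weakening of the weights
  have hw2 : (1 / L) ^ 2 ≤ (1 / L) ^ (2 - 2 * (1 / 2 : ℝ) ^ j1) := by
    have h1 : (1 / L) ^ (2 : ℝ) ≤ (1 / L) ^ (2 - 2 * (1 / 2 : ℝ) ^ j1) := by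
      apply Real.rpow_le_rpow_of_exponent_ge (by positivity)
      · rw [div_le_one hL0]; linarith
      · have : (0 : ℝ) < (1 / 2 : ℝ) ^ j1 := by positivity
        linarith
    have h2 : (1 / L) ^ (2 : ℝ) = (1 / L) ^ 2 := by
      rw [← Real.rpow_natCast]; norm_num
    rwa [h2] at h1
  have hwle : (κ * d / 8) ^ j1 * (1 / L) ^ 2 ≤
      (κ * d / 8) ^ j1 * (1 / L) ^ (2 - 2 * (1 / 2 : ℝ) ^ j1) := by gcongr
  have hphase1 := gro_phase1 (RR A e) W u m κ cp L d E hm0 (by linarith) hd hκdef hcp hκ1 hf0 hfpop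
    hEsq j1
  have hphaseb := gro_phase1 (fun a b => RR A e b a) W u m κ cp L d E hm0 (by linarith) hd hκdef hcp
    hκ1 hb0 hbpop hEsq j1
  obtain ⟨X0, hX01, hX02, hX03⟩ := hphase1
  have hX03' : ∀ x ∈ X0, (κ * d / 8) ^ j1 * (1 / L) ^ 2 ≤ (cnt (RR A e) W j1 u x : ℝ) :=
    fun x hx => hwle.trans (hX03 x hx)
  have hX02' : κ / 2 * m ≤ (X0.card : ℝ) := by
    refine le_trans ?_ hX02
    calc κ / 2 * m = κ * (1 / 2) * m := by ring
      _ ≤ _ := by gcongr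
  have hph2 := phase2 (RR A e) W u m c1 d (κ / 64) (κ / 2) ((κ * d / 8) ^ j1 * (1 / L) ^ 2) j1 hm0
    hc1 hd (by positivity) (by positivity) (by linarith) (by linarith) hbig hexp'
    ⟨X0, hX01, hX02', hX03'⟩ j2
  obtain ⟨X, hX1, hX2, hX3⟩ := hph2
  obtain ⟨Y, hY1, hY2, hY3⟩ := hphaseb
  have hX2' : (1 - κ / 32) * m ≤ (X.card : ℝ) := by
    refine le_trans ?_ hX2
    have h1 : 1 ≤ (j2 : ℝ) * (c1 / 2) := by
      rw [div_le_iff₀ hc1] at hj2
      linarith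
    rw [min_eq_right (by linarith)]
    apply le_of_eq
    ring
  have hY2' : κ / 2 * m ≤ (Y.card : ℝ) := by
    refine le_trans ?_ hY2
    calc κ / 2 * m = κ * (1 / 2) * m := by ring
      _ ≤ _ := by gcongr
  have hY3' : ∀ y ∈ Y, (κ * d / 8) ^ j1 * (1 / L) ^ 2 ≤ (cnt (RR A e) W j1 y u : ℝ) := by
    intro y hy
    have h1 := hY3 y hy
    rw [cnt_flip] at h1
    exact hwle.trans h1
  have hcl := closed (RR A e) W u (j1 + j2) j1 X Y _ _ (by positivity) (by positivity) hX1 hY1 hX3 hY3'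
  have harcs := arcs h e d hdeg X Y
  have harcs' : κ / 8 * m * d ≤ ∑ y ∈ Y, ((X.filter (fun x => RR A e x y)).card : ℝ) := by
    refine le_trans ?_ harcs
    have h1 : 3 / 4 * d * (κ / 2 * m) ≤ 3 / 4 * d * Y.card := by gcongr
    have h2 : (m - X.card) * (5 / 4 * d) ≤ (κ / 32 * m) * (5 / 4 * d) := by
      gcongr
      linarith
    have h3 : 0 < κ * m * d := by positivity
    linarith
  have hN : (j1 + j2 + j1 + 2) = (2 * j1 + j2 + 1) + 1 := by ring
  rw [hN] at hcl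
  refine le_trans ?_ hcl
  gcongr

include h in
private lemma gro_good (κ c1 L d P N : ℝ) (j1 j2 : ℕ) (hd : 0 < d) (hκ : 0 < κ)
    (hc1 : 0 < c1) (hL0 : 0 < L)
    (hdeg : ∀ i < m, (dX A (range m) i : ℝ) ≤ 5 / 4 * d)
    (hNn : N = ((2 * j1 + j2 : ℕ) : ℝ) + 2) (hP : 0 ≤ P)
    (hnum : (P + N * (1 + N)) * ((16 / κ) * (16 / κ) ^ (2 * j1) * (2 / c1) ^ j2) * L ^ 4 ≤ m)
    (hcnt : ((κ * d / 8) ^ j1 * (1 / L) ^ 2) * (c1 * d) ^ j2 * ((κ * d / 8) ^ j1 * (1 / L) ^ 2) *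
      (κ / 8 * m * d) ≤ (cnt (RR A e) W (2 * j1 + j2 + 1 + 1) u u : ℝ)) :
    P * ((⌊2 * d⌋₊ : ℕ) : ℝ) ^ (2 * j1 + j2 + 1) ≤
      ((good (RR A e) W (2 * j1 + j2 + 1 + 1) u).card : ℝ) := by
  obtain ⟨D, hD⟩ : ∃ D : ℕ, D = ⌊2 * d⌋₊ := ⟨_, rfl⟩
  rw [← hD]
  have hDle : (D : ℝ) ≤ 2 * d := by
    rw [hD]
    exact Nat.floor_le (by positivity)
  have hDdeg : ∀ x, (univ.filter (fun y => RR A e x y)).card ≤ D := by
    intro x
    rw [hD]
    apply Nat.le_floor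
    have h1 := out_le (A := A) e x
    rw [← dX_eq h] at h1
    have h2 : ((univ.filter (fun y => RR A e x y)).card : ℝ) ≤ dX A (range m) x := by exact_mod_cast h1
    have h3 := hdeg x (Finset.mem_range.1 (Finset.mem_sdiff.1 x.2).1)
    linarith
  rcases Nat.eq_zero_or_pos D with hD0 | hDpos
  · rw [hD0]
    simp
  have hD0 : (0 : ℝ) < D := by exact_mod_cast hDpos
  obtain ⟨n, hn⟩ : ∃ n : ℕ, n = 2 * j1 + j2 := ⟨_, rfl⟩
  rw [← hn] at hNn hcnt ⊢
  have hgood := cnt_le_good (RR A e) W D hDdeg (n + 1 + 1) u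
  have hgood' : (cnt (RR A e) W (n + 1 + 1) u u : ℝ) ≤
      (good (RR A e) W (n + 1 + 1) u).card + N * (1 + N) * (D : ℝ) ^ (n + 1) := by
    have h1 : (cnt (RR A e) W (n + 1 + 1) u u : ℝ) * D ≤
        (good (RR A e) W (n + 1 + 1) u).card * D +
        ((n + 1 + 1 : ℕ) : ℝ) * (1 + ((n + 1 + 1 : ℕ) : ℝ)) * (D : ℝ) ^ (n + 1 + 1) := by
      exact_mod_cast hgood
    have hNc : ((n + 1 + 1 : ℕ) : ℝ) = N := by rw [hNn]; push_cast; ring
    rw [hNc] at h1
    have h2 : (cnt (RR A e) W (n + 1 + 1) u u : ℝ) * D ≤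
      ((good (RR A e) W (n + 1 + 1) u).card + N * (1 + N) * (D : ℝ) ^ (n + 1)) * D := by
      refine h1.trans (le_of_eq ?_)
      ring
    exact le_of_mul_le_mul_right h2 hD0
  have hN0 : 0 ≤ N := by rw [hNn]; positivity
  have hPN : 0 ≤ P + N * (1 + N) := by positivity
  have hDk : (D : ℝ) ^ (n + 1) ≤
      2 * d * (((κ * d / 8) ^ (2 * j1) * (16 / κ) ^ (2 * j1)) * ((c1 * d) ^ j2 * (2 / c1) ^ j2)) := by
    calc (D : ℝ) ^ (n + 1) ≤ (2 * d) ^ (n + 1) := by gcongr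
      _ = 2 * d * ((2 * d) ^ (2 * j1) * (2 * d) ^ j2) := by rw [hn]; ring
      _ = _ := by
          rw [← mul_pow, ← mul_pow]
          have e1 : κ * d / 8 * (16 / κ) = 2 * d := by field_simp; norm_num
          have e2 : c1 * d * (2 / c1) = 2 * d := by field_simp
          rw [e1, e2]
  have hfin : (P + N * (1 + N)) * (D : ℝ) ^ (n + 1) ≤
      ((κ * d / 8) ^ j1 * (1 / L) ^ 2) * (c1 * d) ^ j2 * ((κ * d / 8) ^ j1 * (1 / L) ^ 2) *
      (κ / 8 * m * d) := by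
    calc (P + N * (1 + N)) * (D : ℝ) ^ (n + 1)
        ≤ (P + N * (1 + N)) * (2 * d * (((κ * d / 8) ^ (2 * j1) * (16 / κ) ^ (2 * j1)) *
          ((c1 * d) ^ j2 * (2 / c1) ^ j2))) := by gcongr
      _ = ((κ * d / 8) ^ (2 * j1) * (c1 * d) ^ j2 * (κ / 8 * d) * (1 / L) ^ 4) *
          ((P + N * (1 + N)) * ((16 / κ) * (16 / κ) ^ (2 * j1) * (2 / c1) ^ j2) * L ^ 4) := by
          have e1 : (16 : ℝ) / κ * (κ / 8 * d) = 2 * d := by field_simp; norm_num
          have e2 : (1 / L) ^ 4 * L ^ 4 = 1 := by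
            rw [← mul_pow]
            field_simp
          calc _ = (P + N * (1 + N)) * ((16 / κ * (κ / 8 * d)) * (((κ * d / 8) ^ (2 * j1) *
                (16 / κ) ^ (2 * j1)) * ((c1 * d) ^ j2 * (2 / c1) ^ j2))) * ((1 / L) ^ 4 * L ^ 4) := by
                rw [e1, e2, mul_one]
            _ = _ := by ring
      _ ≤ ((κ * d / 8) ^ (2 * j1) * (c1 * d) ^ j2 * (κ / 8 * d) * (1 / L) ^ 4) * m := by gcongr
      _ = _ := by ring
  have h5 : (P + N * (1 + N)) * (D : ℝ) ^ (n + 1) =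
      P * (D : ℝ) ^ (n + 1) + N * (1 + N) * (D : ℝ) ^ (n + 1) := by ring
  linarith

end core

private lemma gro_numeric (κ c1 : ℝ) (hκ : 0 < κ) (hκ1 : κ ≤ 1) (hc1 : 0 < c1) (j2 : ℕ) :
    ∀ᶠ L : ℝ in atTop, ∃ j1 : ℕ, 1 / 2 ≤ (1 / L) ^ ((1 / 2 : ℝ) ^ j1) ∧
    (Real.exp L / L ^ 5 + (((2 * j1 + j2 : ℕ) : ℝ) + 2) * (1 + (((2 * j1 + j2 : ℕ) : ℝ) + 2))) *
      ((16 / κ) * (16 / κ) ^ (2 * j1) * (2 / c1) ^ j2) * L ^ 4 ≤ Real.exp L := by
  obtain ⟨b, hb⟩ : ∃ b : ℝ, b = 16 / κ := ⟨_, rfl⟩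
  have hb1 : 1 ≤ b := by
    rw [hb, le_div_iff₀ hκ]; linarith
  have hb0 : 0 < b := by linarith
  obtain ⟨K0, hK0⟩ : ∃ K0 : ℝ, K0 = b * (2 / c1) ^ j2 := ⟨_, rfl⟩
  have hK0p : 0 < K0 := by rw [hK0]; positivity
  obtain ⟨a, ha⟩ : ∃ a : ℝ, a = Real.log b := ⟨_, rfl⟩
  have ha0 : 0 ≤ a := by rw [ha]; exact Real.log_nonneg hb1
  -- statements about `y = log L`
  have hy1 : ∀ᶠ y : ℝ in atTop, 2 * a * (4 * Real.log y + 1) + Real.log (2 * K0) ≤ y := by
    have h1 := Real.isLittleO_log_id_atTop.def (c := 1 / (2 * (8 * a + 1))) (by positivity)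
    filter_upwards [h1, eventually_ge_atTop 1, eventually_ge_atTop (2 * (2 * a + Real.log (2 * K0)))]
      with y h1 h2 h3
    rw [Real.norm_of_nonneg (Real.log_nonneg h2), id, Real.norm_of_nonneg (by linarith)] at h1
    have h4 : (8 * a + 1) * Real.log y ≤ y / 2 := by
      calc (8 * a + 1) * Real.log y ≤ (8 * a + 1) * (1 / (2 * (8 * a + 1)) * y) := by gcongr
        _ = y / 2 := by field_simp
    have h5 := Real.log_nonneg h2
    nlinarith
  have hy2 : ∀ᶠ y : ℝ in atTop, 2 * (4 * Real.log y + 1) + j2 + 2 ≤ y := by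
    have h1 := Real.isLittleO_log_id_atTop.def (c := 1 / 16) (by positivity)
    filter_upwards [h1, eventually_ge_atTop 1, eventually_ge_atTop (2 * ((j2 : ℝ) + 4))]
      with y h1 h2 h3
    rw [Real.norm_of_nonneg (Real.log_nonneg h2), id, Real.norm_of_nonneg (by linarith)] at h1
    linarith
  have hL8 : ∀ᶠ L : ℝ in atTop, 2 * L ^ 8 ≤ Real.exp L := by
    filter_upwards [(Real.tendsto_exp_div_pow_atTop 8).eventually (eventually_ge_atTop 2),
      eventually_gt_atTop 0] with L h1 h2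
    rwa [le_div_iff₀ (by positivity)] at h1
  filter_upwards [Real.tendsto_log_atTop.eventually hy1, Real.tendsto_log_atTop.eventually hy2,
    Real.tendsto_log_atTop.eventually (eventually_ge_atTop 2), hL8, eventually_ge_atTop 2]
    with L hy1 hy2 hy3 hL8 hL2
  have hL0 : 0 < L := by linarith
  set y := Real.log L with hy
  have hly : 0 ≤ Real.log y := Real.log_nonneg (by linarith)
  obtain ⟨j1, hj1⟩ : ∃ j1 : ℕ, j1 = ⌈4 * Real.log y⌉₊ := ⟨_, rfl⟩
  have hj1a : 4 * Real.log y ≤ j1 := by rw [hj1]; exact Nat.le_ceil _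
  have hj1b : (j1 : ℝ) ≤ 4 * Real.log y + 1 := by
    rw [hj1]; exact (Nat.ceil_lt_add_one (by positivity)).le
  refine ⟨j1, ?_, ?_⟩
  · -- the first claim
    have h1 : y ^ 2 ≤ (2 : ℝ) ^ j1 := by
      have h2 : y ^ 2 = Real.exp (2 * Real.log y) := by
        rw [show (2 : ℝ) * Real.log y = ((2 : ℕ) : ℝ) * Real.log y by norm_num, Real.exp_nat_mul,
          Real.exp_log (by linarith)]
      have h3 : (2 : ℝ) ^ j1 = Real.exp (j1 * Real.log 2) := by
        rw [Real.exp_nat_mul, Real.exp_log (by norm_num)]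
      rw [h2, h3]
      apply Real.exp_le_exp.2
      have h4 : (1 : ℝ) / 2 ≤ Real.log 2 := by
        have := Real.log_two_gt_d9
        linarith
      calc 2 * Real.log y = (4 * Real.log y) * (1 / 2) := by ring
        _ ≤ j1 * Real.log 2 := by gcongr
    have h2 : (1 / 2 : ℝ) ^ j1 ≤ 1 / y ^ 2 := by
      rw [one_div_pow]
      exact one_div_le_one_div_of_le (by positivity) h1
    have h3 : (1 / 2 : ℝ) ^ j1 * y ≤ 1 / 2 := by
      calc (1 / 2 : ℝ) ^ j1 * y ≤ 1 / y ^ 2 * y := by gcongr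
        _ = 1 / y := by field_simp
        _ ≤ 1 / 2 := one_div_le_one_div_of_le (by norm_num) hy3
    rw [Real.rpow_def_of_pos (by positivity), one_div, one_div, Real.log_inv, ← hy]
    have h4 : (2 : ℝ)⁻¹ = Real.exp (-Real.log 2) := by
      rw [Real.exp_neg, Real.exp_log (by norm_num)]
    have h5 : (1 : ℝ) / 2 ≤ Real.log 2 := by
      have := Real.log_two_gt_d9
      linarith
    have h6 : (2⁻¹ : ℝ) ^ j1 * y ≤ 1 / 2 := by
      have : (2⁻¹ : ℝ) = 1 / 2 := by norm_num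
      rw [this]; exact h3
    refine h4.le.trans (Real.exp_le_exp.2 ?_)
    linarith
  · have hB : 2 * ((16 / κ) * (16 / κ) ^ (2 * j1) * (2 / c1) ^ j2) ≤ L := by
      rw [← hb]
      have h1 : b ^ (2 * j1) = Real.exp (2 * j1 * a) := by
        rw [ha, show (2 : ℝ) * j1 * Real.log b = ((2 * j1 : ℕ) : ℝ) * Real.log b by push_cast; ring,
          Real.exp_nat_mul, Real.exp_log hb0]
      calc 2 * (b * b ^ (2 * j1) * (2 / c1) ^ j2) = (2 * K0) * b ^ (2 * j1) := by rw [hK0]; ring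
        _ = Real.exp (Real.log (2 * K0)) * Real.exp (2 * j1 * a) := by
            rw [Real.exp_log (by positivity), h1]
        _ = Real.exp (Real.log (2 * K0) + 2 * j1 * a) := by rw [Real.exp_add]
        _ ≤ Real.exp y := by
            apply Real.exp_le_exp.2
            have h2 : 2 * (j1 : ℝ) * a ≤ 2 * (4 * Real.log y + 1) * a := by gcongr
            linarith
        _ = L := Real.exp_log hL0
    have hNL : ((2 * j1 + j2 : ℕ) : ℝ) + 2 ≤ L := by
      have h1 : y ≤ L := by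
        have := Real.log_le_sub_one_of_pos hL0
        linarith
      push_cast
      linarith
    have hN0 : (0 : ℝ) ≤ ((2 * j1 + j2 : ℕ) : ℝ) + 2 := by positivity
    set N : ℝ := ((2 * j1 + j2 : ℕ) : ℝ) + 2 with hN
    have hNN : N * (1 + N) ≤ 2 * L ^ 2 := by
      calc N * (1 + N) ≤ L * (1 + L) := by gcongr
        _ ≤ 2 * L ^ 2 := by nlinarith
    set B := (16 / κ) * (16 / κ) ^ (2 * j1) * (2 / c1) ^ j2 with hBdef
    have hB0 : 0 ≤ B := by positivity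
    have hB2 : B ≤ L / 2 := by linarith
    calc (Real.exp L / L ^ 5 + N * (1 + N)) * B * L ^ 4
        ≤ (Real.exp L / L ^ 5 + 2 * L ^ 2) * (L / 2) * L ^ 4 := by gcongr
      _ = Real.exp L / 2 + L ^ 7 := by field_simp
      _ ≤ Real.exp L / 2 + L ^ 8 := by
          have : L ^ 7 ≤ L ^ 8 := pow_le_pow_right₀ (by linarith) (by norm_num)
          linarith
      _ ≤ Real.exp L := by linarith

theorem main_Gro : Stmt_Gro := by
  intro A h
  obtain ⟨cp0, hcp0, hpop0⟩ := pop h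
  -- normalise the constant
  obtain ⟨cp, hcp, hcp2, hpop⟩ : ∃ cp : ℝ, 0 < cp ∧ cp ≤ 2 ∧ ∀ᶠ m : ℕ in atTop,
      ∀ X ⊆ range m, X.Nonempty → cp * Real.sqrt (X.card * m) ≤
      (((range m).filter (fun j => X.card * dd m / (8 * m) ≤ (dX A X j : ℝ))).card : ℝ) := by
    refine ⟨min cp0 2, lt_min hcp0 (by norm_num), min_le_right _ _, ?_⟩
    filter_upwards [hpop0] with m hm X hX hne
    refine le_trans ?_ (hm X hX hne)
    gcongr
    exact min_le_left _ _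
  obtain ⟨κ, hκdef⟩ : ∃ κ : ℝ, κ = (cp / 2) ^ 2 := ⟨_, rfl⟩
  have hκ : 0 < κ := by rw [hκdef]; positivity
  have hκ1 : κ ≤ 1 := by
    rw [hκdef]
    nlinarith
  obtain ⟨c1, hc1, hexp⟩ := h.exp (κ / 64) (by positivity)
  obtain ⟨j2, hj2⟩ : ∃ j2 : ℕ, 2 / c1 ≤ (j2 : ℝ) := exists_nat_ge _
  obtain ⟨c0, hc0, hc0a, hc0b, hc0c⟩ : ∃ c0 : ℝ, 0 < c0 ∧ c0 ≤ 1 / 4 ∧ c0 ≤ c1 / 2 ∧
      c0 ≤ cp * κ / 4 :=
    ⟨min (1 / 4) (min (c1 / 2) (cp * κ / 4)), by positivity, min_le_left _ _,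
      (min_le_right _ _).trans (min_le_left _ _), (min_le_right _ _).trans (min_le_right _ _)⟩
  refine ⟨c0 / 2, by positivity, ?_⟩
  have hlog : Tendsto (fun m : ℕ => Real.log m) atTop atTop :=
    Real.tendsto_log_atTop.comp tendsto_natCast_atTop_atTop
  have hdl := dd_lower (δ := 1 - 0.9) (by norm_num) (K := 2 / c0) (by positivity)
  simp only [sub_sub_cancel] at hdl
  have hbig : ∀ᶠ m : ℕ in atTop, (1 : ℝ) ≤ κ / 64 * m := by
    have : Tendsto (fun m : ℕ => κ / 64 * (m : ℝ)) atTop atTop :=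
      (tendsto_natCast_atTop_atTop (R := ℝ)).const_mul_atTop (by positivity)
    exact this.eventually (eventually_ge_atTop 1)
  filter_upwards [hpop, h.deg (1 / 4) (by norm_num), hexp,
    hlog.eventually (gro_numeric κ c1 hκ hκ1 hc1 j2),
    hdl, dd_le, hbig, eventually_ge_atTop 2, hlog.eventually (eventually_ge_atTop 2)]
    with m hpop hdeg hexp hnum hdl hddle hbig hm hL2
  obtain ⟨j1, hhalf, hnum⟩ := hnum
  obtain ⟨L, hLdef⟩ : ∃ L : ℝ, L = Real.log m := ⟨_, rfl⟩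
  obtain ⟨d, hddef⟩ : ∃ d : ℝ, d = dd m := ⟨_, rfl⟩
  have hm0 : (0 : ℝ) < m := by positivity
  have hd : 0 < d := by rw [hddef]; exact dd_pos hm
  rw [← hLdef] at hnum hL2 hhalf
  rw [← hddef] at hpop hdeg hexp hdl hddle
  have hL0 : 0 < L := by linarith
  have hdL : d / 2 = m / L := by rw [hddef, dd, ← hLdef]; ring
  obtain ⟨E, hE⟩ : ∃ E : ℝ, E = c0 * d := ⟨_, rfl⟩
  have hE1 : E ≤ cp * κ * d / 4 := by
    rw [hE]
    calc c0 * d ≤ cp * κ / 4 * d := by gcongr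
      _ = _ := by ring
  have hE2 : E ≤ d / 4 := by
    rw [hE]
    calc c0 * d ≤ 1 / 4 * d := by gcongr
      _ = _ := by ring
  have hE3 : E ≤ c1 / 2 * m := by
    rw [hE]
    calc c0 * d ≤ c1 / 2 * d := by gcongr
      _ ≤ _ := by gcongr
  have hdeg' : ∀ i < m, 3 / 4 * d ≤ (dX A (range m) i : ℝ) ∧
      (dX A (range m) i : ℝ) ≤ 5 / 4 * d := by
    intro i hi
    have h1 := hdeg i hi
    constructor
    · linarith [h1.1]
    · linarith [h1.2]
  have hEsq : E ≤ cp / 2 * Real.sqrt (κ / L * m * m) := by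
    have h1 : κ * d / 2 ≤ Real.sqrt (κ / L * m * m) := by
      apply Real.le_sqrt_of_sq_le
      have h2 : κ * d / 2 = κ / L * m := by
        calc κ * d / 2 = κ * (d / 2) := by ring
          _ = κ * (m / L) := by rw [hdL]
          _ = _ := by ring
      rw [h2]
      have h3 : κ / L ≤ 1 := by
        rw [div_le_one hL0]
        linarith
      calc (κ / L * m) ^ 2 = κ / L * m * m * (κ / L) := by ring
        _ ≤ κ / L * m * m * 1 := by gcongr
        _ = _ := by ring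
    calc E ≤ cp * κ * d / 4 := hE1
      _ = cp / 2 * (κ * d / 2) := by ring
      _ ≤ _ := by gcongr
  refine ⟨2 * j1 + j2 + 1, ?_⟩
  intro U V hS e W u hW
  have hUs : (U.card : ℝ) ≤ c0 / 2 * d := by
    calc (U.card : ℝ) ≤ (m : ℝ) ^ (0.9 : ℝ) := hS.2.2.2
      _ = c0 / 2 * (2 / c0 * (m : ℝ) ^ (0.9 : ℝ)) := by field_simp
      _ ≤ c0 / 2 * d := by gcongr
  rw [← hddef] at hW
  have hsU : (U.card : ℝ) + W.card ≤ E := by
    rw [hE]; linarith
  have hsV : (V.card : ℝ) + W.card ≤ E := by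
    rw [← hS.2.2.1]; exact hsU
  have hcnt := gro_cnt h e W u κ cp L d E c1 j1 j2 hm0 hd hκdef hcp hκ1 hc1 hj2 hL2 hdL
    hpop hdeg' hexp hE2 hE3 hEsq hbig hhalf hsU hsV
  have hexpL : Real.exp L = m := by rw [hLdef]; exact Real.exp_log hm0
  rw [hexpL] at hnum
  rw [← hddef, ← hLdef]
  exact gro_good h e W u κ c1 L d (m / L ^ 5) (((2 * j1 + j2 : ℕ) : ℝ) + 2) j1 j2 hd hκ hc1 hL0
    (fun i hi => (hdeg' i hi).2) rfl (by positivity) hnum hcnt

end Pool.Agent.PCZ
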