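import Pool.Agent.PCZ.Stmts
import Pool.Agent.PCX.Pm
import Pool.Agent.PCX.Ds

/-!
# [Lo] lower bound
-/

set_option autoImplicit false

namespace Pool.Agent.PCZ

open Finset Filter Pool.Agent.PC Pool.Agent.PCX Pool.Agent.PrimeCircle

theorem main_Lo (hcmp : Stmt_Cmp) (hcnd : Stmt_Cnd) : Stmt_Lo := by
  intro C hC
  obtain ⟨C₀, hC₀, hcmp⟩ := hcmp
  obtain ⟨C₁, hC₁, hcond⟩ := hcnd C hC
  refine ⟨2 * (C₁ * (C₀ + 1)) + 8 * C₀ + C₀, ?_⟩
  have hlogtend : Tendsto (fun N : ℕ => Real.log (N : ℝ)) atTop atTop :=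
    Real.tendsto_log_atTop.comp tendsto_natCast_atTop_atTop
  -- `C₀ L^9 ≤ m^0.9`
  have hgrow : ∀ᶠ m : ℕ in atTop, C₀ * Real.log m ^ 9 ≤ (m : ℝ) ^ (0.9 : ℝ) := by
    have h1 : (fun x : ℝ => Real.log x ^ 9) =o[atTop] fun x => x ^ (0.9 : ℝ) := by
      have h0 := isLittleO_log_rpow_rpow_atTop (s := 0.9) ((9 : ℕ) : ℝ) (by norm_num)
      simpa only [Real.rpow_natCast] using h0
    have h2 := h1.def (c := 1 / C₀) (by positivity)
    have h3 := tendsto_natCast_atTop_atTop (R := ℝ) |>.eventually h2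
    filter_upwards [h3, eventually_ge_atTop 1] with m hm hm1
    have hl : 0 ≤ Real.log (m : ℝ) := Real.log_natCast_nonneg m
    rw [Real.norm_eq_abs, Real.norm_eq_abs, abs_of_nonneg (by positivity),
      abs_of_nonneg (by positivity)] at hm
    calc C₀ * Real.log m ^ 9 ≤ C₀ * (1 / C₀ * (m : ℝ) ^ (0.9 : ℝ)) := by gcongr
      _ = (m : ℝ) ^ (0.9 : ℝ) := by field_simp
  filter_upwards [hcond, hcmp, hgrow, hlogtend.eventually_ge_atTop 2,
    hlogtend.eventually_ge_atTop |Real.log C|, eventually_ge_atTop 2]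
    with m hcond hcomb hgr hL2 hLC hm2 x hx hrow
  obtain ⟨U, V, hU, hV, hcardUV, hUs, hN⟩ := hcomb
  have hUV : Small m U V := ⟨hU, hV, hcardUV, hUs.trans hgr⟩
  have hm0 : (0 : ℝ) < m := by positivity
  have hm1 : (1 : ℝ) ≤ m := by exact_mod_cast (by omega : 1 ≤ m)
  set L := Real.log (m : ℝ) with hL
  have hL0 : 0 < L := by linarith
  set n := m - U.card with hn
  have hUm : U.card ≤ m := by
    have := card_le_card hU
    rwa [card_range] at this
  have hnr : (n : ℝ) = m - U.card := by rw [hn, Nat.cast_sub hUm]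
  have hS : (range m \ U).card = n := by
    rw [card_sdiff_of_subset hU, card_range]
  have hS' : (range m \ V).card = n := by
    rw [card_sdiff_of_subset hV, card_range, ← hcardUV]
  set δ := C₁ * (L * (U.card + 1) / m) with hδ
  have hδ0 : 0 < δ := by positivity
  have hρ : 0 < √(L / m) := Real.sqrt_pos.mpr (by positivity)
  have hxpos : ∀ i < m, 0 < x i := fun i hi =>
    lt_of_lt_of_le (by positivity) (hx i hi).1
  obtain ⟨hpos, hlow⟩ := main_Pm main_Ds PA (range m \ U) (range m \ V) n hS hS' x (1 + δ) (δ / 2)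
    (by linarith) (by linarith)
    (fun i hi => hxpos i (mem_range.mp (Finset.mem_sdiff.mp hi).1))
    (fun i hi => hxpos i (mem_range.mp (Finset.mem_sdiff.mp hi).1))
    (by
      intro X hX Y hY hXY
      have := hcond x hx hrow U V hUV X hX Y hY hXY
      rw [hnr]
      exact this)
  set P : ℝ := (Nat.card (Mt PA (range m \ U) (range m \ V)) : ℝ) with hP
  have hP0 : 0 < P := by rw [hP]; exact_mod_cast hpos
  have hNpos : (0 : ℝ) < numPrimeCircles m := by
    by_contra hcon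
    have h3 : (numPrimeCircles m : ℝ) = 0 :=
      le_antisymm (not_lt.mp hcon) (Nat.cast_nonneg _)
    rw [h3, zero_mul] at hN
    have : 0 < P ^ 2 := by positivity
    linarith
  refine ⟨by exact_mod_cast hNpos, ?_⟩
  have hlog : 2 * Real.log P ≤ Real.log (numPrimeCircles m) + C₀ * L ^ 7 := by
    have h3 := Real.log_le_log (by positivity) hN
    rw [Real.log_pow, Real.log_mul hNpos.ne' (Real.exp_pos _).ne', Real.log_exp] at h3
    push_cast at h3
    exact h3
  -- sums of logarithms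
  have hsumU : ∑ i ∈ range m \ U, Real.log (x i) =
      ∑ i ∈ range m, Real.log (x i) - ∑ i ∈ U, Real.log (x i) := by
    rw [← sum_sdiff hU]; ring
  have hsumV : ∑ i ∈ range m \ V, Real.log (x i) =
      ∑ i ∈ range m, Real.log (x i) - ∑ i ∈ V, Real.log (x i) := by
    rw [← sum_sdiff hV]; ring
  have hlx : ∀ i < m, -(2 * L) ≤ Real.log (x i) := by
    intro i hi
    have h3 := Real.log_le_log (by positivity) (hx i hi).1
    rw [Real.log_mul (by positivity) hρ.ne', Real.log_inv, Real.log_sqrt (by positivity),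
      Real.log_div hL0.ne' hm0.ne', ← hL] at h3
    have h4 : 0 ≤ Real.log L := Real.log_nonneg (by linarith)
    have h5 := le_abs_self (Real.log C)
    linarith
  have hsmall : ∀ W : Finset ℕ, W ⊆ range m → (W.card : ℝ) ≤ C₀ * L ^ 9 →
      -(C₀ * L ^ 9 * (2 * L)) ≤ ∑ i ∈ W, Real.log (x i) := by
    intro W hW hWc
    have h3 : ∑ _i ∈ W, (-(2 * L)) ≤ ∑ i ∈ W, Real.log (x i) :=
      sum_le_sum fun i hi => hlx i (mem_range.mp (hW hi))
    rw [sum_const, nsmul_eq_mul] at h3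
    have h4 : (W.card : ℝ) * (2 * L) ≤ C₀ * L ^ 9 * (2 * L) :=
      mul_le_mul_of_nonneg_right hWc (by positivity)
    linarith
  have hsU := hsmall U hU hUs
  have hsV := hsmall V hV (by rw [← hcardUV]; exact hUs)
  have hκ : Real.log (1 + δ) ≤ δ := by
    have := Real.log_le_sub_one_of_pos (by linarith : 0 < 1 + δ)
    linarith
  have hκ0 : 0 ≤ Real.log (1 + δ) := Real.log_nonneg (by linarith)
  have hnm : (n : ℝ) ≤ m := by rw [hnr]; linarith [Nat.cast_nonneg (α := ℝ) U.card]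
  have hn0 : (0 : ℝ) ≤ n := Nat.cast_nonneg n
  have hnκ : (n : ℝ) * Real.log (1 + δ) ≤ m * δ := mul_le_mul hnm hκ hκ0 hm0.le
  have hmδ : m * δ = C₁ * (L * (U.card + 1)) := by
    rw [hδ]
    field_simp
  have hL9 : (1 : ℝ) ≤ L ^ 9 := one_le_pow₀ (by linarith)
  have hmδ2 : m * δ ≤ C₁ * (C₀ + 1) * L ^ 10 := by
    rw [hmδ]
    calc C₁ * (L * (U.card + 1)) ≤ C₁ * (L * (C₀ * L ^ 9 + L ^ 9)) := by gcongr
      _ = C₁ * (C₀ + 1) * L ^ 10 := by ring
  have h710 : L ^ 7 ≤ L ^ 10 := pow_le_pow_right₀ (by linarith) (by norm_num)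
  have h7 : C₀ * L ^ 7 ≤ C₀ * L ^ 10 := by gcongr
  have h9 : C₀ * L ^ 9 * (2 * L) = 2 * C₀ * L ^ 10 := by ring
  rw [h9] at hsU hsV
  have hC' : (2 * (C₁ * (C₀ + 1)) + 8 * C₀ + C₀) * L ^ 10 =
      2 * (C₁ * (C₀ + 1) * L ^ 10) + 4 * (2 * C₀ * L ^ 10) + C₀ * L ^ 10 := by ring
  rw [hC']
  rw [hsumU, hsumV] at hlow
  have hp : 0 ≤ C₀ * L ^ 10 := by positivity
  linarith

end Pool.Agent.PCZ
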