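import Pool.Agent.PCZ.Stmts
import Pool.Agent.PCZ.Usn
import Pool.Agent.PC.UpperMain

/-!
# [Prs] prime circles are pairs of perfect matchings
-/

set_option autoImplicit false

namespace Pool.Agent.PCZ

open Finset Filter Pool.Agent.PC Pool.Agent.PCX Pool.Agent.PrimeCircle

section

variable {m : ℕ} (σ : Fin (2 * m) ≃ Fin (2 * m)) (hσ : ∀ i, σ i ∈ NS m i)

/-- odd index -/
private def prsO (j : Fin m) : Fin (2 * m) := ⟨2 * j + 1, by omega⟩

/-- even index -/
private def prsE (j : Fin m) : Fin (2 * m) := ⟨2 * j, by omega⟩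

/-- half of an index -/
private def prsH (x : Fin (2 * m)) : Fin m := ⟨x / 2, by omega⟩

include hσ in
private theorem prs_o_val (j : Fin m) : (σ (prsO j)).val = 2 * (prsH (σ (prsO j))).val := by
  have h := hσ (prsO j)
  unfold NS at h
  have h1 := (Finset.mem_filter.1 h).2
  simp only [prsO, prsH] at h1 ⊢
  rcases Nat.even_or_odd' (σ ⟨2 * (j : ℕ) + 1, by omega⟩).val with ⟨l, hl | hl⟩
  · omega
  · exfalso
    rw [hl] at h1
    have h3 : 2 ∣ 2 * (j : ℕ) + 1 + 1 + (2 * l + 1 + 1) := ⟨j + l + 2, by ring⟩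
    have h4 := (Nat.prime_dvd_prime_iff_eq Nat.prime_two h1).1 h3
    omega

include hσ in
private theorem prs_F_inj : Function.Injective (fun j => prsH (σ (prsO j))) := by
  intro j j' h
  have h1 := prs_o_val σ hσ j
  have h2 := prs_o_val σ hσ j'
  dsimp only at h
  rw [h, ← h2] at h1
  have h3 := σ.injective (Fin.ext h1)
  have h4 := congrArg Fin.val h3
  simp only [prsO] at h4
  exact Fin.ext (by omega)

include hσ in
private theorem prs_e_val (i : Fin m) : (σ (prsE i)).val = 2 * (prsH (σ (prsE i))).val + 1 := by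
  rcases Nat.even_or_odd' (σ (prsE i)).val with ⟨l, hl | hl⟩
  · exfalso
    obtain ⟨j, hj⟩ := (Finite.injective_iff_surjective.1 (prs_F_inj σ hσ)) (prsH (σ (prsE i)))
    dsimp only at hj
    have h1 := prs_o_val σ hσ j
    rw [hj] at h1
    have h2 : (σ (prsE i)).val = 2 * (prsH (σ (prsE i))).val := by
      simp only [prsH]
      omega
    rw [← h2] at h1
    have h3 := σ.injective (Fin.ext h1)
    have h4 := congrArg Fin.val h3
    simp only [prsO, prsE] at h4
    omega
  · simp only [prsH]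
    omega

include hσ in
private theorem prs_G_inj : Function.Injective (fun j => prsH (σ (prsE j))) := by
  intro j j' h
  have h1 := prs_e_val σ hσ j
  have h2 := prs_e_val σ hσ j'
  dsimp only at h
  rw [h, ← h2] at h1
  have h3 := σ.injective (Fin.ext h1)
  have h4 := congrArg Fin.val h3
  simp only [prsE] at h4
  exact Fin.ext (by omega)

include hσ in
private theorem prs_F_prime (j : Fin m) : (2 * ((j : ℕ) + (prsH (σ (prsO j)) : ℕ)) + 3).Prime := by
  have h := hσ (prsO j)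
  unfold NS at h
  have h1 := (Finset.mem_filter.1 h).2
  rw [prs_o_val σ hσ j] at h1
  have e : (prsO j).val = 2 * (j : ℕ) + 1 := rfl
  rw [e] at h1
  have e2 : 2 * (j : ℕ) + 1 + 1 + (2 * (prsH (σ (prsO j)) : ℕ) + 1) =
      2 * ((j : ℕ) + (prsH (σ (prsO j)) : ℕ)) + 3 := by ring
  rwa [e2] at h1

include hσ in
private theorem prs_G_prime (j : Fin m) : (2 * ((j : ℕ) + (prsH (σ (prsE j)) : ℕ)) + 3).Prime := by
  have h := hσ (prsE j)
  unfold NS at h
  have h1 := (Finset.mem_filter.1 h).2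
  rw [prs_e_val σ hσ j] at h1
  have e : (prsE j).val = 2 * (j : ℕ) := rfl
  rw [e] at h1
  have e2 : 2 * (j : ℕ) + 1 + (2 * (prsH (σ (prsE j)) : ℕ) + 1 + 1) =
      2 * ((j : ℕ) + (prsH (σ (prsE j)) : ℕ)) + 3 := by ring
  rwa [e2] at h1

end

theorem main_Prs : Stmt_Prs := by
  intro m hm
  refine (numPrimeCircles_le_cnt (m := m) (by omega)).trans ?_
  rw [main_Nm m, sq, ← Nat.card_prod]
  unfold BlockG.cnt
  refine Nat.card_le_card_of_injective
    (fun s : {σ : Fin (2 * m) ≃ Fin (2 * m) // ∀ i, σ i ∈ NS m i} =>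
      ((⟨Equiv.ofBijective _ (Finite.injective_iff_bijective.1 (prs_F_inj s.1 s.2)),
          fun i => prs_F_prime s.1 s.2 i⟩ :
          {σ : Equiv.Perm (Fin m) // ∀ i : Fin m, (2 * ((i : ℕ) + (σ i : ℕ)) + 3).Prime}),
        (⟨Equiv.ofBijective _ (Finite.injective_iff_bijective.1 (prs_G_inj s.1 s.2)),
          fun i => prs_G_prime s.1 s.2 i⟩ :
          {σ : Equiv.Perm (Fin m) // ∀ i : Fin m, (2 * ((i : ℕ) + (σ i : ℕ)) + 3).Prime}))) ?_
  rintro ⟨s, hs⟩ ⟨t, ht⟩ hst
  rw [Prod.mk.injEq, Subtype.mk.injEq, Subtype.mk.injEq] at hst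
  obtain ⟨h1, h2⟩ := hst
  have h1' : ∀ j, prsH (s (prsO j)) = prsH (t (prsO j)) := fun j =>
    congrArg (fun e : Equiv.Perm (Fin m) => e j) h1
  have h2' : ∀ j, prsH (s (prsE j)) = prsH (t (prsE j)) := fun j =>
    congrArg (fun e : Equiv.Perm (Fin m) => e j) h2
  apply Subtype.ext
  apply Equiv.ext
  intro x
  apply Fin.ext
  show (s x).val = (t x).val
  rcases Nat.even_or_odd' x.val with ⟨l, hl | hl⟩
  · have hx : x = prsE ⟨l, by omega⟩ := Fin.ext hl
    rw [hx, prs_e_val s hs, prs_e_val t ht, h2']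
  · have hx : x = prsO ⟨l, by omega⟩ := Fin.ext hl
    rw [hx, prs_o_val s hs, prs_o_val t ht, h1']

end Pool.Agent.PCZ
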