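import Pool.Agent.PCZ.Stmts
import Pool.Agent.PC.Reservoir

/-!
# [Res] a reservoir of polylogarithmic size
-/

set_option autoImplicit false

namespace Pool.Agent.PCZ

open Finset Filter Pool.Agent.PC Pool.Agent.PrimeCircle Pool.Agent.PC.BlockI

open scoped Classical in
/-- Absorbing gadgets of polylogarithmic size avoiding a small set. -/
private theorem res_gadget {A : ℕ → ℕ → Prop} (h : PG A) : ∃ C : ℝ, 0 < C ∧ ∀ᶠ m : ℕ in atTop,
    ∀ W : Finset (Bool × ℕ), (W.card : ℝ) ≤ (m : ℝ) ^ (0.92 : ℝ) →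
      ∃ Γ : List (Bool × ℕ), Γ ≠ [] ∧ Γ.IsChain (adjV A) ∧ Γ.Nodup ∧
        (∀ v ∈ Γ, v ∉ W ∧ v.2 < m) ∧ (Γ.length : ℝ) ≤ C * Real.log m ^ 3 ∧
        ∀ a < m, ∀ b < m, Absorbs A Γ a b := by
  obtain ⟨k, κ, hk, hκ, hlev⟩ := levels h
  obtain ⟨L0, hcon⟩ := connect h
  have hkR : (0 : ℝ) < k := by exact_mod_cast hk
  refine ⟨((L0 : ℝ) + 2) * (12 * k / κ + 1), by positivity, ?_⟩
  filter_upwards [hlev, hcon, avoid h hκ, h.deg 1 one_pos,
    log_le_rpow (δ := 0.01) (by norm_num) (K := 1) one_pos, eventually_ge_atTop 3,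
    eventually_gt_atTop k, const_mul_rpow (C := (L0 + 2) * (12 * k / κ + 1)) (a := 0.03) (b := 0.04)
      (by norm_num), const_mul_rpow (C := 2) (a := 0.92) (b := 0.95) (by norm_num)]
    with m hlev hcon hav hdeg hlog hm hkm hC1 hC2 W hW
  obtain ⟨S, hS0, hSk, hSsub, hS⟩ := hlev
  have hm0 : (0 : ℝ) < m := by positivity
  have hm1 : (1 : ℝ) < m := by exact_mod_cast (by omega : 1 < m)
  have hd := dd_pos (m := m) (by omega)
  have hl := Real.log_pos hm1
  have hdeg' : ∀ i < m, (dX A (range m) i : ℝ) ≤ 2 * dd m := by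
    intro i hi
    have := (hdeg i hi).2
    norm_num at this
    exact this
  set N : ℕ := ⌈12 * k / κ * Real.log m ^ 3⌉₊ with hN
  have hNle : (N : ℝ) ≤ (12 * k / κ + 1) * (m : ℝ) ^ (0.03 : ℝ) := by
    have h1 : (N : ℝ) ≤ 12 * k / κ * Real.log m ^ 3 + 1 := (Nat.ceil_lt_add_one (by positivity)).le
    have h2 : Real.log m ^ 3 ≤ (m : ℝ) ^ (0.03 : ℝ) := by
      have h3 : Real.log m ^ 3 ≤ ((m : ℝ) ^ (0.01 : ℝ)) ^ 3 := by
        have : Real.log m ≤ (m : ℝ) ^ (0.01 : ℝ) := by simpa using hlog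
        gcongr
      rw [← Real.rpow_natCast ((m : ℝ) ^ (0.01 : ℝ)), ← Real.rpow_mul hm0.le] at h3
      norm_num at h3 ⊢
      exact h3
    have h4 : (1 : ℝ) ≤ (m : ℝ) ^ (0.03 : ℝ) := Real.one_le_rpow hm1.le (by norm_num)
    have h5 : 12 * k / κ * Real.log m ^ 3 ≤ 12 * k / κ * (m : ℝ) ^ (0.03 : ℝ) := by gcongr
    linarith
  have hL1 : 1 ≤ Real.log m := by
    rw [Real.le_log_iff_exp_le hm0]
    have h3 : (3 : ℝ) ≤ m := by exact_mod_cast hm
    have := Real.exp_one_lt_d9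
    linarith
  have hN3 : ((L0 : ℝ) + 2) * N ≤ ((L0 : ℝ) + 2) * (12 * k / κ + 1) * Real.log m ^ 3 := by
    have h1 : (N : ℝ) ≤ 12 * k / κ * Real.log m ^ 3 + 1 := (Nat.ceil_lt_add_one (by positivity)).le
    have h2 : (1 : ℝ) ≤ Real.log m ^ 3 := one_le_pow₀ hL1
    calc ((L0 : ℝ) + 2) * N ≤ ((L0 : ℝ) + 2) * (12 * k / κ * Real.log m ^ 3 + Real.log m ^ 3) := by
          gcongr
          linarith
      _ = _ := by ring
  have hN04 : ((L0 : ℝ) + 2) * N ≤ (m : ℝ) ^ (0.04 : ℝ) := by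
    refine le_trans ?_ hC1
    calc ((L0 : ℝ) + 2) * N ≤ ((L0 : ℝ) + 2) * ((12 * k / κ + 1) * (m : ℝ) ^ (0.03 : ℝ)) := by
          gcongr
      _ = _ := by ring
  have h0492 : (m : ℝ) ^ (0.04 : ℝ) ≤ (m : ℝ) ^ (0.92 : ℝ) :=
    Real.rpow_le_rpow_of_exponent_le hm1.le (by norm_num)
  have hL0 : (0 : ℝ) ≤ L0 := by positivity
  have hN0 : (0 : ℝ) ≤ N := by positivity
  have hWN : (W.card : ℝ) + (L0 + 2) * N ≤ (m : ℝ) ^ (0.95 : ℝ) := by linarith
  have hLN : 0 ≤ (L0 : ℝ) * N := by positivity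
  obtain ⟨B, ⟨hB4, hB5⟩, hB2, hhit⟩ := hitting h hκ hk hm hkm hav hdeg' S hSk hSsub hS N
    (Nat.le_ceil _) W (by linarith)
  -- the list of segments
  set L : List (ℕ × (ℕ × ℕ)) := (List.range k).flatMap (fun j => B.filter (fun x => x.1 = j)) with hL
  have hperm : L.Perm B := regroup k B (fun x hx => (hB5 x hx).1)
  have hmemL : ∀ x ∈ L, x ∈ B := fun x hx => hperm.mem_iff.1 hx
  have hnd : ((L.map orient).flatMap (fun e => [e.1, e.2])).Nodup := by
    rw [List.flatMap_map]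
    have h1 : (L.flatMap (fun x => [(orient x).1, (orient x).2])).Perm (L.flatMap vert) :=
      List.Perm.flatMap_left _ fun x _ => orient_perm x
    have h2 : (L.flatMap vert).Perm (B.flatMap vert) := hperm.flatMap_right _
    exact (h1.trans h2).symm.nodup hB4
  have hadj : ∀ e ∈ L.map orient, adjV A e.1 e.2 ∧ e.1.2 < m ∧ e.2.2 < m := by
    intro e he
    obtain ⟨x, hx, rfl⟩ := List.mem_map.1 he
    obtain ⟨_, hx2, _⟩ := hB5 x (hmemL x hx)
    unfold BlockI.EE at hx2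
    simp only [Finset.mem_filter, Finset.mem_product, Finset.mem_range] at hx2
    unfold orient
    split_ifs
    · exact ⟨⟨by simp, h.symm _ _ hx2.2⟩, hx2.1.2, hx2.1.1⟩
    · exact ⟨⟨by simp, hx2.2⟩, hx2.1.1, hx2.1.2⟩
  have hnotW : ∀ e ∈ L.map orient, e.1 ∉ W ∧ e.2 ∉ W := by
    intro e he
    obtain ⟨x, hx, rfl⟩ := List.mem_map.1 he
    obtain ⟨_, _, hx3, hx4⟩ := hB5 x (hmemL x hx)
    unfold orient
    split_ifs
    · exact ⟨hx4, hx3⟩
    · exact ⟨hx3, hx4⟩
  have hLlen : (L.map orient).length ≤ N := by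
    rw [List.length_map, hperm.length_eq]
    exact hB2
  obtain ⟨Γ, hΓ1, hΓ2, hΓ3, hΓ4, hΓ5⟩ := thread (B := (m : ℝ) ^ (0.95 : ℝ)) hcon (L.map orient) W
    hadj hnd hnotW (by
      have h1 : ((L.map orient).length : ℝ) ≤ N := by exact_mod_cast hLlen
      push_cast
      nlinarith)
  have habs : ∀ a < m, ∀ b < m, Absorbs A Γ a b := by
    intro a ha b hb
    obtain ⟨n, hn⟩ : ∃ n, k = n + 1 := ⟨k - 1, by omega⟩
    obtain ⟨p0, h1, h2, xs, h3, y, h4, h5⟩ := exists_chain (A := A) (m := m) (k := k) (S := S)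
      (B := B) (a := a) (hS0 a) (hhit a ha) n (by omega) b (by
        rw [← hn, hSk a]
        exact Finset.mem_range.2 hb)
    have h6 : (((0, p0) : ℕ × (ℕ × ℕ)) :: xs).Sublist L := by
      have h7 : L = B.filter (fun x => x.1 = 0) ++
          (List.range' 1 n).flatMap (fun j => B.filter (fun x => x.1 = j)) := by
        rw [hL, List.range_eq_range', hn, List.range'_succ, List.flatMap_cons]
      rw [h7]
      have h8 : ([(0, p0)] : List (ℕ × (ℕ × ℕ))).Sublist (B.filter (fun x => x.1 = 0)) := by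
        rw [List.singleton_sublist, List.mem_filter]
        exact ⟨h1, by simp⟩
      exact h8.append h3
    have h9 := Sub.sublist (h6.map orient) Γ hΓ1
    have h10 : orient (0, p0) = ((true, p0.2), (false, p0.1)) := by simp [orient]
    rw [List.map_cons, h10] at h9
    obtain ⟨X, Y, rfl, hY⟩ := h9
    exact absorbs_of h hΓ2 hY h4 h2 h5
  refine ⟨Γ, ?_, hΓ2, hΓ3, hΓ4, ?_, habs⟩
  · rintro rfl
    obtain ⟨L1, L2, x, y, hp, _⟩ := habs 0 (by omega) 0 (by omega)
    have := hp.length_eq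
    simp at this
  · have h1 : (Γ.length : ℝ) ≤ (L0 + 2) * N := by
      have h2 : Γ.length ≤ (L0 + 2) * N := hΓ5.trans (Nat.mul_le_mul_left _ hLlen)
      exact_mod_cast h2
    exact h1.trans hN3


open scoped Classical in
theorem main_Res : Stmt_Res := by
  intro A h C hC
  obtain ⟨L0, hcon⟩ := connect h
  obtain ⟨Cg, hCg, hgad⟩ := res_gadget h
  refine ⟨C * (Cg + L0) + L0, by positivity, ?_⟩
  -- growth
  have hgrow : ∀ (D : ℝ) (j : ℕ) (s : ℝ), 0 < s → 0 < D → ∀ᶠ m : ℕ in atTop,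
      D * Real.log m ^ j ≤ (m : ℝ) ^ s := by
    intro D j s hs hD
    have h1 : (fun x : ℝ => Real.log x ^ j) =o[atTop] fun x => x ^ s := by
      have h0 := isLittleO_log_rpow_rpow_atTop (s := s) (j : ℝ) hs
      simpa only [Real.rpow_natCast] using h0
    have h2 := h1.def (c := 1 / D) (by positivity)
    have h3 := tendsto_natCast_atTop_atTop (R := ℝ) |>.eventually h2
    filter_upwards [h3, eventually_ge_atTop 1] with m hm hm1
    have hl : 0 ≤ Real.log (m : ℝ) := Real.log_natCast_nonneg m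
    rw [Real.norm_eq_abs, Real.norm_eq_abs, abs_of_nonneg (by positivity),
      abs_of_nonneg (by positivity)] at hm
    calc D * Real.log m ^ j ≤ D * (1 / D * (m : ℝ) ^ s) := by gcongr
      _ = (m : ℝ) ^ s := by field_simp
  have hlogtend : Tendsto (fun N : ℕ => Real.log (N : ℝ)) atTop atTop :=
    Real.tendsto_log_atTop.comp tendsto_natCast_atTop_atTop
  have hone : ∀ᶠ m : ℕ in atTop, 1 ≤ C * Real.log m ^ 6 := by
    filter_upwards [hlogtend.eventually_ge_atTop 1, hlogtend.eventually_ge_atTop (1 / C)]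
      with m h1 h2
    calc (1 : ℝ) = C * (1 / C) := by field_simp
      _ ≤ C * Real.log m := by gcongr
      _ ≤ C * Real.log m ^ 6 := by
          have : Real.log m ≤ Real.log m ^ 6 := by
            calc Real.log m = Real.log m ^ 1 := by ring
              _ ≤ Real.log m ^ 6 := pow_le_pow_right₀ h1 (by norm_num)
          gcongr
  filter_upwards [hcon, hgad, eventually_ge_atTop 3, hone,
    hgrow (C * (Cg + L0) + L0) 9 0.92 (by norm_num) (by positivity),
    hgrow (C * (Cg + L0) + L0 + (Cg + L0)) 9 0.92 (by norm_num) (by positivity),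
    const_mul_rpow (C := 2) (a := 0.92) (b := 0.95) (by norm_num),
    hlogtend.eventually_ge_atTop 1]
    with m hcon hgad hm hone hG1 hG2 hC2 hL1
  have hm0 : (0 : ℝ) < m := by positivity
  have hm1 : (1 : ℝ) < m := by exact_mod_cast (by omega : 1 < m)
  have hL0 : (0 : ℝ) ≤ L0 := by positivity
  obtain ⟨L, hL⟩ : ∃ L : ℝ, L = Real.log m := ⟨_, rfl⟩
  rw [← hL] at hgad hone hG1 hG2 hL1 ⊢
  have hLp : 0 < L := by linarith
  have hLe : (1 : ℝ) ≤ L ^ 3 := one_le_pow₀ hL1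
  have hL9 : (1 : ℝ) ≤ L ^ 9 := one_le_pow₀ hL1
  obtain ⟨g, hg⟩ : ∃ g : ℕ, g = ⌊Cg * L ^ 3⌋₊ := ⟨_, rfl⟩
  have hgle : (g : ℝ) ≤ Cg * L ^ 3 := by rw [hg]; exact Nat.floor_le (by positivity)
  obtain ⟨n, hn⟩ : ∃ n, ⌊C * L ^ 6⌋₊ = n + 1 := by
    have h1 : 1 ≤ ⌊C * L ^ 6⌋₊ := by
      rw [Nat.one_le_floor_iff]
      exact hone
    exact ⟨⌊C * L ^ 6⌋₊ - 1, by omega⟩
  have hnle : ((n + 1 : ℕ) : ℝ) ≤ C * L ^ 6 := by
    rw [← hn]
    exact Nat.floor_le (by positivity)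
  have h7 : ((n + 1 : ℕ) : ℝ) * (g + L0) ≤ C * (Cg + L0) * L ^ 9 := by
    calc ((n + 1 : ℕ) : ℝ) * (g + L0) ≤ (C * L ^ 6) * (Cg * L ^ 3 + L0 * L ^ 3) := by
          gcongr
          nlinarith
      _ = C * (Cg + L0) * L ^ 9 := by ring
  have h8 : C * (Cg + L0) * L ^ 9 + L0 ≤ (C * (Cg + L0) + L0) * L ^ 9 := by nlinarith
  have h9 : (m : ℝ) ^ (0.92 : ℝ) + g + L0 ≤ (m : ℝ) ^ (0.95 : ℝ) := by
    have e1 : (g : ℝ) + L0 ≤ (Cg + L0) * L ^ 9 := by
      have e3 : L ^ 3 ≤ L ^ 9 := pow_le_pow_right₀ hL1 (by norm_num)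
      calc (g : ℝ) + L0 ≤ Cg * L ^ 9 + L0 * L ^ 9 := by
            have : Cg * L ^ 3 ≤ Cg * L ^ 9 := by gcongr
            nlinarith
        _ = _ := by ring
    have e2 : (Cg + L0) * L ^ 9 ≤ (C * (Cg + L0) + L0 + (Cg + L0)) * L ^ 9 := by
      refine mul_le_mul_of_nonneg_right ?_ (by positivity)
      have : 0 ≤ C * (Cg + L0) := by positivity
      linarith
    linarith
  obtain ⟨Gs, g1, g2, g3, g4, g5, g6, g7⟩ := build (A := A) (m := m) (L0 := L0) (g := g)
    (B1 := (m : ℝ) ^ (0.92 : ℝ)) (B2 := (m : ℝ) ^ (0.95 : ℝ))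
    (by
      intro W hW
      obtain ⟨Γ, e1, e2, e3, e4, e5, e6⟩ := hgad W hW
      exact ⟨Γ, e1, e2, e3, e4, by rw [hg]; exact Nat.le_floor e5, e6⟩)
    hcon (by positivity) h9 n (by linarith)
  have g4' : (Gs.flatten.length : ℝ) ≤ C * (Cg + L0) * L ^ 9 := by
    refine le_trans ?_ h7
    exact_mod_cast g4
  obtain ⟨w, hw⟩ : ∃ w, Gs.flatten.getLast? = some w := by
    rcases hh : Gs.flatten.getLast? with _ | w
    · rw [List.getLast?_eq_none_iff] at hh
      exact absurd hh g6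
    · exact ⟨w, rfl⟩
  obtain ⟨u, hu⟩ : ∃ u, Gs.flatten.head? = some u := by
    rcases hh : Gs.flatten.head? with _ | u
    · rw [List.head?_eq_none_iff] at hh
      exact absurd hh g6
    · exact ⟨u, rfl⟩
  obtain ⟨P, p1, p2, p3, p4⟩ := hcon w u (g3 w (List.mem_of_getLast? hw)) (g3 u (List.mem_of_head? hu))
    Gs.flatten.toFinset (by
      have e2 := List.toFinset_card_le Gs.flatten
      have e3 : ((Gs.flatten.toFinset).card : ℝ) ≤ (Gs.flatten.length : ℝ) := by exact_mod_cast e2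
      nlinarith)
  rcases Gs with _ | ⟨Γ1, Gs1⟩
  · simp at g1
  have hchain : (P ++ (Γ1 ++ Gs1.flatten)).IsChain (adjV A) := by
    have e1 := chain_join (X := [w]) (Y := (Γ1 :: Gs1).flatten) (R := adjV A)
      (List.isChain_singleton w) rfl p4 hu g5
    have e2 := e1.2
    rw [List.append_assoc, List.isChain_append] at e2
    simpa using e2.2.1
  have hPΓ : (P ++ Γ1).IsChain (adjV A) := by
    rw [← List.append_assoc, List.isChain_append] at hchain
    exact hchain.1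
  refine ⟨(P ++ Γ1) :: Gs1, ?_, ?_, ?_, ?_, ?_, ?_, ?_⟩
  · rw [hn, ← g1]
    rfl
  · rw [List.flatten_cons] at g2 ⊢
    rw [List.append_assoc, List.nodup_append]
    refine ⟨p2, g2, ?_⟩
    intro x hx y hy hxy
    subst hxy
    refine (p3 x hx).1 ?_
    rw [List.mem_toFinset, List.flatten_cons]
    exact hy
  · intro v hv
    rw [List.flatten_cons, List.append_assoc, List.mem_append] at hv
    rcases hv with hv | hv
    · exact (p3 v hv).2
    · exact g3 v (by rw [List.flatten_cons]; exact hv)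
  · have e1 : (((P ++ Γ1) :: Gs1).flatten.length : ℝ) = P.length + ((Γ1 :: Gs1).flatten.length : ℝ) := by
      simp only [List.flatten_cons, List.length_append, Nat.cast_add]
      ring
    have e2 : (P.length : ℝ) ≤ L0 := by exact_mod_cast p1
    rw [e1]
    linarith
  · rw [List.flatten_cons, List.append_assoc]
    exact hchain
  · have hlast : ((P ++ Γ1) :: Gs1).flatten.getLast? = some w := by
      rw [List.flatten_cons, List.append_assoc]
      rw [List.flatten_cons] at hw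
      rw [List.getLast?_append, hw]
      rfl
    rcases P with _ | ⟨p, P⟩
    · refine ⟨u, w, ?_, hlast, ?_⟩
      · simpa using hu
      · simpa using p4
    · refine ⟨p, w, by simp, hlast, ?_⟩
      rw [List.cons_append, List.isChain_cons_cons] at p4
      exact p4.1
  · intro Γ hΓ a ha b hb
    rw [List.mem_cons] at hΓ
    rcases hΓ with rfl | hΓ
    · exact BlockI.Absorbs.append_left (g7 Γ1 (by simp) a ha b hb) hPΓ
    · exact g7 Γ (by simp [hΓ]) a ha b hb

end Pool.Agent.PCZ
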