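import Pool.Agent.PCZ.Stmts
import Pool.Agent.PCX.Wb
import Pool.Agent.PCZ.Usn

/-!
# [Upm] upper bound for the number of perfect matchings
-/

set_option autoImplicit false

namespace Pool.Agent.PCZ

open Finset Filter Pool.Agent.PC Pool.Agent.PCX Pool.Agent.PrimeCircle

open scoped Classical in
theorem main_Upm : Stmt_Upm := by
  intro C hC
  refine ⟨C ^ 2 * 5, ?_⟩
  have hlogtend : Tendsto (fun N : ℕ => Real.log (N : ℝ)) atTop atTop :=
    Real.tendsto_log_atTop.comp tendsto_natCast_atTop_atTop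
  filter_upwards [hlogtend.eventually_ge_atTop 1, hlogtend.eventually_ge_atTop (2 / C ^ 2),
    eventually_ge_atTop 4] with m hL1 hLC hm x hx hrow
  have hm4 : (4 : ℝ) ≤ m := by exact_mod_cast hm
  have hm0 : (0 : ℝ) < m := by linarith
  obtain ⟨L, hL⟩ : ∃ L : ℝ, L = Real.log m := ⟨_, rfl⟩
  unfold Bd at hx
  rw [← hL] at hL1 hLC hx ⊢
  have hL0 : 0 < L := by linarith
  set ρ := √(L / m) with hρ
  have hρ0 : 0 < ρ := Real.sqrt_pos.2 (by positivity)
  have hρ2 : ρ ^ 2 = L / m := Real.sq_sqrt (by positivity)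
  have hCρ : 0 < C * ρ := by positivity
  obtain ⟨T, hT⟩ : ∃ T : ℝ, T = (C * ρ) ^ 2 := ⟨_, rfl⟩
  have hT0 : 0 < T := by rw [hT]; positivity
  have hTe : T = C ^ 2 * L / m := by rw [hT, mul_pow, hρ2]; ring
  have hlogT : Real.log T = 2 * Real.log (C * ρ) := by
    rw [hT, Real.log_pow]; norm_num
  set z : ℕ → ℝ := fun i => x i / (C * ρ) with hz
  have hx0 : ∀ i < m, 0 < x i := by
    intro i hi
    exact lt_of_lt_of_le (by positivity) (hx i hi).1
  have hz01 : ∀ i < m, 0 < z i ∧ z i ≤ 1 := by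
    intro i hi
    exact ⟨div_pos (hx0 i hi) hCρ, (div_le_one hCρ).2 (hx i hi).2⟩
  -- the matrix
  set w : Fin m → Fin m → ℝ := fun a b => if PA a b then z a * z b else 0 with hw
  have hw01 : ∀ i j, 0 ≤ w i j ∧ w i j ≤ 1 := by
    intro i j
    simp only [hw]
    split_ifs
    · exact ⟨mul_nonneg (hz01 _ i.2).1.le (hz01 _ j.2).1.le,
        mul_le_one₀ (hz01 _ i.2).2 (hz01 _ j.2).1.le (hz01 _ j.2).2⟩
    · exact ⟨le_rfl, zero_le_one⟩
  have hB := main_Wb (Fin m) w hw01
  have hrows : ∀ a : Fin m, ∑ b, w a b = 1 / T := by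
    intro a
    have h1 := hrow a a.2
    unfold wdeg at h1
    rw [← h1, sum_div, Fin.sum_univ_eq_sum_range (fun j => if PA a j then z a * z j else 0) m]
    refine sum_congr rfl fun j _ => ?_
    split_ifs
    · simp only [hz, hT]
      field_simp
    · simp
  simp only [hrows] at hB
  rw [prod_const, card_univ, Fintype.card_fin] at hB
  -- the left side
  set P : ℝ := (Nat.card (Mt PA (range m) (range m)) : ℝ) with hP
  have hPe : P = ((univ.filter (fun σ : Equiv.Perm (Fin m) =>
      ∀ i : Fin m, (2 * ((i : ℕ) + (σ i : ℕ)) + 3).Prime)).card : ℝ) := by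
    rw [hP, main_Nm m, Nat.card_eq_fintype_card, Fintype.card_subtype]
  have hper : ∑ σ : Equiv.Perm (Fin m), ∏ i, w i (σ i) = (∏ i : Fin m, z i) ^ 2 * P := by
    have e1 : ∀ σ : Equiv.Perm (Fin m), ∏ i, w i (σ i) =
        if (∀ i : Fin m, (2 * ((i : ℕ) + (σ i : ℕ)) + 3).Prime) then (∏ i : Fin m, z i) ^ 2
          else 0 := by
      intro σ
      simp only [hw]
      by_cases h : ∀ i : Fin m, (2 * ((i : ℕ) + (σ i : ℕ)) + 3).Prime
      · have h' : ∀ i : Fin m, PA i (σ i) := h
        rw [if_pos h, prod_congr rfl (fun i _ => if_pos (h' i)), prod_mul_distrib, sq,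
          Equiv.prod_comp σ (fun y : Fin m => z y)]
      · rw [if_neg h]
        push Not at h
        obtain ⟨i, hi⟩ := h
        exact prod_eq_zero (mem_univ i) (if_neg hi)
    rw [sum_congr rfl (fun σ _ => e1 σ), ← sum_filter, sum_const, nsmul_eq_mul, hPe, mul_comm]
  rw [hper] at hB
  have hprodpos : 0 < ∏ i : Fin m, z i := prod_pos (fun i _ => (hz01 _ i.2).1)
  have hlogz : Real.log (∏ i : Fin m, z i) =
      ∑ i ∈ range m, Real.log (x i) - m * Real.log (C * ρ) := by
    rw [Real.log_prod (fun i _ => (hz01 _ i.2).1.ne'),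
      Fin.sum_univ_eq_sum_range (fun i => Real.log (z i)) m,
      sum_congr rfl (g := fun i => Real.log (x i) - Real.log (C * ρ)), sum_sub_distrib,
      sum_const, card_range, nsmul_eq_mul]
    intro i hi
    exact Real.log_div (hx0 i (mem_range.1 hi)).ne' hCρ.ne'
  -- the bound for `Phi (1 / T)`
  have hTm : 1 / T ≤ m / 2 := by
    rw [div_le_div_iff₀ hT0 (by norm_num), hTe]
    have e4 : (m : ℝ) * (C ^ 2 * L / m) = C ^ 2 * L := by field_simp
    rw [e4]
    rw [div_le_iff₀ (by positivity)] at hLC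
    linarith
  have hlogR : Real.log (1 / T + 1) ≤ L := by
    rw [hL]
    refine Real.log_le_log (by positivity) ?_
    linarith
  have hlogR0 : 0 ≤ Real.log (1 / T + 1) := by
    refine Real.log_nonneg ?_
    have : 0 < 1 / T := by positivity
    linarith
  have hPhi0 : 0 < Phi (1 / T) := by
    unfold Phi
    positivity
  have hPhi : Real.log (Phi (1 / T)) + 1 + Real.log T ≤ T * (3 + L) := by
    have e0 : Phi (1 / T) * Real.exp 1 * T = 1 + T * (3 + Real.log (1 / T + 1)) := by
      unfold Phi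
      rw [div_mul_cancel₀ _ (Real.exp_pos 1).ne']
      field_simp
      ring
    have e1 : Real.log (Phi (1 / T)) + 1 + Real.log T = Real.log (Phi (1 / T) * Real.exp 1 * T) := by
      rw [Real.log_mul (by positivity) hT0.ne',
        Real.log_mul hPhi0.ne' (Real.exp_pos 1).ne', Real.log_exp]
    rw [e1, e0]
    have e2 := Real.log_le_sub_one_of_pos
      (by positivity : 0 < 1 + T * (3 + Real.log (1 / T + 1)))
    have e3 : T * (3 + Real.log (1 / T + 1)) ≤ T * (3 + L) := by gcongr
    linarith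
  have hmain : m * (T * (3 + L)) ≤ C ^ 2 * 5 * L ^ 2 := by
    have e1 : (m : ℝ) * (T * (3 + L)) = C ^ 2 * (L * (3 + L)) := by
      rw [hTe]; field_simp
    rw [e1]
    have e2 : L * (3 + L) ≤ 5 * L ^ 2 := by nlinarith
    calc C ^ 2 * (L * (3 + L)) ≤ C ^ 2 * (5 * L ^ 2) := by gcongr
      _ = _ := by ring
  rcases (show (0 : ℝ) ≤ P from Nat.cast_nonneg _).eq_or_lt with h0 | h0
  · rw [← h0]
    exact (Real.exp_pos _).le
  · have hlog := Real.log_le_log (by positivity) hB
    rw [Real.log_mul (by positivity) h0.ne', Real.log_pow, Real.log_pow, hlogz] at hlog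
    rw [← Real.log_le_iff_le_exp h0]
    push_cast at hlog
    have h2 := mul_le_mul_of_nonneg_left hPhi hm0.le
    have h3 : (m : ℝ) * (Real.log (Phi (1 / T)) + 1 + Real.log T) =
        m * Real.log (Phi (1 / T)) + m + m * (2 * Real.log (C * ρ)) := by
      rw [hlogT]; ring
    rw [h3] at h2
    linarith

end Pool.Agent.PCZ
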